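import Pool.Agent.TH87.RVE.Fin

set_option autoImplicit false
set_option linter.unusedSectionVars false

/-! The machinery of `Pool.Agent.TH87.RVE` for a set `A` of vertices which is preserved by the
isomorphisms of the cards of the vertices outside `A`. -/

namespace Pool.Agent.U395.RC

open Finset Classical
open Pool.Agent.H234RC (Hypo NonIso Reconstructible)
open Pool.Agent.TH87.RVC (actF mem_actF FF FF_inv del relAut mem_iff_of_maps)
open Pool.Agent.TH87.RVE

variable {V : Type} [Fintype V]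

/-- the neighbours in `A` -/
noncomputable def NN (G : SimpleGraph V) (A : Finset V) (v : V) : Finset {x // x ∈ A} :=
  univ.filter (fun x => G.Adj v x)

theorem mem_NN (G : SimpleGraph V) (A : Finset V) (v : V) (x : {x // x ∈ A}) :
    x ∈ NN G A v ↔ G.Adj v x := by simp [NN]

theorem frame {G H : SimpleGraph V} {π : V → Equiv.Perm V} (hH : Hypo G H π)
    (A L : Finset V) (hAL : ∀ v, v ∈ L ↔ v ∉ A)
    (hmapsA : ∀ v ∈ L, ∀ u, π v u ∈ A ↔ u ∈ A) (i0 : V) (hi0 : i0 ∈ L) :
    ∃ N' : V → Finset {x // x ∈ A},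
      (∀ v ∈ L, ∃ g : relAut G A L, ∀ y, wt H N' (L.erase v) (actT V {x // x ∈ A} g y) =
        wt G (NN G A) (L.erase v) y) ∧
      ((∃ γ : relAut G A L, ∀ y, wt H N' L (actT V {x // x ∈ A} γ y) = wt G (NN G A) L y) →
        ∃ σ : Equiv.Perm V, ∀ x y, H.Adj (σ x) (σ y) ↔ G.Adj x y) := by
  have hmapsL : ∀ v ∈ L, ∀ u, π v u ∈ L ↔ u ∈ L := fun v hv u => by
    rw [hAL, hAL, hmapsA v hv u]
  have hLA : ∀ v ∈ L, v ∉ A := fun v hv => (hAL v).mp hv
  have hLA' : ∀ v, v ∉ L → v ∈ A := fun v hv => by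
    by_contra h
    exact hv ((hAL v).mpr h)
  -- restrictions
  let α : V → Equiv.Perm {x // x ∈ A} := fun v =>
    if hv : v ∈ L then (π v).subtypePerm (fun x => hmapsA v hv x) else 1
  have hα : ∀ v ∈ L, ∀ (x : {x // x ∈ A}), ((α v x : {x // x ∈ A}) : V) = π v x := by
    intro v hv x
    simp only [α, dif_pos hv]
    rfl
  let NG : V → Finset {x // x ∈ A} := NN G A
  let NH : V → Finset {x // x ∈ A} := NN H A
  have hNG : ∀ v (x : {x // x ∈ A}), x ∈ NG v ↔ G.Adj v x := fun v x => mem_NN G A v x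
  have hNH : ∀ v (x : {x // x ∈ A}), x ∈ NH v ↔ H.Adj v x := fun v x => mem_NN H A v x
  have hrel : ∀ i ∈ L, ∀ j, j ≠ i → NH (π i j) = actF _ (α i) (NG j) := by
    intro i hi j hji
    ext x
    obtain ⟨y, rfl⟩ := (α i).surjective x
    rw [mem_actF, hNG, hNH, hα i hi]
    have hyi : (y : V) ≠ i := fun h => hLA i hi (h ▸ y.2)
    exact hH.adj i j y hji hyi
  let Γ := relAut G A L
  let N' : V → Finset {x // x ∈ A} := fun x => actF _ (α i0)⁻¹ (NH x)
  have hN' : ∀ x, NH x = actF _ (α i0) (N' x) := by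
    intro x
    show _ = actF _ (α i0) (actF _ (α i0)⁻¹ (NH x))
    rw [map_inv]
    exact ((actF _ (α i0)).apply_symm_apply _).symm
  refine ⟨N', ?_, ?_⟩
  · -- deck condition
    intro i hi
    have hmem : (α i0)⁻¹ * α i ∈ Γ := by
      refine ⟨(π i0).symm * π i, fun x => ?_, fun x => ?_, fun x y hx hy => ?_⟩
      · rw [Equiv.Perm.mul_apply]
        rw [Equiv.symm_apply_eq, ← hα i hi, Equiv.Perm.mul_apply]
        have : α i0 ((α i0)⁻¹ (α i x)) = α i x := (α i0).apply_symm_apply _
        rw [← hα i0 hi0, this]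
      · rw [Equiv.Perm.mul_apply, ← hmapsL i0 hi0, Equiv.apply_symm_apply, hmapsL i hi]
      · rw [Equiv.Perm.mul_apply, Equiv.Perm.mul_apply]
        have hx1 : (π i0).symm (π i x) ∉ L := by
          rw [← hmapsL i0 hi0, Equiv.apply_symm_apply, hmapsL i hi]; exact hx
        have hy1 : (π i0).symm (π i y) ∉ L := by
          rw [← hmapsL i0 hi0, Equiv.apply_symm_apply, hmapsL i hi]; exact hy
        have hx2 : (π i0).symm (π i x) ≠ i0 := fun h => hx1 (by rw [h]; exact hi0)
        have hy2 : (π i0).symm (π i y) ≠ i0 := fun h => hy1 (by rw [h]; exact hi0)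
        have h1 := hH.adj i0 _ _ hx2 hy2
        rw [Equiv.apply_symm_apply, Equiv.apply_symm_apply] at h1
        rw [← h1]
        exact hH.adj i x y (fun h => hx (h ▸ hi)) (fun h => hy (h ▸ hi))
    refine ⟨⟨_, hmem⟩, fun y => ?_⟩
    apply wt_map G H NG N' (L.erase i) (L.erase i) (π i)
    · intro x
      rw [mem_erase, mem_erase, hmapsL i hi]
      have : π i x ≠ i ↔ x ≠ i := by
        rw [← (π i).injective.ne_iff (x := x), hH.fix]
      rw [this]
    · intro x y hx hy
      exact hH.adj i x y (mem_erase.mp hx).1 (mem_erase.mp hy).1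
    · intro x hx
      show actF _ (α i0)⁻¹ (NH (π i x)) = _
      rw [hrel i hi x (mem_erase.mp hx).1]
      show _ = actF _ ((α i0)⁻¹ * α i) (NG x)
      rw [map_mul]; rfl
  · rintro ⟨⟨γ, ρ, hρ1, hρ2, hρ3⟩, hγ⟩
    let ι := {D // D ∈ comps G L}
    let ι' := {D // D ∈ comps H L}
    have cardG : ∀ x, Fintype.card {j : ι // mk ((j : Finset V), G, NG) = x} = wt G NG L x := by
      intro x
      unfold wt
      rw [← Fintype.card_coe]
      apply Fintype.card_congr
      exact ⟨fun j => ⟨j.1.1, mem_filter.mpr ⟨j.1.2, j.2⟩⟩,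
        fun j => ⟨⟨j.1, (mem_filter.mp j.2).1⟩, (mem_filter.mp j.2).2⟩,
        fun _ => rfl, fun _ => rfl⟩
    have cardH : ∀ x, Fintype.card {j : ι' // mk ((j : Finset V), H, N') = x} = wt H N' L x := by
      intro x
      unfold wt
      rw [← Fintype.card_coe]
      apply Fintype.card_congr
      exact ⟨fun j => ⟨j.1.1, mem_filter.mpr ⟨j.1.2, j.2⟩⟩,
        fun j => ⟨⟨j.1, (mem_filter.mp j.2).1⟩, (mem_filter.mp j.2).2⟩,
        fun _ => rfl, fun _ => rfl⟩
    have hfib : ∀ c : Typ V {x // x ∈ A},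
        Nonempty ({j : ι // actT V {x // x ∈ A} γ (mk ((j : Finset V), G, NG)) = c} ≃
          {j : ι' // mk ((j : Finset V), H, N') = c}) := by
      intro c
      obtain ⟨x, rfl⟩ := (actT V {x // x ∈ A} γ).surjective c
      have h1 : wt H N' L (actT V {x // x ∈ A} γ x) = wt G NG L x := hγ x
      refine ⟨Fintype.equivOfCardEq ?_⟩
      rw [cardH, h1, ← cardG]
      apply Fintype.card_congr
      apply Equiv.subtypeEquivRight
      intro j
      exact (actT V {x // x ∈ A} γ).apply_eq_iff_eq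
    let tG : ι → Typ V {x // x ∈ A} := fun j => actT V {x // x ∈ A} γ (mk ((j : Finset V), G, NG))
    let tH : ι' → Typ V {x // x ∈ A} := fun j => mk ((j : Finset V), H, N')
    let β : ι ≃ ι' := Equiv.ofFiberEquiv (f := tG) (g := tH) (fun c => (hfib c).some)
    have hβ : ∀ j : ι, mk ((β j : Finset V), H, N') =
        actT V {x // x ∈ A} γ (mk ((j : Finset V), G, NG)) :=
      fun j => Equiv.ofFiberEquiv_map (f := tG) (g := tH) _ j
    have hβ2 : ∀ j : ι, RelA γ ((j : Finset V), G, NG) ((β j : Finset V), H, N') := fun j =>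
      (actT_mk γ _ _).mp (hβ j).symm
    choose σ hσ1 hσ2 hσ3 using hβ2
    simp only at hσ1 hσ2 hσ3
    let cj : ∀ x, x ∈ L → ι := fun x hx => ⟨comp G L x, comp_mem_comps G L x hx⟩
    have hcj : ∀ x hx, x ∈ ((cj x hx : ι) : Finset V) := fun x hx => comp_self G L x hx
    let σ0 : V → V := fun x => if h : x ∈ L then σ (cj x h) x else π i0 (ρ x)
    have hσL : ∀ x (h : x ∈ L), σ0 x = σ (cj x h) x := fun x h => by simp [σ0, h]
    have hσR : ∀ x, x ∉ L → σ0 x = π i0 (ρ x) := fun x h => by simp [σ0, h]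
    have hσm : ∀ x (h : x ∈ L), σ0 x ∈ ((β (cj x h) : ι') : Finset V) := fun x h => by
      rw [hσL x h, hσ1]; exact hcj x h
    have hσL' : ∀ x, x ∈ L → σ0 x ∈ L := fun x h => comps_sub H L _ (β (cj x h)).2 (hσm x h)
    have hσR' : ∀ x, x ∉ L → σ0 x ∉ L := fun x h => by
      rw [hσR x h, hmapsL i0 hi0, hρ2]; exact h
    have hsame : ∀ x y (hx : x ∈ L) (hy : y ∈ L), σ0 y ∈ ((β (cj x hx) : ι') : Finset V) →
        cj x hx = cj y hy := by
      intro x y hx hy h
      apply β.injective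
      apply Subtype.ext
      rw [← comp_of_mem H L _ (β (cj x hx)).2 _ h, ← comp_of_mem H L _ (β (cj y hy)).2 _ (hσm y hy)]
    have hinj : Function.Injective σ0 := by
      intro x y hxy
      by_cases hx : x ∈ L
      · by_cases hy : y ∈ L
        · have h1 := hsame x y hx hy (hxy ▸ hσm x hx)
          rw [hσL x hx, hσL y hy, h1] at hxy
          exact (σ _).injective hxy
        · exact absurd (hxy ▸ hσL' x hx) (hσR' y hy)
      · by_cases hy : y ∈ L
        · exact absurd (hxy ▸ hσL' y hy) (hσR' x hx)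
        · rw [hσR x hx, hσR y hy] at hxy
          exact ρ.injective ((π i0).injective hxy)
    let τ : Equiv.Perm V := Equiv.ofBijective σ0 (Finite.injective_iff_bijective.mp hinj)
    have hτ : ∀ x, τ x = σ0 x := fun x => rfl
    refine ⟨τ, fun x y => ?_⟩
    rw [hτ, hτ]
    have hmix : ∀ x y, x ∈ L → y ∉ L → (H.Adj (σ0 x) (σ0 y) ↔ G.Adj x y) := by
      intro x y hx hy
      have hyA : y ∈ A := hLA' y hy
      have h2 : NH (σ0 x) = actF _ (α i0) (actF _ γ (NG x)) := by
        rw [hN' (σ0 x), hσL x hx, hσ3 (cj x hx) x (hcj x hx)]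
      have h3 : σ0 y = ((α i0 (γ ⟨y, hyA⟩) : {x // x ∈ A}) : V) := by
        rw [hσR y hy, hα i0 hi0, ← hρ1]
      rw [h3, ← hNH, h2, mem_actF, mem_actF, hNG]
    by_cases hx : x ∈ L
    · by_cases hy : y ∈ L
      · by_cases hc : cj x hx = cj y hy
        · rw [hσL x hx, hσL y hy, ← hc]
          exact hσ2 (cj x hx) x y (hcj x hx) (hc ▸ hcj y hy)
        · constructor
          · intro h
            exact absurd (hsame x y hx hy (comp_closed H L _ (β (cj x hx)).2 _ _ (hσm x hx)
              (hσL' y hy) h)) hc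
          · intro h
            exfalso
            apply hc
            have h1 := comp_closed G L _ (cj x hx).2 x y (hcj x hx) hy h
            apply Subtype.ext
            exact (comp_of_mem G L _ (cj x hx).2 y h1).symm
      · exact hmix x y hx hy
    · by_cases hy : y ∈ L
      · rw [H.adj_comm, G.adj_comm]
        exact hmix y x hy hx
      · rw [hσR x hx, hσR y hy]
        have hx1 : ρ x ∉ L := fun h => hx ((hρ2 x).mp h)
        have hy1 : ρ y ∉ L := fun h => hy ((hρ2 y).mp h)
        have hx2 : ρ x ≠ i0 := fun h => hx1 (by rw [h]; exact hi0)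
        have hy2 : ρ y ≠ i0 := fun h => hy1 (by rw [h]; exact hi0)
        rw [hH.adj i0 _ _ hx2 hy2]
        exact hρ3 x y hx hy

end Pool.Agent.U395.RC
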