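import Pool.Agent.U395.RC.Abs

set_option autoImplicit false
set_option linter.unusedSectionVars false

namespace Pool.Agent.U395.RC

open Finset Classical
open Pool.Agent.H234RC (Hypo NonIso Reconstructible)
open Pool.Agent.TH87.RVC (actF mem_actF FF FF_inv del relAut mem_iff_of_maps)
open Pool.Agent.TH87.RVE

variable {V : Type} [Fintype V]

theorem comps_single_le (K : SimpleGraph V) (v : V) : (comps K {v}).card ≤ 1 := by
  unfold comps
  rw [image_singleton, card_singleton]

theorem conn_eq (K : SimpleGraph V) (P : Finset V) (hPc : (comps K P).card ≤ 1) (x : V)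
    (hx : x ∈ P) : comp K P x = P := by
  apply subset_antisymm (comp_sub K P x)
  intro y hy
  have h2 := (card_le_one.mp hPc) _ (comp_mem_comps K P x hx) _ (comp_mem_comps K P y hy)
  rw [h2]
  exact comp_self K P y hy

theorem conn_insert (K : SimpleGraph V) (P : Finset V) (hPc : (comps K P).card ≤ 1) (x y : V)
    (hx : x ∈ P) (hxy : K.Adj x y) : (comps K (insert y P)).card ≤ 1 := by
  have : ∀ z ∈ insert y P, comp K (insert y P) z = comp K (insert y P) x := by
    intro z hz
    apply comp_eq
    rw [mem_comp]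
    refine ⟨hz, ?_⟩
    rcases mem_insert.mp hz with rfl | hz
    · exact Relation.ReflTransGen.single ⟨mem_insert_of_mem hx, mem_insert_self _ _, hxy⟩
    · apply rch_mono K P _ (subset_insert _ _)
      have : z ∈ comp K P x := by rw [conn_eq K P hPc x hx]; exact hz
      exact ((mem_comp K P _ _).mp this).2
  rw [card_le_one]
  intro a ha b hb
  obtain ⟨a', ha', rfl⟩ := (mem_comps K _ a).mp ha
  obtain ⟨b', hb', rfl⟩ := (mem_comps K _ b).mp hb
  rw [this a' ha', this b' hb']

/-- in a connected set each proper nonempty subset has a neighbour -/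
theorem conn_nb (K : SimpleGraph V) (U : Finset V) (hU : (comps K U).card ≤ 1) (P : Finset V)
    (hP : P.Nonempty) (hPU : P ⊆ U) (hne : P ≠ U) : ∃ y ∈ U, y ∉ P ∧ ∃ x ∈ P, K.Adj x y := by
  by_contra hno
  push Not at hno
  obtain ⟨v, hv⟩ := hP
  apply hne
  apply subset_antisymm hPU
  intro y hy
  have hcl : ∀ x ∈ P, ∀ y ∈ U, K.Adj x y → y ∈ P := by
    intro x hx y hy hadj
    by_contra hyP
    exact hno y hy hyP x hx hadj
  have h4 : y ∈ comp K U v := by rw [conn_eq K U hU v (hPU hv)]; exact hy
  exact (rch_closed K U P hcl hv ((mem_comp K U _ _).mp h4).2).1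

/-- a connected set has a vertex, different from a given one, which does not cut it -/
theorem noncut_ne (K : SimpleGraph V) (U : Finset V) (hU : (comps K U).card ≤ 1) (r : V)
    (hr : r ∈ U) (h2 : 2 ≤ U.card) : ∃ y ∈ U, y ≠ r ∧ (comps K (U.erase y)).card ≤ 1 := by
  let S : Finset (Finset V) := univ.filter
    (fun P => r ∈ P ∧ P ⊆ U ∧ P ≠ U ∧ (comps K P).card ≤ 1)
  have hS : S.Nonempty := by
    refine ⟨{r}, mem_filter.mpr ⟨mem_univ _, mem_singleton_self r, singleton_subset_iff.mpr hr,
      ?_, comps_single_le K r⟩⟩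
    intro h
    rw [← h, card_singleton] at h2
    omega
  obtain ⟨P, hPS, hPmax⟩ := exists_max_image S (fun P => P.card) hS
  obtain ⟨hvP, hPL, hPne, hPc⟩ := (mem_filter.mp hPS).2
  obtain ⟨y, hyL, hyP, x, hxP, hxy⟩ := conn_nb K U hU P ⟨r, hvP⟩ hPL hPne
  have hins := conn_insert K P hPc x y hxP hxy
  have hinsL : insert y P = U := by
    by_contra hne
    have := hPmax (insert y P) (mem_filter.mpr ⟨mem_univ _, mem_insert_of_mem hvP,
      insert_subset hyL hPL, hne, hins⟩)
    rw [card_insert_of_notMem hyP] at this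
    omega
  refine ⟨y, hyL, fun h => hyP (h ▸ hvP), ?_⟩
  rw [← hinsL, erase_insert hyP]
  exact hPc

/-- an isolated vertex: if both `U` minus `v` is connected, and `U` is not, then `v` is alone -/
theorem alone_of (K : SimpleGraph V) (U : Finset V) (hU : 2 ≤ (comps K U).card) (v : V)
    (hv : v ∈ U) (hc : (comps K (U.erase v)).card ≤ 1) : comp K U v = {v} := by
  by_contra hne
  have h1 : ∃ x ∈ comp K U v, x ≠ v := by
    by_contra hcon
    push Not at hcon
    apply hne
    ext x
    rw [mem_singleton]
    exact ⟨hcon x, fun h => h ▸ comp_self K U v hv⟩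
  obtain ⟨x, hx, hxv⟩ := h1
  have hxU := comp_sub K U v hx
  have h2 : ∃ z ∈ U, z ∉ comp K U v := by
    by_contra hcon
    push Not at hcon
    have : ∀ z ∈ U, comp K U z = comp K U v := fun z hz => comp_eq K U v z (hcon z hz)
    have h3 : (comps K U).card ≤ 1 := by
      rw [card_le_one]
      intro a ha b hb
      obtain ⟨a', ha', rfl⟩ := (mem_comps K _ a).mp ha
      obtain ⟨b', hb', rfl⟩ := (mem_comps K _ b).mp hb
      rw [this a' ha', this b' hb']
    omega
  obtain ⟨z, hz, hzv⟩ := h2
  have hzv' : z ≠ v := fun h => hzv (h ▸ comp_self K U v hv)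
  have hxe : x ∈ U.erase v := mem_erase.mpr ⟨hxv, hxU⟩
  have hze : z ∈ U.erase v := mem_erase.mpr ⟨hzv', hz⟩
  have h4 : z ∈ comp K (U.erase v) x := by rw [conn_eq K _ hc x hxe]; exact hze
  apply hzv
  rw [mem_comp] at *
  exact ⟨hz, rch_trans K U hx.2 (rch_mono K _ _ (erase_subset _ _) h4.2)⟩

/-- if all one-vertex-deleted subgraphs have the same numbers of components and `U` has at least
three vertices, then connectedness is transferred -/
theorem conn_transfer (G H : SimpleGraph V) (U : Finset V) (h3 : 3 ≤ U.card)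
    (hc : ∀ v ∈ U, (comps H (U.erase v)).card = (comps G (U.erase v)).card)
    (hH : (comps H U).card ≤ 1) : (comps G U).card ≤ 1 := by
  by_contra hG
  push Not at hG
  obtain ⟨r, hr⟩ : U.Nonempty := card_pos.mp (by omega)
  obtain ⟨v, hv, -, hv2⟩ := noncut_ne H U hH r hr (by omega)
  obtain ⟨y, hy, hyv, hy2⟩ := noncut_ne H U hH v hv (by omega)
  rw [hc v hv] at hv2
  rw [hc y hy] at hy2
  have e1 := alone_of G U hG v hv hv2
  have e2 := alone_of G U hG y hy hy2
  obtain ⟨z, hz, hzv, hzy⟩ : ∃ z ∈ U, z ≠ v ∧ z ≠ y := by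
    by_contra hcon
    push Not at hcon
    have : U ⊆ {v, y} := by
      intro z hz
      rw [mem_insert, mem_singleton]
      by_cases h : z = v
      · exact Or.inl h
      · exact Or.inr (hcon z hz h)
    have := card_le_card this
    have := card_le_two (a := v) (b := y)
    omega
  have hye : y ∈ U.erase v := mem_erase.mpr ⟨hyv, hy⟩
  have hze : z ∈ U.erase v := mem_erase.mpr ⟨hzv, hz⟩
  have h4 : z ∈ comp G (U.erase v) y := by rw [conn_eq G _ hv2 y hye]; exact hze
  have h5 : z ∈ comp G U y := by
    rw [mem_comp] at *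
    exact ⟨hz, rch_mono G _ _ (erase_subset _ _) h4.2⟩
  rw [e2, mem_singleton] at h5
  exact hzy h5

/-- the action of the group of restrictions on the types -/
noncomputable def ph (G : SimpleGraph V) (A L : Finset V) :
    relAut G A L →* Equiv.Perm (Typ V {x // x ∈ A}) :=
  (actT V {x // x ∈ A}).comp (relAut G A L).subtype

theorem card_deck {G H : SimpleGraph V} (A L : Finset V) (N' : V → Finset {x // x ∈ A})
    (hdeck : ∀ v ∈ L, ∃ g : relAut G A L, ∀ y, wt H N' (L.erase v) (ph G A L g y) =
        wt G (NN G A) (L.erase v) y) :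
    ∀ v ∈ L, (comps H (L.erase v)).card = (comps G (L.erase v)).card := by
  intro v hv
  obtain ⟨g, hg⟩ := hdeck v hv
  rw [← sum_wt_card H N', ← sum_wt_card G (NN G A), ← Equiv.sum_comp (ph G A L g)]
  exact sum_congr rfl (fun y _ => hg y)

/-- the counts of components agree, and so do all counts of fewer than `N` components -/
theorem agree {G H : SimpleGraph V} (A L : Finset V) (N' : V → Finset {x // x ∈ A})
    (hdeck : ∀ v ∈ L, ∃ g : relAut G A L, ∀ y, wt H N' (L.erase v) (ph G A L g y) =
        wt G (NN G A) (L.erase v) y) (h2 : 2 ≤ (comps G L).card) (h3 : 3 ≤ L.card) :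
    (comps H L).card = (comps G L).card ∧
      ∀ c : Typ V {x // x ∈ A} → ℕ, ∑ x, c x < (comps G L).card →
        FF (ph G A L) c (wt G (NN G A) L) = FF (ph G A L) c (wt H N' L) := by
  have hcardEq := card_deck A L N' hdeck
  have hH2 : 2 ≤ (comps H L).card := by
    by_contra hcon
    have := conn_transfer G H L h3 hcardEq (by omega)
    omega
  set w := wt G (NN G A) L with hw
  set w' := wt H N' L with hw'
  set φ := ph G A L with hφ
  have hsz : ∀ (g : relAut G A L) y, sz (φ g y) = sz y := fun g y => sz_actT _ _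
  have hk0 := kel_main φ sz II PP card_II hsz (fun g y f => hE _ y f) sum_PP w w'
    (fun y hy => wt_zero G (NN G A) L y hy) (fun y hy => wt_zero H N' L y hy)
    (by rw [hw, hw', sum_wt_sz, sum_wt_sz])
    (by
      intro c
      rw [hw, hw', TT_eq, TT_eq]
      apply sum_congr rfl
      intro v hv
      obtain ⟨g, hg⟩ := hdeck v hv
      rw [← FF_inv φ c (wt H N' (L.erase v)) g]
      congr 1
      funext y
      exact (hg y).symm)
  have hcG : ∑ y, w y = (comps G L).card := sum_wt_card G (NN G A) L
  have hcH : ∑ y, w' y = (comps H L).card := sum_wt_card H N' L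
  have hk2 := hk0 2 (by omega) (by omega)
  have hNN : ∑ y, w y = ∑ y, w' y := by
    have := inv_sum φ w w' 2 le_rfl hk2 (fun _ => 1) (fun _ _ => rfl)
    simpa using this
  exact ⟨by omega, hk0 _ (by omega) (by omega)⟩

/-- the number of components is bounded in terms of the group -/
theorem abs_bound {G H : SimpleGraph V} {π : V → Equiv.Perm V} (hH : Hypo G H π)
    (hN : NonIso G H) (A L : Finset V) (hAL : ∀ v, v ∈ L ↔ v ∉ A)
    (hmapsA : ∀ v ∈ L, ∀ u, π v u ∈ A ↔ u ∈ A) :
    ∃ s : ℕ, (comps G L).card ≤ s * (s + 2) ∧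
      (3 / 2 : ℝ) ^ s ≤ 2 * (Nat.card (relAut G A L) : ℝ) := by
  by_cases h3 : (comps G L).card < 3
  · refine ⟨1, by omega, ?_⟩
    have : (1 : ℝ) ≤ (Nat.card (relAut G A L) : ℝ) := by
      exact_mod_cast Nat.succ_le_of_lt Nat.card_pos
    rw [pow_one]; linarith
  push Not at h3
  have hlo : 3 ≤ L.card := by
    refine h3.trans ?_
    unfold comps
    exact card_image_le
  obtain ⟨i0, hi0⟩ : L.Nonempty := card_pos.mp (by omega)
  obtain ⟨N', hdeck, hiso⟩ := frame hH A L hAL hmapsA i0 hi0
  obtain ⟨hcc, hk⟩ := agree A L N' hdeck (by omega) hlo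
  set w := wt G (NN G A) L with hw
  set w' := wt H N' L with hw'
  set φ := ph G A L with hφ
  have hsz : ∀ (g : relAut G A L) y, sz (φ g y) = sz y := fun g y => sz_actT _ _
  have hcG : ∑ y, w y = (comps G L).card := sum_wt_card G (NN G A) L
  have hcH : ∑ y, w' y = (comps H L).card := sum_wt_card H N' L
  set N := (comps G L).card with hNdef
  -- sizes
  have hsizes : ∀ r : ℕ, ∑ y, (if sz y = r then 1 else 0) * w y =
      ∑ y, (if sz y = r then 1 else 0) * w' y := by
    intro r
    exact inv_sum φ w w' 2 le_rfl (fun c hc => hk c (by omega)) (fun y => if sz y = r then 1 else 0)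
      (fun g y => by simp only [hsz])
  -- a smallest component
  obtain ⟨D0, hD0, hmin⟩ := exists_min_image (comps G L) (fun D => D.card)
    (card_pos.mp (by omega))
  obtain ⟨v, hv⟩ := comps_nonempty G L D0 hD0
  have hvL := comps_sub G L D0 hD0 hv
  set r0 := D0.card with hr0
  have hr0p : 0 < r0 := card_pos.mpr ⟨v, hv⟩
  have hwlt : ∀ y, sz y < r0 → w y = 0 := by
    intro y hy
    by_contra hne
    obtain ⟨D, hD, rfl⟩ := wt_pos G (NN G A) L y hne
    rw [sz_mk] at hy
    have := hmin D hD
    simp only at hy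
    omega
  have hwlt' : ∀ y, sz y < r0 → w' y = 0 := by
    intro y hy
    have h1 := hsizes (sz y)
    have h2 : ∑ z, (if sz z = sz y then 1 else 0) * w z = 0 := by
      apply sum_eq_zero
      intro z _
      by_cases h : sz z = sz y
      · rw [hwlt z (by omega)]; simp
      · rw [if_neg h, zero_mul]
    rw [h2] at h1
    have h3 := (sum_eq_zero_iff.mp h1.symm) y (mem_univ _)
    simpa using h3
  set D' := comp H L v with hD'
  have hD'c : D' ∈ comps H L := comp_mem_comps H L v hvL
  have hvD' : v ∈ D' := comp_self H L v hvL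
  set t := mk (D0, G, NN G A) with ht
  set t' := mk (D', H, N') with ht'
  have hszt : sz t = r0 := sz_mk _
  have hszt' : sz t' = D'.card := sz_mk _
  have hwt' : 1 ≤ w' t' := by
    rw [hw', wt_comp H N' L D' hD'c, if_pos rfl]; omega
  have hwt : 1 ≤ w t := by
    rw [hw, wt_comp G (NN G A) L D0 hD0, if_pos rfl]; omega
  have hD'ge : r0 ≤ D'.card := by
    by_contra hlt
    have := hwlt' t' (by omega)
    omega
  obtain ⟨g, hg⟩ := hdeck v hvL
  have hg2 : ∀ y, del w' t' (φ g y) + wt H N' (D'.erase v) (φ g y) =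
      del w t y + wt G (NN G A) (D0.erase v) y := by
    intro y
    rw [← wt_erase' H N' L D' hD'c v hvD', ← wt_erase' G (NN G A) L D0 hD0 v hv]
    exact hg y
  have hD0e : (D0.erase v).card < r0 := by
    rw [card_erase_of_mem hv]; omega
  have hD'r : D'.card = r0 := by
    by_contra hne
    have hlt : r0 < D'.card := lt_of_le_of_ne hD'ge (fun e => hne e.symm)
    have h1 := hsizes r0
    have e2 : ∑ y, (if y = t then 1 else 0) = 1 := by
      rw [sum_ite_eq' univ t]; simp
    have e1 : ∑ y, (if sz y = r0 then 1 else 0) * del w t y + ∑ y, (if y = t then 1 else 0) =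
        ∑ y, (if sz y = r0 then 1 else 0) * w y := by
      rw [← sum_add_distrib]
      apply sum_congr rfl
      intro y _
      unfold del
      by_cases h : y = t
      · rw [if_pos h, if_pos h, h, if_pos hszt]; omega
      · rw [if_neg h, if_neg h]; rfl
    have e3 : ∑ y, (if sz y = r0 then 1 else 0) * w' y ≤
        ∑ y, (if sz y = r0 then 1 else 0) * del w t y := by
      rw [← Equiv.sum_comp (φ g)]
      apply sum_le_sum
      intro y _
      rw [hsz]
      by_cases h : sz y = r0
      · rw [if_pos h, one_mul, one_mul]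
        have h2 := hg2 y
        rw [wt_large G (NN G A) (D0.erase v) y (by omega)] at h2
        have h4 : del w' t' (φ g y) = w' (φ g y) := by
          unfold del
          rw [if_neg]
          intro h5
          have h6 := congrArg sz h5
          rw [hsz] at h6
          omega
        omega
      · rw [if_neg h, zero_mul]; exact Nat.zero_le _
    omega
  have hrel2 : ∀ y, del w' t' (φ g y) = del w t y := by
    intro y
    by_cases h : r0 ≤ sz y
    · have h2 := hg2 y
      rw [wt_large G (NN G A) (D0.erase v) y (by omega), wt_large H N' (D'.erase v) (φ g y)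
        (by rw [hsz, card_erase_of_mem hvD']; omega)] at h2
      omega
    · have h4 : w y = 0 := hwlt y (by omega)
      have h5 : w' (φ g y) = 0 := hwlt' _ (by rw [hsz]; omega)
      unfold del
      rw [h4, h5]
      simp
  -- not equivalent
  have hneq : ¬ ∃ γ : relAut G A L, ∀ x, w' (φ γ x) = w x := fun h => hN (hiso h)
  obtain ⟨s, hs1, hs2⟩ := main_bound φ N (by omega) w w' (by omega) (by omega) hk t t' g hrel2 hneq
  refine ⟨s, hs1, hs2.trans ?_⟩
  rw [← Nat.card_eq_fintype_card]

end Pool.Agent.U395.RC
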