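import Pool.Agent.U395.RC.Spar

set_option autoImplicit false
set_option linter.unusedSectionVars false

/-! The number of automorphisms of the 2-core. -/

namespace Pool.Agent.U395.RC

open Finset Classical
open Pool.Agent.H234RC (Hypo NonIso Reconstructible)
open Pool.Agent.TH87.RVC (actF mem_actF FF FF_inv del relAut mem_iff_of_maps dS dS_eq_sum dS_eq
  dS_erase dS_card)
open Pool.Agent.TH87.RVE

variable {V : Type} [Fintype V]

/-- vertices of degree at least three in the core -/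
noncomputable def brn (G : SimpleGraph V) (C : Finset V) : Finset V :=
  C.filter (fun x => 3 ≤ dS G C x)

/-- branch vertices and their neighbours -/
noncomputable def brm (G : SimpleGraph V) (C : Finset V) : Finset V :=
  C.filter (fun x => x ∈ brn G C ∨ ∃ b ∈ brn G C, G.Adj b x)

theorem agree_all (G : SimpleGraph V) (C : Finset V) (hCc : (comps G C).card ≤ 1)
    (hC2 : ∀ x ∈ C, 2 ≤ dS G C x) (hne : (brn G C).Nonempty) (ρ ρ' : Equiv.Perm V)
    (hρC : ∀ x, ρ x ∈ C ↔ x ∈ C) (hρC' : ∀ x, ρ' x ∈ C ↔ x ∈ C)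
    (hρ : ∀ x ∈ C, ∀ y ∈ C, (G.Adj (ρ x) (ρ y) ↔ G.Adj x y))
    (hρ' : ∀ x ∈ C, ∀ y ∈ C, (G.Adj (ρ' x) (ρ' y) ↔ G.Adj x y))
    (hag : ∀ x ∈ brm G C, ρ x = ρ' x) : ∀ x ∈ C, ρ x = ρ' x := by
  have hBM : brn G C ⊆ brm G C := fun x hx =>
    mem_filter.mpr ⟨(mem_filter.mp hx).1, Or.inl hx⟩
  let S : Finset (Finset V) := univ.filter (fun W => brm G C ⊆ W ∧ W ⊆ C ∧
    (∀ x ∈ W, ρ x = ρ' x) ∧ ∀ x ∈ W, x ∉ brn G C → ∃ z ∈ W, G.Adj x z)
  have hS : S.Nonempty := by
    refine ⟨brm G C, mem_filter.mpr ⟨mem_univ _, subset_rfl, filter_subset _ _, hag, ?_⟩⟩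
    intro x hx hxB
    rcases (mem_filter.mp hx).2 with h | ⟨b, hb, hbx⟩
    · exact absurd h hxB
    · exact ⟨b, hBM hb, hbx.symm⟩
  obtain ⟨W, hWS, hWmax⟩ := exists_max_image S (fun W => W.card) hS
  obtain ⟨_, hMW, hWC, hWag, hWnb⟩ := mem_filter.mp hWS
  by_cases hW : W = C
  · rw [hW] at hWag
    exact hWag
  exfalso
  obtain ⟨b0, hb0⟩ := hne
  obtain ⟨y, hy, hyW, x, hx, hxy⟩ := conn_nb G C hCc W ⟨b0, hMW (hBM hb0)⟩ hWC hW
  have hxC := hWC hx
  have hxB : x ∉ brn G C := by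
    intro h
    exact hyW (hMW (mem_filter.mpr ⟨hy, Or.inr ⟨x, h, hxy⟩⟩))
  have hx2 : dS G C x = 2 := by
    have h1 := hC2 x hxC
    have h2 : ¬ 3 ≤ dS G C x := fun h => hxB (mem_filter.mpr ⟨hxC, h⟩)
    omega
  obtain ⟨z, hz, hxz⟩ := hWnb x hx hxB
  have hzC := hWC hz
  have hyz : z ≠ y := fun h => hyW (h ▸ hz)
  have hmap : C.map ρ.toEmbedding = C := by
    ext u
    rw [mem_map_equiv, ← hρC, Equiv.apply_symm_apply]
  have hdx : dS G C (ρ x) = 2 := by
    have := dS_map (G := G) (H := G) ρ C x hxC hρ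
    rw [hmap] at this
    rw [this, hx2]
  have hN : C.filter (fun u => G.Adj (ρ x) u) = {ρ z, ρ y} := by
    symm
    apply eq_of_subset_of_card_le
    · intro u hu
      rcases mem_insert.mp hu with rfl | hu
      · exact mem_filter.mpr ⟨(hρC z).mpr hzC, (hρ x hxC z hzC).mpr hxz⟩
      · rw [mem_singleton] at hu
        subst hu
        exact mem_filter.mpr ⟨(hρC y).mpr hy, (hρ x hxC y hy).mpr hxy⟩
    · unfold dS at hdx
      rw [hdx, card_pair (fun h => hyz (ρ.injective h))]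
  have hy' : ρ' y ∈ C.filter (fun u => G.Adj (ρ x) u) := by
    refine mem_filter.mpr ⟨(hρC' y).mpr hy, ?_⟩
    rw [hWag x hx]
    exact (hρ' x hxC y hy).mpr hxy
  rw [hN, mem_insert, mem_singleton] at hy'
  have hyy : ρ y = ρ' y := by
    rcases hy' with h | h
    · exfalso
      rw [hWag z hz] at h
      exact hyz (ρ'.injective h).symm
    · exact h.symm
  have hins : insert y W ∈ S := by
    refine mem_filter.mpr ⟨mem_univ _, hMW.trans (subset_insert y W), insert_subset hy hWC, ?_, ?_⟩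
    · intro u hu
      rcases mem_insert.mp hu with rfl | hu
      · exact hyy
      · exact hWag u hu
    · intro u hu huB
      rcases mem_insert.mp hu with rfl | hu
      · exact ⟨x, mem_insert_of_mem hx, hxy.symm⟩
      · obtain ⟨a, ha, hua⟩ := hWnb u hu huB
        exact ⟨a, mem_insert_of_mem ha, hua⟩
  have := hWmax _ hins
  rw [card_insert_of_notMem hyW] at this
  omega

theorem card_core_le (G : SimpleGraph V) (C : Finset V) (hCc : (comps G C).card ≤ 1)
    (hC2 : ∀ x ∈ C, 2 ≤ dS G C x) (k : ℕ) (hk : 1 ≤ k) (hK : kap G C = 2 * k) :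
    Nat.card (relAut G C Cᶜ) ≤ (8 * k) ^ (8 * k) := by
  set B := brn G C with hB
  set M := brm G C with hM
  have hsum : ∑ x ∈ B, ((dS G C x : ℤ) - 2) = 2 * k := by
    rw [← hK]
    unfold kap
    apply sum_subset (filter_subset _ _)
    intro x hx hxB
    have h1 := hC2 x hx
    have h2 : ¬ 3 ≤ dS G C x := fun h => hxB (mem_filter.mpr ⟨hx, h⟩)
    have : dS G C x = 2 := by omega
    rw [this]
    norm_num
  have hB3 : ∀ x ∈ B, (3 : ℤ) ≤ dS G C x := fun x hx => by exact_mod_cast (mem_filter.mp hx).2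
  have hBc : B.card ≤ 2 * k := by
    have h1 : ∑ x ∈ B, (1 : ℤ) ≤ ∑ x ∈ B, ((dS G C x : ℤ) - 2) := by
      apply sum_le_sum
      intro x hx
      have := hB3 x hx
      linarith
    rw [hsum, sum_const, nsmul_eq_mul, mul_one] at h1
    exact_mod_cast h1
  have hBd : ∑ x ∈ B, dS G C x ≤ 6 * k := by
    have h1 : ∑ x ∈ B, (dS G C x : ℤ) ≤ ∑ x ∈ B, 3 * ((dS G C x : ℤ) - 2) := by
      apply sum_le_sum
      intro x hx
      have := hB3 x hx
      linarith
    rw [← mul_sum, hsum] at h1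
    have h2 : ((∑ x ∈ B, dS G C x : ℕ) : ℤ) ≤ ((6 * k : ℕ) : ℤ) := by
      push_cast
      linarith
    exact_mod_cast h2
  have hBne : B.Nonempty := by
    rw [nonempty_iff_ne_empty]
    intro h
    rw [h, sum_empty] at hsum
    have : (k : ℤ) = 0 := by linarith
    have : k = 0 := by exact_mod_cast this
    omega
  have hMc : M.card ≤ 8 * k := by
    have h1 : M ⊆ B ∪ B.biUnion (fun b => C.filter (fun x => G.Adj b x)) := by
      intro x hx
      obtain ⟨hxC, h | ⟨b, hb, hbx⟩⟩ := mem_filter.mp hx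
      · exact mem_union_left _ h
      · exact mem_union_right _ (mem_biUnion.mpr ⟨b, hb, mem_filter.mpr ⟨hxC, hbx⟩⟩)
    have h2 := card_le_card h1
    have h3 := card_union_le B (B.biUnion (fun b => C.filter (fun x => G.Adj b x)))
    have h4 : (B.biUnion (fun b => C.filter (fun x => G.Adj b x))).card ≤ ∑ x ∈ B, dS G C x :=
      card_biUnion_le
    omega
  have hMne : M.Nonempty := by
    obtain ⟨b, hb⟩ := hBne
    exact ⟨b, mem_filter.mpr ⟨(mem_filter.mp hb).1, Or.inl hb⟩⟩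
  -- representatives
  have hex : ∀ α : relAut G C Cᶜ, ∃ ρ : Equiv.Perm V,
      (∀ x : {x // x ∈ C}, ρ x = (α : Equiv.Perm {x // x ∈ C}) x) ∧ (∀ x, ρ x ∈ C ↔ x ∈ C) ∧
      (∀ x ∈ C, ∀ y ∈ C, (G.Adj (ρ x) (ρ y) ↔ G.Adj x y)) := by
    rintro ⟨α, ρ, h1, h2, h3⟩
    refine ⟨ρ, h1, fun x => ?_, fun x hx y hy => h3 x y (fun h => (mem_compl.mp h) hx)
      (fun h => (mem_compl.mp h) hy)⟩
    have := h2 x
    rw [mem_compl, mem_compl, not_iff_not] at this
    exact this
  choose ρ hρ1 hρC hρ2 using hex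
  have hd : ∀ α x, x ∈ C → dS G C (ρ α x) = dS G C x := by
    intro α x hx
    have h1 := dS_map (G := G) (H := G) (ρ α) C x hx (hρ2 α)
    have hmap : C.map (ρ α).toEmbedding = C := by
      ext u
      rw [mem_map_equiv, ← hρC α, Equiv.apply_symm_apply]
    rwa [hmap] at h1
  have hBm : ∀ α x, x ∈ B → ρ α x ∈ B := by
    intro α x hx
    obtain ⟨h1, h2⟩ := mem_filter.mp hx
    exact mem_filter.mpr ⟨(hρC α x).mpr h1, by rw [hd α x h1]; exact h2⟩
  have hMm : ∀ α x, x ∈ M → ρ α x ∈ M := by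
    intro α x hx
    obtain ⟨h1, h2⟩ := mem_filter.mp hx
    refine mem_filter.mpr ⟨(hρC α x).mpr h1, ?_⟩
    rcases h2 with h | ⟨b, hb, hbx⟩
    · exact Or.inl (hBm α x h)
    · exact Or.inr ⟨ρ α b, hBm α b hb, (hρ2 α b (mem_filter.mp hb).1 x h1).mpr hbx⟩
  have hinj : Function.Injective (fun α : relAut G C Cᶜ =>
      (fun x : {x // x ∈ M} => (⟨ρ α x, hMm α x x.2⟩ : {x // x ∈ M}))) := by
    intro α β h
    have h1 : ∀ x ∈ M, ρ α x = ρ β x := by
      intro x hx
      have := congrFun h ⟨x, hx⟩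
      exact congrArg Subtype.val this
    have h2 := agree_all G C hCc hC2 hBne (ρ α) (ρ β) (hρC α) (hρC β) (hρ2 α) (hρ2 β) h1
    apply Subtype.ext
    ext ⟨x, hx⟩
    rw [← hρ1, ← hρ1]
    exact h2 x hx
  have h1 := Nat.card_le_card_of_injective _ hinj
  have h2 : Nat.card ({x // x ∈ M} → {x // x ∈ M}) = M.card ^ M.card := by
    rw [Nat.card_eq_fintype_card, Fintype.card_fun, Fintype.card_coe]
  rw [h2] at h1
  have hMpos := card_pos.mpr hMne
  calc Nat.card (relAut G C Cᶜ) ≤ M.card ^ M.card := h1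
    _ ≤ (8 * k) ^ M.card := Nat.pow_le_pow_left hMc _
    _ ≤ (8 * k) ^ (8 * k) := Nat.pow_le_pow_right (by omega) hMc

/-- the least full set is the 2-core -/
theorem core_eq (G : SimpleGraph V) (hG : (comps G univ).card ≤ 1)
    (C : Finset V) (hC : Full G C) (hC2 : ∀ x ∈ C, 2 ≤ dS G C x) (P : Finset V)
    (hP : ∀ x ∈ P, 2 ≤ dS G P x) : P ⊆ C := by
  by_contra hcon
  have hR : (P \ C).Nonempty := sdiff_nonempty.mpr hcon
  have h1 := full_neg G hG C hC _ (P \ C) hR disjoint_sdiff rfl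
  have h2 := full_disj G hG C hC (P \ C) disjoint_sdiff
  have h3 : (0 : ℤ) ≤ ∑ x ∈ P \ C, (((dS G (P \ C) x : ℤ) - 2) + dS G C x) := by
    apply sum_nonneg
    intro x hx
    have h4 := hP x (mem_sdiff.mp hx).1
    have h5 := dS_union G (P ∩ C) (P \ C) (by
      rw [Finset.disjoint_left]
      intro y hy hy'
      exact (mem_sdiff.mp hy').2 (mem_inter.mp hy).2) x
    have e : P ∩ C ∪ P \ C = P := by
      ext y
      simp only [mem_union, mem_inter, mem_sdiff]
      tauto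
    rw [e] at h5
    have h6 := dS_mono G (inter_subset_right : P ∩ C ⊆ C) x
    have h7 : (2 : ℤ) ≤ dS G (P \ C) x + dS G C x := by
      have : 2 ≤ dS G (P \ C) x + dS G C x := by omega
      exact_mod_cast this
    linarith
  rw [sum_add_distrib] at h3
  unfold kap at h1 h2
  have h8 : (0 : ℤ) ≤ ∑ x ∈ P \ C, (dS G C x : ℤ) := sum_nonneg (fun _ _ => by positivity)
  linarith

end Pool.Agent.U395.RC
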