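import Pool.Agent.U395.RC.Tran

set_option autoImplicit false
set_option linter.unusedSectionVars false

/-! A vertex in the middle of a long path whose inner vertices have degree two. -/

namespace Pool.Agent.U395.RC

open Finset Classical
open Pool.Agent.H234RC (Hypo NonIso Reconstructible)
open Pool.Agent.TH87.RVC (actF mem_actF FF FF_inv del relAut mem_iff_of_maps dS dS_eq_sum dS_eq
  dS_erase dS_card)
open Pool.Agent.TH87.RVE

variable {V : Type} [Fintype V]

/-- if the card isomorphism `π v` preserves the neighbourhood of `v`, the graphs are isomorphic -/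
theorem extend {G H : SimpleGraph V} {π : V → Equiv.Perm V} (hH : Hypo G H π) (v : V)
    (h : ∀ x, x ≠ v → (H.Adj v (π v x) ↔ G.Adj v x)) :
    ∃ σ : Equiv.Perm V, ∀ x y, H.Adj (σ x) (σ y) ↔ G.Adj x y := by
  refine ⟨π v, fun x y => ?_⟩
  by_cases hx : x = v
  · by_cases hy : y = v
    · rw [hx, hy]
      simp
    · rw [hx, hH.fix, h y hy]
  · by_cases hy : y = v
    · rw [hy, hH.fix, H.adj_comm, G.adj_comm, h x hx]
    · exact hH.adj v x y hx hy

theorem bare {G H : SimpleGraph V} {π : V → Equiv.Perm V} (hH : Hypo G H π)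
    (hn : 3 ≤ Fintype.card V) (v x1 x2 : V) (hx12 : x1 ≠ x2)
    (hadj : ∀ y, G.Adj v y ↔ y = x1 ∨ y = x2) (hd1 : dS G univ x1 = 2) (hd2 : dS G univ x2 = 2)
    (L : ℕ) (hS : ∀ x, x = x1 ∨ x = x2 → ∃ S : Finset V, v ∉ S ∧ x ∈ S ∧ (comps G S).card ≤ 1 ∧
      (∀ y ∈ S, dS G univ y = 2) ∧ L ≤ S.card)
    (hP : ∀ S : Finset V, (comps H S).card ≤ 1 → (∀ y ∈ S, dS H univ y ≤ 2) →
      (∃ w ∈ S, dS H univ w = 1) → S.card < L) :
    ∃ σ : Equiv.Perm V, ∀ x y, H.Adj (σ x) (σ y) ↔ G.Adj x y := by
  have hdeg := deg_H hH hn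
  -- neighbourhoods
  have hNG : univ.filter (fun y => G.Adj v y) = {x1, x2} := by
    ext y
    simp [hadj]
  have hdv : dS G univ v = 2 := by
    unfold dS
    rw [hNG, card_pair hx12]
  have hvx1 : G.Adj v x1 := (hadj x1).mpr (Or.inl rfl)
  have hvx2 : G.Adj v x2 := (hadj x2).mpr (Or.inr rfl)
  set N := univ.filter (fun y => H.Adj v y) with hN
  have hNc : N.card = 2 := by
    have := hdeg v
    rw [hdv] at this
    exact this.symm
  -- leaves
  set lf := univ.filter (fun y => dS G univ y = 1) with hlf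
  have hlf' : ∀ y, y ∈ lf ↔ dS H univ y = 1 := fun y => by
    rw [hlf, mem_filter, hdeg y]
    simp
  have hvlf : v ∉ lf := by
    rw [hlf, mem_filter]
    rintro ⟨_, h⟩
    omega
  set T := univ.filter (fun y => y ≠ v ∧ dS G (univ.erase v) y = 1) with hT
  set T' := univ.filter (fun y => y ≠ v ∧ dS H (univ.erase v) y = 1) with hT'
  have hTc : T'.card = T.card := by
    symm
    apply card_bij (fun y _ => π v y)
    · intro y hy
      obtain ⟨_, h1, h2⟩ := mem_filter.mp hy
      rw [hT', mem_filter]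
      exact ⟨mem_univ _, (pi_ne hH v y).mpr h1, by rw [← dS_card hH y v h1]; exact h2⟩
    · intro x _ y _ h
      exact (π v).injective h
    · intro y hy
      obtain ⟨_, h1, h2⟩ := mem_filter.mp hy
      obtain ⟨x, rfl⟩ := (π v).surjective y
      have h3 := (pi_ne hH v x).mp h1
      refine ⟨x, ?_, rfl⟩
      rw [hT, mem_filter]
      exact ⟨mem_univ _, h3, by rw [dS_card hH x v h3]; exact h2⟩
  have hTe : T = lf ∪ {x1, x2} := by
    ext y
    rw [hT, hlf, mem_union, mem_filter, mem_filter, mem_insert, mem_singleton]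
    have h1 := dS_erase G y v
    have h2 : (G.Adj y v) ↔ (y = x1 ∨ y = x2) := by rw [G.adj_comm]; exact hadj y
    simp only [mem_univ, true_and]
    constructor
    · rintro ⟨h3, h4⟩
      by_cases h5 : G.Adj y v
      · exact Or.inr (h2.mp h5)
      · rw [if_neg h5] at h1
        exact Or.inl (by omega)
    · rintro (h3 | h3)
      · have h5 : ¬ G.Adj y v := by
          intro h5
          rcases h2.mp h5 with rfl | rfl <;> omega
        rw [if_neg h5] at h1
        refine ⟨?_, by omega⟩
        rintro rfl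
        omega
      · have h5 := h2.mpr h3
        rw [if_pos h5] at h1
        refine ⟨G.ne_of_adj h5, ?_⟩
        rcases h3 with rfl | rfl <;> omega
  have hTc2 : T.card = lf.card + 2 := by
    rw [hTe, card_union_of_disjoint, card_pair hx12]
    rw [Finset.disjoint_right]
    intro y hy
    rw [hlf, mem_filter]
    rintro ⟨_, h⟩
    rcases mem_insert.mp hy with rfl | hy
    · omega
    · rw [mem_singleton] at hy
      subst hy
      omega
  have hT's : T' ⊆ lf ∪ N := by
    intro y hy
    obtain ⟨_, h1, h2⟩ := mem_filter.mp hy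
    rw [mem_union, hlf', hN, mem_filter]
    by_cases h3 : H.Adj v y
    · exact Or.inr ⟨mem_univ _, h3⟩
    · left
      have h4 := dS_erase H y v
      rw [if_neg (fun h => h3 h.symm)] at h4
      omega
  have hT'e : T' = lf ∪ N := by
    apply eq_of_subset_of_card_le hT's
    have := card_union_le lf N
    omega
  have hN2 : ∀ y ∈ N, dS H univ y = 2 := by
    intro y hy
    have h1 : y ∈ T' := by rw [hT'e]; exact mem_union_right _ hy
    obtain ⟨_, _, h2⟩ := mem_filter.mp h1
    have h3 := dS_erase H y v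
    have h4 : H.Adj v y := (mem_filter.mp hy).2
    rw [if_pos h4.symm] at h3
    omega
  -- the images of the neighbours
  have hmain : ∀ x, x = x1 ∨ x = x2 → π v x ∈ N := by
    intro x hx
    have hxT : x ∈ T := by
      rw [hTe, mem_union, mem_insert, mem_singleton]
      exact Or.inr hx
    have hxv : x ≠ v := (mem_filter.mp hxT).2.1
    have hxT' : π v x ∈ T' := by
      rw [hT', mem_filter]
      refine ⟨mem_univ _, (pi_ne hH v x).mpr hxv, ?_⟩
      rw [← dS_card hH x v hxv]
      exact (mem_filter.mp hxT).2.2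
    rw [hT'e, mem_union] at hxT'
    rcases hxT' with h | h
    · exfalso
      obtain ⟨S, hvS, hxS, hcS, hdS, hLS⟩ := hS x hx
      have hne : ∀ z ∈ S, z ≠ v := fun z hz h => hvS (h ▸ hz)
      have h1 := hP (S.map (π v).toEmbedding) (by
          rw [comps_map G H S (S.map (π v).toEmbedding) (π v) (fun z => by
            rw [mem_map_equiv, Equiv.symm_apply_apply])
            (fun a b ha hb => hH.adj v a b (hne a ha) (hne b hb))]
          exact card_image_le.trans hcS) (by
          intro y hy
          rw [mem_map] at hy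
          obtain ⟨z, hz, rfl⟩ := hy
          simp only [Equiv.coe_toEmbedding]
          by_cases h5 : H.Adj v (π v z)
          · exact (hN2 _ (mem_filter.mpr ⟨mem_univ _, h5⟩)).le
          · have h3 := dS_erase H (π v z) v
            rw [if_neg (fun h => h5 h.symm), ← dS_card hH z v (hne z hz)] at h3
            have h4 := dS_mono G (subset_univ (univ.erase v)) z
            rw [hdS z hz] at h4
            omega)
        ⟨π v x, by rw [mem_map_equiv, Equiv.symm_apply_apply]; exact hxS, (hlf' _).mp h⟩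
      rw [card_map] at h1
      omega
    · exact h
  have hNe : N = {π v x1, π v x2} := by
    symm
    apply eq_of_subset_of_card_le
    · intro y hy
      rcases mem_insert.mp hy with rfl | hy
      · exact hmain x1 (Or.inl rfl)
      · rw [mem_singleton] at hy
        subst hy
        exact hmain x2 (Or.inr rfl)
    · rw [hNc, card_pair (fun h => hx12 ((π v).injective h))]
  apply extend hH v
  intro x hx
  have h1 : H.Adj v (π v x) ↔ π v x ∈ N := by rw [hN, mem_filter]; simp
  rw [h1, hNe, mem_insert, mem_singleton, (π v).apply_eq_iff_eq, (π v).apply_eq_iff_eq, hadj]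

/-- growing connected sets -/
theorem grow (G : SimpleGraph V) (D : Finset V) (hD : (comps G D).card ≤ 1) (e : V) (he : e ∈ D) :
    ∀ k, 1 ≤ k → k ≤ D.card → ∃ P ⊆ D, e ∈ P ∧ (comps G P).card ≤ 1 ∧ P.card = k := by
  intro k hk
  induction k, hk using Nat.le_induction with
  | base =>
    intro _
    exact ⟨{e}, singleton_subset_iff.mpr he, mem_singleton_self e, comps_single_le G e,
      card_singleton e⟩
  | succ k hk ih =>
    intro hkD
    obtain ⟨P, hPD, heP, hPc, hPk⟩ := ih (by omega)
    obtain ⟨y, hy, hyP, x, hx, hxy⟩ := conn_nb G D hD P ⟨e, heP⟩ hPD (by rintro rfl; omega)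
    exact ⟨insert y P, insert_subset hy hPD, mem_insert_of_mem heP,
      conn_insert G P hPc x y hx hxy, by rw [card_insert_of_notMem hyP, hPk]⟩

theorem mid (G : SimpleGraph V) (hG : (comps G univ).card ≤ 1) (D : Finset V)
    (hD : (comps G D).card ≤ 1) (hDu : D ≠ univ) (hdeg : ∀ x ∈ D, dS G univ x = 2) (L : ℕ)
    (hL : 1 ≤ L) (hLD : 2 * L + 1 ≤ D.card) :
    ∃ v x1 x2 : V, x1 ≠ x2 ∧ (∀ y, G.Adj v y ↔ y = x1 ∨ y = x2) ∧ dS G univ x1 = 2 ∧
      dS G univ x2 = 2 ∧ ∀ x, x = x1 ∨ x = x2 → ∃ S : Finset V, v ∉ S ∧ x ∈ S ∧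
        (comps G S).card ≤ 1 ∧ (∀ y ∈ S, dS G univ y = 2) ∧ L ≤ S.card := by
  have hDne : D.Nonempty := card_pos.mp (by omega)
  obtain ⟨o, ho, e, he, heo⟩ := exists_nb G hG D hDne hDu
  obtain ⟨P, hPD, heP, hPc, hPk⟩ := grow G D hD e he L hL (by omega)
  -- the edges leaving a connected subset
  have hout : ∀ P ⊆ D, e ∈ P → (comps G P).card ≤ 1 → ∑ y ∈ D \ P, dS G P y ≤ 1 := by
    intro P hPD heP hPc
    have h1 := kap_conn G P hPc ⟨e, heP⟩
    have h2 : ∀ x ∈ P, dS G univ x = dS G P x + dS G (D \ P) x + dS G Dᶜ x := by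
      intro x _
      have e1 : (univ : Finset V) = (P ∪ (D \ P)) ∪ Dᶜ := by
        rw [union_sdiff_of_subset hPD, union_compl]
      rw [e1, dS_union G _ _ (by
        rw [union_sdiff_of_subset hPD]; exact disjoint_compl_right), dS_union G _ _ disjoint_sdiff]
    have h3 : ∑ x ∈ P, (dS G P x + dS G (D \ P) x + dS G Dᶜ x) = 2 * P.card := by
      rw [← sum_congr rfl h2, sum_congr rfl (fun x hx => hdeg x (hPD hx)), sum_const, smul_eq_mul]
      ring
    rw [sum_add_distrib, sum_add_distrib, dS_swap G P (D \ P)] at h3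
    have h4 : 1 ≤ ∑ x ∈ P, dS G Dᶜ x := by
      have h5 := dS_pos G Dᶜ e o (mem_compl.mpr ho) heo
      exact h5.trans (single_le_sum (f := fun x => dS G Dᶜ x) (fun _ _ => Nat.zero_le _) heP)
    have h6 : (2 * P.card : ℤ) ≤ ∑ x ∈ P, (dS G P x : ℤ) + 2 := by
      unfold kap at h1
      rw [sum_sub_distrib, sum_const, nsmul_eq_mul] at h1
      linarith
    have h7 : 2 * P.card ≤ ∑ x ∈ P, dS G P x + 2 := by exact_mod_cast h6
    omega
  have two : ∀ P ⊆ D, e ∈ P → (comps G P).card ≤ 1 → ∀ a b, a ∈ D → b ∈ D → a ∉ P → b ∉ P →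
      1 ≤ dS G P a → 1 ≤ dS G P b → a = b := by
    intro P hPD heP hPc a b ha hb haP hbP h1 h2
    by_contra hab
    have h3 := hout P hPD heP hPc
    have h4 : ∑ y ∈ ({a, b} : Finset V), dS G P y ≤ ∑ y ∈ D \ P, dS G P y := by
      apply sum_le_sum_of_subset
      intro y hy
      rcases mem_insert.mp hy with rfl | hy
      · exact mem_sdiff.mpr ⟨ha, haP⟩
      · rw [mem_singleton] at hy
        subst hy
        exact mem_sdiff.mpr ⟨hb, hbP⟩
    rw [sum_pair hab] at h4
    omega
  obtain ⟨v, hv, hvP, p, hp, hpv⟩ := conn_nb G D hD P ⟨e, heP⟩ hPD (by rintro rfl; omega)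
  set P' := insert v P with hP'
  have hP'D : P' ⊆ D := insert_subset hv hPD
  have hP'c : (comps G P').card ≤ 1 := conn_insert G P hPc p v hp hpv
  have hP'k : P'.card = L + 1 := by rw [hP', card_insert_of_notMem hvP, hPk]
  obtain ⟨r, hr, hrP', x, hx, hxr⟩ := conn_nb G D hD P' ⟨v, mem_insert_self v P⟩ hP'D
    (by intro h; rw [h] at hP'k; omega)
  have hxv : x = v := by
    rcases mem_insert.mp hx with h | h
    · exact h
    · exfalso
      have hrP : r ∉ P := fun h => hrP' (mem_insert_of_mem h)
      have := two P hPD heP hPc v r hv hr hvP hrP (dS_pos G P v p hp hpv.symm)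
        (dS_pos G P r x h hxr.symm)
      apply hrP'
      rw [← this]
      exact mem_insert_self v P
  subst hxv
  have hpr : p ≠ r := by
    rintro rfl
    exact hrP' (mem_insert_of_mem hp)
  refine ⟨x, p, r, hpr, ?_, hdeg p (hPD hp), hdeg r hr, ?_⟩
  · intro y
    have h1 : ({p, r} : Finset V) = univ.filter (fun y => G.Adj x y) := by
      apply eq_of_subset_of_card_le
      · intro z hz
        rw [mem_filter]
        rcases mem_insert.mp hz with rfl | hz
        · exact ⟨mem_univ _, hpv.symm⟩
        · rw [mem_singleton] at hz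
          subst hz
          exact ⟨mem_univ _, hxr⟩
      · have := hdeg x hv
        unfold dS at this
        rw [this, card_pair hpr]
    have h2 : y ∈ ({p, r} : Finset V) ↔ G.Adj x y := by rw [h1, mem_filter]; simp
    rw [← h2, mem_insert, mem_singleton]
  · rintro y (rfl | rfl)
    · exact ⟨P, hvP, hp, hPc, fun z hz => hdeg z (hPD hz), hPk.ge⟩
    · refine ⟨D \ P', fun h => (mem_sdiff.mp h).2 (mem_insert_self x P), mem_sdiff.mpr ⟨hr, hrP'⟩,
        ?_, fun z hz => hdeg z (mem_sdiff.mp hz).1, ?_⟩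
      · -- every component of the rest is attached to `P'`
        have hat : ∀ E ∈ comps G (D \ P'), ∃ z ∈ E, 1 ≤ dS G P' z := by
          intro E hE
          have hEs := comps_sub G _ E hE
          obtain ⟨z0, hz0⟩ := comps_nonempty G _ E hE
          have hED : E ≠ D := by
            intro h
            have h1 := hEs (by rw [h]; exact hv : x ∈ E)
            exact (mem_sdiff.mp h1).2 (mem_insert_self x P)
          obtain ⟨u, hu, huE, z, hz, hzu⟩ := conn_nb G D hD E ⟨z0, hz0⟩
            (hEs.trans sdiff_subset) hED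
          refine ⟨z, hz, dS_pos G P' z u ?_ hzu⟩
          by_contra huP
          exact huE (comp_closed G _ E hE z u hz (mem_sdiff.mpr ⟨hu, huP⟩) hzu)
        rw [card_le_one]
        intro E hE F hF
        obtain ⟨a, ha, ha2⟩ := hat E hE
        obtain ⟨b, hb, hb2⟩ := hat F hF
        have ha3 := mem_sdiff.mp (comps_sub G _ E hE ha)
        have hb3 := mem_sdiff.mp (comps_sub G _ F hF hb)
        have hab := two P' hP'D (mem_insert_of_mem heP) hP'c a b ha3.1 hb3.1 ha3.2 hb3.2 ha2 hb2
        subst hab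
        rw [← comp_of_mem G _ E hE a ha, ← comp_of_mem G _ F hF a hb]
      · rw [card_sdiff_of_subset hP'D, hP'k]
        omega

end Pool.Agent.U395.RC
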