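import Pool.Agent.U395.RC.Abs2

set_option autoImplicit false
set_option linter.unusedSectionVars false

/-! If the components outside `A` are attached at single vertices, then their orders form an
initial segment of the integers, or the graph is reconstructible. -/

namespace Pool.Agent.U395.RC

open Finset Classical
open Pool.Agent.H234RC (Hypo NonIso Reconstructible)
open Pool.Agent.TH87.RVC (actF mem_actF FF FF_inv del relAut mem_iff_of_maps)
open Pool.Agent.TH87.RVE

variable {V : Type} [Fintype V]

/-- the vertex `v` of the connected set `D` is chosen such that the rest is connected and still has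
neighbours in `A` if `D` has -/
theorem choose_v (G : SimpleGraph V) (A D : Finset V) (hD : (comps G D).card ≤ 1)
    (h2 : 2 ≤ D.card) : ∃ v ∈ D, (comps G (D.erase v)).card = 1 ∧
      ((∃ x ∈ D, (NN G A x).Nonempty) → ∃ x ∈ D.erase v, (NN G A x).Nonempty) := by
  have hne : ∀ v ∈ D, (comps G (D.erase v)).card ≤ 1 → (comps G (D.erase v)).card = 1 := by
    intro v hv h
    have : (D.erase v).Nonempty := by
      rw [← card_pos, card_erase_of_mem hv]; omega
    obtain ⟨x, hx⟩ := this
    have := card_pos.mpr ⟨_, comp_mem_comps G (D.erase v) x hx⟩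
    omega
  by_cases h : ∃ x ∈ D, (NN G A x).Nonempty
  · obtain ⟨x, hx, hxn⟩ := h
    obtain ⟨y, hy, hyx, hy2⟩ := noncut_ne G D hD x hx h2
    exact ⟨y, hy, hne y hy hy2, fun _ => ⟨x, mem_erase.mpr ⟨fun e => hyx e.symm, hx⟩, hxn⟩⟩
  · obtain ⟨r, hr⟩ : D.Nonempty := card_pos.mp (by omega)
    obtain ⟨y, hy, _, hy2⟩ := noncut_ne G D hD r hr h2
    exact ⟨y, hy, hne y hy hy2, fun h' => absurd h' h⟩

/-- weights of a connected set -/
theorem wt_one {B : Type} [Fintype B] (K : SimpleGraph V) (N : V → Finset B) (D : Finset V)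
    (hD : (comps K D).card = 1) (y : Typ V B) :
    wt K N D y = if y = mk (D, K, N) then 1 else 0 := by
  have hne : D.Nonempty := by
    by_contra h
    rw [not_nonempty_iff_eq_empty] at h
    rw [h] at hD
    unfold comps at hD
    simp at hD
  obtain ⟨x, hx⟩ := hne
  have h1 : comps K D = {D} := by
    obtain ⟨E, hE⟩ := card_eq_one.mp hD
    rw [hE]
    have := comp_mem_comps K D x hx
    rw [conn_eq K D hD.le x hx, hE, mem_singleton] at this
    rw [this]
  unfold wt
  rw [h1, filter_singleton]
  by_cases h : y = mk (D, K, N)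
  · rw [if_pos h, if_pos h.symm, card_singleton]
  · rw [if_neg h, if_neg (fun e => h e.symm), card_empty]

theorem closure {G H : SimpleGraph V} {π : V → Equiv.Perm V} (hH : Hypo G H π)
    (hN : NonIso G H) (A L : Finset V) (hAL : ∀ v, v ∈ L ↔ v ∉ A)
    (hmapsA : ∀ v ∈ L, ∀ u, π v u ∈ A ↔ u ∈ A) (h3 : 3 ≤ L.card) (h2 : 2 ≤ (comps G L).card)
    (hatt : ∀ D ∈ comps G L, ∃ c, ∀ x ∈ D, ∀ a : {x // x ∈ A}, a ∈ NN G A x → a = c)
    (D : Finset V) (hD : D ∈ comps G L) (hD2 : 2 ≤ D.card) :
    ∃ E ∈ comps G L, E.card + 1 = D.card := by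
  obtain ⟨i0, hi0⟩ : L.Nonempty := card_pos.mp (by omega)
  obtain ⟨N', hdeck, hiso⟩ := frame hH A L hAL hmapsA i0 hi0
  obtain ⟨hcc, hk⟩ := agree A L N' hdeck h2 h3
  set w := wt G (NN G A) L with hw
  set w' := wt H N' L with hw'
  set φ := ph G A L with hφ
  have hφ' : ∀ (g : relAut G A L) y, φ g y = actT V {x // x ∈ A} g y := fun _ _ => rfl
  have hsz : ∀ (g : relAut G A L) y, sz (φ g y) = sz y := fun g y => sz_actT _ _
  have hinv : ∀ f : Typ V {x // x ∈ A} → ℕ, (∀ (g : relAut G A L) x, f (φ g x) = f x) →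
      ∑ x, f x * w x = ∑ x, f x * w' x :=
    fun f hf => inv_sum φ w w' 2 le_rfl (fun c hc => hk c (by omega)) f hf
  have hDc : (comps G D).card ≤ 1 := by rw [comps_comp G L D hD, card_singleton]
  obtain ⟨v, hv, hv1, hvatt⟩ := choose_v G A D hDc hD2
  have hvL := comps_sub G L D hD hv
  obtain ⟨g, hg⟩ := hdeck v hvL
  set D' := comp H L v with hD'
  have hD'c : D' ∈ comps H L := comp_mem_comps H L v hvL
  have hvD' : v ∈ D' := comp_self H L v hvL
  set t := mk (D, G, NN G A) with ht
  set t' := mk (D', H, N') with ht'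
  set u := mk (D.erase v, G, NN G A) with hu
  -- the number of components of `D'` minus `v`
  have hc1 : (comps H (D'.erase v)).card = 1 := by
    have e1 := card_deck A L N' hdeck v hvL
    have e2 := comps_erase H L D' hD'c v hvD'
    have e3 := comps_erase G L D hD v hv
    have e4 := comps_eq_union H L D' hD'c
    have e5 := comps_eq_union G L D hD
    have d1 : ∀ (K : SimpleGraph V) (E : Finset V), v ∈ E →
        Disjoint (comps K (E.erase v)) (comps K (L \ E)) := by
      intro K E hE
      apply comps_disjoint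
      rw [Finset.disjoint_left]
      intro z hz hz'
      exact (mem_sdiff.mp hz').2 (mem_erase.mp hz).2
    have d2 : ∀ (K : SimpleGraph V) (E : Finset V), v ∈ E →
        Disjoint ({E} : Finset (Finset V)) (comps K (L \ E)) := by
      intro K E hE
      rw [Finset.disjoint_singleton_left]
      intro h
      exact (mem_sdiff.mp (comps_sub K _ E h hE)).2 hE
    have f1 := congrArg card e2
    have f2 := congrArg card e3
    have f3 := congrArg card e4
    have f4 := congrArg card e5
    rw [card_union_of_disjoint (d1 H D' hvD')] at f1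
    rw [card_union_of_disjoint (d1 G D hv)] at f2
    rw [card_union_of_disjoint (d2 H D' hvD'), card_singleton] at f3
    rw [card_union_of_disjoint (d2 G D hv), card_singleton] at f4
    omega
  set u' := mk (D'.erase v, H, N') with hu'
  have hrel : ∀ y, del w' t' (φ g y) + (if φ g y = u' then 1 else 0) =
      del w t y + (if y = u then 1 else 0) := by
    intro y
    rw [← wt_one H N' (D'.erase v) hc1, ← wt_one G (NN G A) (D.erase v) hv1,
      ← wt_erase' H N' L D' hD'c v hvD', ← wt_erase' G (NN G A) L D hD v hv]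
    exact hg y
  have hwt' : 1 ≤ w' t' := by
    rw [hw', wt_comp H N' L D' hD'c, if_pos rfl]; omega
  have hwt : 1 ≤ w t := by
    rw [hw, wt_comp G (NN G A) L D hD, if_pos rfl]; omega
  have hdel : ∀ (f : Typ V {x // x ∈ A} → ℕ) x, 1 ≤ f x → ∀ y,
      del f x y + (if y = x then 1 else 0) = f y := by
    intro f x hx y
    unfold del
    by_cases h : y = x
    · rw [if_pos h, if_pos h, h]; omega
    · rw [if_neg h, if_neg h]; rfl
  have hrel2 : ∀ y, w' (φ g y) + (if φ g y = u' then 1 else 0) + (if y = t then 1 else 0) =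
      w y + (if y = u then 1 else 0) + (if φ g y = t' then 1 else 0) := by
    intro y
    have a1 := hrel y
    have a2 := hdel w' t' hwt' (φ g y)
    have a3 := hdel w t hwt y
    omega
  have hszt : sz t = D.card := sz_mk _
  have hszu : sz u = D.card - 1 := by
    rw [hu, sz_mk]
    exact card_erase_of_mem hv
  -- invariant functions
  have hbal : ∀ f : Typ V {x // x ∈ A} → ℕ, (∀ (g : relAut G A L) x, f (φ g x) = f x) →
      f u' + f t = f u + f t' := by
    intro f hf
    have b1 := hinv f hf
    have b2 : ∑ y, f y * w' y = ∑ y, f y * w' (φ g y) := by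
      rw [← Equiv.sum_comp (φ g)]
      exact sum_congr rfl (fun y _ => by rw [hf])
    have b3 : ∑ y, f y * (w' (φ g y) + (if φ g y = u' then 1 else 0) + (if y = t then 1 else 0)) =
        ∑ y, f y * (w y + (if y = u then 1 else 0) + (if φ g y = t' then 1 else 0)) :=
      sum_congr rfl (fun y _ => by rw [hrel2])
    have c1 : ∀ z, ∑ y, f y * (if φ g y = z then 1 else 0) = f z := by
      intro z
      rw [← Equiv.sum_comp (φ g).symm]
      simp only [Equiv.apply_symm_apply, mul_ite, mul_one, mul_zero]
      rw [sum_ite_eq' univ z, if_pos (mem_univ _)]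
      have := hf g ((φ g).symm z)
      rw [Equiv.apply_symm_apply] at this
      exact this.symm
    have c2 : ∀ z, ∑ y, f y * (if y = z then 1 else 0) = f z := by
      intro z
      simp only [mul_ite, mul_one, mul_zero]
      rw [sum_ite_eq' univ z, if_pos (mem_univ _)]
    simp only [mul_add, sum_add_distrib] at b3
    rw [c1, c1, c2, c2, ← b2] at b3
    omega
  -- orbits
  have horb : ∀ z : Typ V {x // x ∈ A}, ∀ (γ : relAut G A L) x,
      (if ∃ δ : relAut G A L, φ δ z = φ γ x then 1 else 0 : ℕ) =
        if ∃ δ : relAut G A L, φ δ z = x then 1 else 0 := by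
    intro z γ x
    have : (∃ δ : relAut G A L, φ δ z = φ γ x) ↔ ∃ δ : relAut G A L, φ δ z = x := by
      constructor
      · rintro ⟨δ, h⟩
        refine ⟨γ⁻¹ * δ, ?_⟩
        rw [map_mul, Equiv.Perm.mul_apply, h, map_inv]
        exact (φ γ).symm_apply_apply x
      · rintro ⟨δ, h⟩
        refine ⟨γ * δ, ?_⟩
        rw [map_mul, Equiv.Perm.mul_apply, h]
    simp only [this]
  have hself : ∀ z : Typ V {x // x ∈ A}, ∃ δ : relAut G A L, φ δ z = z :=
    fun z => ⟨1, by rw [map_one]; rfl⟩
  have hszo : ∀ z z' : Typ V {x // x ∈ A}, (∃ δ : relAut G A L, φ δ z = z') → sz z = sz z' := by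
    rintro z z' ⟨δ, rfl⟩
    exact (hsz δ z).symm
  have hDpos : 0 < D.card := by omega
  have ht1 : ∃ δ : relAut G A L, φ δ t = t' := by
    have b := hbal (fun x => if ∃ δ : relAut G A L, φ δ t = x then 1 else 0) (horb t)
    rw [if_pos (hself t), if_neg (show ¬ ∃ δ : relAut G A L, φ δ t = u from fun h => by
      have := hszo _ _ h
      omega)] at b
    by_contra hcon
    rw [if_neg hcon] at b
    omega
  have hu1 : ∃ δ : relAut G A L, φ δ u = u' := by
    have b := hbal (fun x => if ∃ δ : relAut G A L, φ δ u = x then 1 else 0) (horb u)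
    rw [if_pos (hself u), if_neg (show ¬ ∃ δ : relAut G A L, φ δ u = t from fun h => by
      have := hszo _ _ h
      omega)] at b
    by_contra hcon
    rw [if_neg hcon] at b
    omega
  by_contra hno
  push Not at hno
  have hw0 : ∀ y, sz y + 1 = D.card → w y = 0 := by
    intro y hy
    by_contra hne
    obtain ⟨E, hE, rfl⟩ := wt_pos G (NN G A) L y hne
    rw [sz_mk] at hy
    exact hno E hE hy
  -- the pieces after identification
  have hszu' : sz u' = sz u := (hszo _ _ hu1).symm
  have hszt' : sz t' = sz t := (hszo _ _ ht1).symm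
  have hu2 : φ g u = u' := by
    have c := hrel2 ((φ g).symm u')
    rw [Equiv.apply_symm_apply, if_pos rfl] at c
    have s1 : sz ((φ g).symm u') = sz u' := by
      have := hsz g ((φ g).symm u')
      rw [Equiv.apply_symm_apply] at this
      exact this.symm
    rw [hw0 _ (by omega), if_neg (show ¬ u' = t' from fun h => by
      have := congrArg sz h
      omega)] at c
    by_contra hcon
    rw [if_neg (show ¬ (φ g).symm u' = u from fun h => hcon (by rw [← h, Equiv.apply_symm_apply]))] at c
    omega
  have hrelu : RelA (g : Equiv.Perm {x // x ∈ A}) (D.erase v, G, NN G A) (D'.erase v, H, N') :=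
    (actT_mk _ _ _).mp hu2
  obtain ⟨δ, hδ⟩ := ht1
  have hrelt : RelA (δ : Equiv.Perm {x // x ∈ A}) (D, G, NN G A) (D', H, N') :=
    (actT_mk _ _ _).mp hδ
  obtain ⟨σ, hσ1, hσ2, hσ3⟩ := hrelt
  obtain ⟨τ, hτ1, hτ2, hτ3⟩ := hrelu
  simp only at hσ1 hσ2 hσ3 hτ1 hτ2 hτ3
  obtain ⟨c, hc⟩ := hatt D hD
  -- `g` and `δ` agree on the attachment
  have hgt : φ g t = t' := by
    rw [hφ']
    apply (actT_mk _ _ _).mpr
    refine ⟨σ, hσ1, hσ2, fun x hx => ?_⟩
    simp only
    rw [hσ3 x hx]
    by_cases hemp : ∃ x ∈ D, (NN G A x).Nonempty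
    · obtain ⟨z, hz, hzn⟩ := hvatt hemp
      have hzD := (mem_erase.mp hz).2
      obtain ⟨a, ha⟩ := hzn
      have hac := hc z hzD a ha
      rw [hac] at ha
      -- the image of `z`
      have k1 : (g : Equiv.Perm {x // x ∈ A}) c ∈ N' (τ z) := by
        rw [hτ3 z hz, mem_actF]; exact ha
      have k2 : τ z ∈ D' := (mem_erase.mp ((hτ1 z).mpr hz)).2
      have k3 : σ (σ.symm (τ z)) ∈ D' := by rw [Equiv.apply_symm_apply]; exact k2
      have k4 := (hσ1 _).mp k3
      have k5 := hσ3 _ k4
      rw [Equiv.apply_symm_apply] at k5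
      rw [k5] at k1
      obtain ⟨b, hb⟩ := (δ : Equiv.Perm {x // x ∈ A}).surjective ((g : Equiv.Perm {x // x ∈ A}) c)
      rw [← hb, mem_actF] at k1
      have hbc := hc _ k4 b k1
      rw [hbc] at hb
      -- `δ c = g c`
      ext a'
      obtain ⟨d, rfl⟩ := (δ : Equiv.Perm {x // x ∈ A}).surjective a'
      rw [mem_actF]
      constructor
      · intro hd
        rw [hc x hx d hd, hb, mem_actF]
        rw [hc x hx d hd] at hd
        exact hd
      · intro hd
        obtain ⟨e, he⟩ := (g : Equiv.Perm {x // x ∈ A}).surjective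
          ((δ : Equiv.Perm {x // x ∈ A}) d)
        rw [← he, mem_actF] at hd
        have hec := hc x hx e hd
        rw [hec, ← hb] at he
        have : d = c := ((δ : Equiv.Perm {x // x ∈ A}).injective he).symm
        rw [this, ← hec]
        exact hd
    · push Not at hemp
      have hxe := hemp x hx
      have : NN G A x = ∅ := by
        first
          | exact not_nonempty_iff_eq_empty.mp hxe
          | exact hxe
      rw [this]
      ext a'
      obtain ⟨d, rfl⟩ := (δ : Equiv.Perm {x // x ∈ A}).surjective a'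
      rw [mem_actF]
      obtain ⟨e, he⟩ := (g : Equiv.Perm {x // x ∈ A}).surjective
        ((δ : Equiv.Perm {x // x ∈ A}) d)
      rw [← he, mem_actF]
      simp
  apply hN
  apply hiso
  refine ⟨g, fun y => ?_⟩
  have c := hrel2 y
  rw [← hφ']
  have e1 : (φ g y = u') ↔ (y = u) := by rw [← hu2, (φ g).apply_eq_iff_eq]
  have e2 : (φ g y = t') ↔ (y = t) := by rw [← hgt, (φ g).apply_eq_iff_eq]
  simp only [e1, e2] at c
  omega

/-- so there are few vertices outside `A` -/
theorem few_outside {G H : SimpleGraph V} {π : V → Equiv.Perm V} (hH : Hypo G H π)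
    (hN : NonIso G H) (A L : Finset V) (hAL : ∀ v, v ∈ L ↔ v ∉ A)
    (hmapsA : ∀ v ∈ L, ∀ u, π v u ∈ A ↔ u ∈ A) (h2 : 2 ≤ (comps G L).card)
    (hatt : ∀ D ∈ comps G L, ∃ c, ∀ x ∈ D, ∀ a : {x // x ∈ A}, a ∈ NN G A x → a = c) :
    L.card ≤ (comps G L).card ^ 2 ∧ ∀ D ∈ comps G L, D.card ≤ (comps G L).card := by
  by_cases h3 : 3 ≤ L.card
  · have key : ∀ k, ∀ D ∈ comps G L, ∀ j, 1 ≤ j → j + k = D.card → ∃ E ∈ comps G L, E.card = j := by
      intro k
      induction k with
      | zero => intro D hD j _ hj; exact ⟨D, hD, by omega⟩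
      | succ k ih =>
        intro D hD j hj1 hj
        obtain ⟨E, hE, hED⟩ := closure hH hN A L hAL hmapsA h3 h2 hatt D hD (by omega)
        exact ih E hE j hj1 (by omega)
    have hle : ∀ D ∈ comps G L, D.card ≤ (comps G L).card := by
      intro D hD
      have : Finset.Icc 1 D.card ⊆ (comps G L).image (fun E => E.card) := by
        intro j hj
        rw [mem_Icc] at hj
        obtain ⟨E, hE, hEj⟩ := key (D.card - j) D hD j hj.1 (by omega)
        exact mem_image.mpr ⟨E, hE, hEj⟩
      have h5 := card_le_card this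
      rw [Nat.card_Icc] at h5
      have h6 : ((comps G L).image (fun E => E.card)).card ≤ (comps G L).card := card_image_le
      omega
    refine ⟨?_, hle⟩
    rw [← card_comps G L, sq]
    calc ∑ D ∈ comps G L, D.card ≤ ∑ _D ∈ comps G L, (comps G L).card := sum_le_sum hle
      _ = (comps G L).card * (comps G L).card := by rw [sum_const, smul_eq_mul]
  · have h4 : L.card ≤ 2 := by omega
    refine ⟨by nlinarith, fun D hD => ?_⟩
    have := card_le_card (comps_sub G L D hD)
    omega

end Pool.Agent.U395.RC
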