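import Pool.Agent.U395.RC.Clos

set_option autoImplicit false
set_option linter.unusedSectionVars false

/-! The orders of the components outside `A`. -/

namespace Pool.Agent.U395.RC

open Finset Classical
open Pool.Agent.H234RC (Hypo NonIso Reconstructible)
open Pool.Agent.TH87.RVC (actF mem_actF FF FF_inv del relAut mem_iff_of_maps)
open Pool.Agent.TH87.RVE

variable {V : Type} [Fintype V]

/-- a finite family of sizes which form an initial segment -/
theorem sum_init {ι : Type} (F : Finset ι) (f : ι → ℕ)
    (h : ∀ i ∈ F, ∀ j, 1 ≤ j → j ≤ f i → ∃ k ∈ F, f k = j) : 2 * ∑ i ∈ F, f i ≤ F.card * (F.card + 1) := by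
  have hle : ∀ i ∈ F, f i ≤ F.card := by
    intro i hi
    have : Finset.Icc 1 (f i) ⊆ F.image f := by
      intro j hj
      rw [mem_Icc] at hj
      obtain ⟨k, hk, hkj⟩ := h i hi j hj.1 hj.2
      exact mem_image.mpr ⟨k, hk, hkj⟩
    have h5 := card_le_card this
    rw [Nat.card_Icc] at h5
    have h6 : (F.image f).card ≤ F.card := card_image_le
    omega
  have h1 : ∀ i ∈ F, f i = ∑ j ∈ range F.card, if j < f i then 1 else 0 := by
    intro i hi
    rw [← card_filter]
    have : (range F.card).filter (fun j => j < f i) = range (f i) := by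
      ext j
      rw [mem_filter, mem_range, mem_range]
      have := hle i hi
      omega
    rw [this, card_range]
  have h2 : ∑ i ∈ F, f i = ∑ j ∈ range F.card, (F.filter (fun i => j < f i)).card := by
    rw [sum_congr rfl h1, sum_comm]
    apply sum_congr rfl
    intro j _
    rw [card_filter]
  have h3 : ∀ j ∈ range F.card, (F.filter (fun i => j < f i)).card ≤ F.card - j := by
    intro j _
    by_cases hne : (F.filter (fun i => j < f i)).Nonempty
    · obtain ⟨i, hi⟩ := hne
      obtain ⟨hiF, hij⟩ := mem_filter.mp hi
      have : Finset.Icc 1 j ⊆ (F.filter (fun i => ¬ j < f i)).image f := by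
        intro l hl
        rw [mem_Icc] at hl
        obtain ⟨k, hk, hkj⟩ := h i hiF l hl.1 (by omega)
        exact mem_image.mpr ⟨k, mem_filter.mpr ⟨hk, by omega⟩, hkj⟩
      have h5 := card_le_card this
      rw [Nat.card_Icc] at h5
      have h6 : ((F.filter (fun i => ¬ j < f i)).image f).card ≤
        (F.filter (fun i => ¬ j < f i)).card := card_image_le
      have h7 := card_filter_add_card_filter_not (s := F) (fun i => j < f i)
      omega
    · rw [not_nonempty_iff_eq_empty] at hne
      rw [hne, card_empty]
      exact Nat.zero_le _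
  have h4 : ∑ j ∈ range F.card, (F.card - j) * 2 = F.card * (F.card + 1) := by
    have : ∀ n : ℕ, ∑ j ∈ range n, (n - j) * 2 = n * (n + 1) := by
      intro n
      induction n with
      | zero => simp
      | succ n ih =>
        rw [sum_range_succ']
        have e : ∀ k ∈ range n, (n + 1 - (k + 1)) * 2 = (n - k) * 2 := by
          intro k _
          congr 1
          omega
        rw [sum_congr rfl e, ih]
        simp only [Nat.sub_zero]
        ring
    exact this F.card
  rw [h2]
  calc 2 * ∑ j ∈ range F.card, (F.filter (fun i => j < f i)).card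
      ≤ 2 * ∑ j ∈ range F.card, (F.card - j) := Nat.mul_le_mul_left 2 (sum_le_sum h3)
    _ = F.card * (F.card + 1) := by rw [← h4, mul_sum]; exact sum_congr rfl (fun j _ => by ring)

theorem few_outside2 {G H : SimpleGraph V} {π : V → Equiv.Perm V} (hH : Hypo G H π)
    (hN : NonIso G H) (A L : Finset V) (hAL : ∀ v, v ∈ L ↔ v ∉ A)
    (hmapsA : ∀ v ∈ L, ∀ u, π v u ∈ A ↔ u ∈ A) (h2 : 2 ≤ (comps G L).card)
    (hatt : ∀ D ∈ comps G L, ∃ c, ∀ x ∈ D, ∀ a : {x // x ∈ A}, a ∈ NN G A x → a = c) :
    2 * L.card ≤ (comps G L).card * ((comps G L).card + 1) ∧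
      ∀ D ∈ comps H L, D.card ≤ (comps G L).card := by
  by_cases h3 : 3 ≤ L.card
  · have key : ∀ k, ∀ D ∈ comps G L, ∀ j, 1 ≤ j → j + k = D.card → ∃ E ∈ comps G L, E.card = j := by
      intro k
      induction k with
      | zero => intro D hD j _ hj; exact ⟨D, hD, by omega⟩
      | succ k ih =>
        intro D hD j hj1 hj
        obtain ⟨E, hE, hED⟩ := closure hH hN A L hAL hmapsA h3 h2 hatt D hD (by omega)
        exact ih E hE j hj1 (by omega)
    refine ⟨?_, ?_⟩
    · rw [← card_comps G L]
      apply sum_init (comps G L) (fun D => D.card)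
      intro D hD j hj1 hj
      exact key (D.card - j) D hD j hj1 (by omega)
    · obtain ⟨i0, hi0⟩ : L.Nonempty := card_pos.mp (by omega)
      obtain ⟨N', hdeck, hiso⟩ := frame hH A L hAL hmapsA i0 hi0
      obtain ⟨hcc, hk⟩ := agree A L N' hdeck h2 h3
      have hsz : ∀ (g : relAut G A L) y, sz (ph G A L g y) = sz y := fun g y => sz_actT _ _
      have hsizes : ∀ r : ℕ, ∑ y, (if sz y = r then 1 else 0) * wt G (NN G A) L y =
          ∑ y, (if sz y = r then 1 else 0) * wt H N' L y := by
        intro r
        exact inv_sum (ph G A L) (wt G (NN G A) L) (wt H N' L) 2 le_rfl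
          (fun c hc => hk c (by omega)) (fun y => if sz y = r then 1 else 0)
          (fun g y => by simp only [hsz])
      intro D hD
      by_contra hlt
      push Not at hlt
      have h4 := hsizes D.card
      have h5 : 1 ≤ ∑ y, (if sz y = D.card then 1 else 0) * wt H N' L y := by
        have h6 : 1 ≤ wt H N' L (mk (D, H, N')) := by
          rw [wt_comp H N' L D hD, if_pos rfl]; omega
        have h7 : (if sz (mk (D, H, N')) = D.card then 1 else 0) * wt H N' L (mk (D, H, N')) ≤
            ∑ y, (if sz y = D.card then 1 else 0) * wt H N' L y :=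
          single_le_sum (f := fun y => (if sz y = D.card then 1 else 0) * wt H N' L y)
            (fun _ _ => Nat.zero_le _) (mem_univ _)
        rw [if_pos (sz_mk _), one_mul] at h7
        omega
      rw [← h4] at h5
      obtain ⟨y, _, hy⟩ := exists_ne_zero_of_sum_ne_zero (by omega :
        ∑ y, (if sz y = D.card then 1 else 0) * wt G (NN G A) L y ≠ 0)
      have hy1 : sz y = D.card := by
        by_contra h
        rw [if_neg h, zero_mul] at hy
        exact hy rfl
      rw [if_pos hy1, one_mul] at hy
      obtain ⟨E, hE, rfl⟩ := wt_pos G (NN G A) L y hy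
      rw [sz_mk] at hy1
      simp only at hy1
      have := (few_outside hH hN A L hAL hmapsA h2 hatt).2 E hE
      omega
  · have h4 : L.card ≤ 2 := by omega
    refine ⟨by nlinarith, fun D hD => ?_⟩
    have := card_le_card (comps_sub H L D hD)
    omega

end Pool.Agent.U395.RC
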