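import Pool.Agent.U395.RC.Stab

set_option autoImplicit false
set_option linter.unusedSectionVars false

/-! Graphs with many components outside a union of subgraphs of a given type. -/

namespace Pool.Agent.U395.RC

open Finset Classical
open Pool.Agent.H234RC (Hypo NonIso Reconstructible)
open Pool.Agent.TH87.RVC (actF mem_actF FF FF_inv del relAut mem_iff_of_maps)
open Pool.Agent.TH87.RVE
open Pool.Agent.Y400.Rec (Cmp cmp_mem mem_cmp)

variable {V : Type} [Fintype V]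

theorem card_aut_real (G : SimpleGraph V) (A : Finset V) (t : ℕ)
    (ht : 2 * (Nat.card (G.induce (A : Set V) ≃g G.induce (A : Set V)) : ℝ) < (3 / 2 : ℝ) ^ t) :
    2 * (Nat.card (relAut G A Aᶜ) : ℝ) < (3 / 2 : ℝ) ^ t := by
  have h0 := card_relAut_le_aut G A Aᶜ (fun x hx h => (mem_compl.mp h) hx) (A : Set V)
    (fun x => Finset.mem_coe)
  refine lt_of_le_of_lt ?_ ht
  have : (Nat.card (relAut G A Aᶜ) : ℝ) ≤
      (Nat.card (G.induce (A : Set V) ≃g G.induce (A : Set V)) : ℝ) := by exact_mod_cast h0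
  linarith

/-- the bound on the number of components -/
theorem comps_lt {G H : SimpleGraph V} {π : V → Equiv.Perm V} (hH : Hypo G H π)
    (hN : NonIso G H) (A : Finset V) (hmapsA : ∀ v, v ∉ A → ∀ u, π v u ∈ A ↔ u ∈ A) (t : ℕ)
    (ht : 2 * (Nat.card (G.induce (A : Set V) ≃g G.induce (A : Set V)) : ℝ) < (3 / 2 : ℝ) ^ t) :
    (comps G Aᶜ).card < t ^ 2 :=
  lt_sq _ _ (abs_bound hH hN A Aᶜ (fun v => mem_compl) (fun v hv => hmapsA v (mem_compl.mp hv))) t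
    (card_aut_real G A t ht)

theorem att_of (G : SimpleGraph V) (A : Finset V)
    (hatt : ∀ D, Cmp G A D → ∀ a ∈ A, ∀ b ∈ A, ∀ x ∈ D, ∀ y ∈ D, G.Adj x a → G.Adj y b → a = b) :
    ∀ D ∈ comps G Aᶜ, ∀ x ∈ D, ∀ y ∈ D, ∀ a b : {x // x ∈ A}, a ∈ NN G A x → b ∈ NN G A y →
      a = b := by
  intro D hD x hx y hy a b ha hb
  rw [mem_NN] at ha hb
  exact Subtype.ext (hatt D (mem_cmp G A D hD) a a.2 b b.2 x hx y hy ha hb)

theorem att_ex (G : SimpleGraph V) (A : Finset V) (hA : A.Nonempty)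
    (hatt : ∀ D, Cmp G A D → ∀ a ∈ A, ∀ b ∈ A, ∀ x ∈ D, ∀ y ∈ D, G.Adj x a → G.Adj y b → a = b) :
    ∀ D ∈ comps G Aᶜ, ∃ c, ∀ x ∈ D, ∀ a : {x // x ∈ A}, a ∈ NN G A x → a = c := by
  intro D hD
  by_cases h : ∃ x ∈ D, ∃ a : {x // x ∈ A}, a ∈ NN G A x
  · obtain ⟨x, hx, a, ha⟩ := h
    exact ⟨a, fun y hy b hb => att_of G A hatt D hD y hy x hx b a hb ha⟩
  · push Not at h
    obtain ⟨a, ha⟩ := hA
    exact ⟨⟨a, ha⟩, fun x hx b hb => absurd hb (h x hx b)⟩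

/-- the union `A` of the proper sets which induce a member of a class -/
theorem uni_form (G : SimpleGraph V) (F : (U : Type) → SimpleGraph U → Prop)
    (hF : ∀ (U U' : Type) (K : SimpleGraph U) (K' : SimpleGraph U'), F U K →
      Nonempty (K ≃g K') → F U' K') (A : Finset V)
    (hA : ∀ x, x ∈ A ↔ ∃ P : Finset V, x ∈ P ∧ P ≠ univ ∧
      F {x // x ∈ (P : Set V)} (G.induce (P : Set V))) (t : ℕ)
    (ht : 2 * (Nat.card (G.induce (A : Set V) ≃g G.induce (A : Set V)) : ℝ) < (3 / 2 : ℝ) ^ t) :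
    (t ^ 2 ≤ Nat.card (G.induce {x | x ∉ A}).ConnectedComponent →
      Reconstructible G ∧ Reconstructible Gᶜ) ∧
    ((∃ D E, Cmp G A D ∧ Cmp G A E ∧ D ≠ E) →
      (∀ D, Cmp G A D → ∀ a ∈ A, ∀ b ∈ A, ∀ x ∈ D, ∀ y ∈ D, G.Adj x a → G.Adj y b → a = b) →
      A.Nonempty →
      (t ^ 4 ≤ Aᶜ.card → Reconstructible G ∧ Reconstructible Gᶜ) ∧
      (3 ≤ Aᶜ.card → (∃ D, Cmp G A D ∧ 2 ≤ D.card ∧ ∀ E, Cmp G A E → E.card + 1 ≠ D.card) →
        Reconstructible G ∧ Reconstructible Gᶜ)) := by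
  have hst : ∀ (H : SimpleGraph V) (π : V → Equiv.Perm V), Hypo G H π → ∀ v, v ∉ A → ∀ u,
      π v u ∈ A ↔ u ∈ A := by
    intro H π hH v hv u
    have hAu : A = un (fun P : Finset V => F {x // x ∈ (P : Set V)} (G.induce (P : Set V))) := by
      ext x
      rw [hA, mem_un]
    rw [hAu] at hv ⊢
    exact un_stable hH _ (fun P : Finset V => F {x // x ∈ (P : Set V)} (H.induce (P : Set V)))
      (fun v P hP => class_inv hH F hF v P hP) v hv u
  refine ⟨fun hm => ?_, fun h2 hatt hne => ⟨fun hm => ?_, fun h3 hD => ?_⟩⟩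
  · refine rec_of G _ (fun H π hH hN => not_le.mpr ?_) hm
    have h1 := comps_lt hH hN A (hst H π hH) t ht
    have h2 := card_components_le G Aᶜ {x | x ∉ A} (fun x => by
      rw [mem_compl]; exact Iff.rfl)
    omega
  · refine rec_of G _ (fun H π hH hN => not_le.mpr ?_) hm
    have h1 := comps_lt hH hN A (hst H π hH) t ht
    have hc2 : 2 ≤ (comps G Aᶜ).card := by
      obtain ⟨D, E, hD, hE, hDE⟩ := h2
      exact one_lt_card.mpr ⟨D, cmp_mem G A D hD, E, cmp_mem G A E hE, hDE⟩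
    have h5 := (few_outside hH hN A Aᶜ (fun v => mem_compl)
      (fun v hv => hst H π hH v (mem_compl.mp hv)) hc2 (att_ex G A hne hatt)).1
    have h6 : (comps G Aᶜ).card ^ 2 < (t ^ 2) ^ 2 := Nat.pow_lt_pow_left h1 (by norm_num)
    have h7 : (t ^ 2) ^ 2 = t ^ 4 := by ring
    omega
  · refine rec_of G (∃ D, Cmp G A D ∧ 2 ≤ D.card ∧ ∀ E, Cmp G A E → E.card + 1 ≠ D.card)
      (fun H π hH hN hex => ?_) hD
    obtain ⟨D, hD1, hD2, hD3⟩ := hex
    have hc2 : 2 ≤ (comps G Aᶜ).card := by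
      obtain ⟨D, E, hD, hE, hDE⟩ := h2
      exact one_lt_card.mpr ⟨D, cmp_mem G A D hD, E, cmp_mem G A E hE, hDE⟩
    obtain ⟨E, hE, hE2⟩ := closure hH hN A Aᶜ (fun v => mem_compl)
      (fun v hv => hst H π hH v (mem_compl.mp hv)) h3 hc2 (att_ex G A hne hatt) D
      (cmp_mem G A D hD1) hD2
    exact hD3 E (mem_cmp G A E hE) hE2

end Pool.Agent.U395.RC
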