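import Pool.Agent.U395.RC.Bare
import Pool.Agent.U395.RC.Uni
import Pool.Agent.U395.RC.Few

set_option autoImplicit false
set_option linter.unusedSectionVars false

/-! The number of vertices outside the 2-core of a connected graph which is not reconstructible is
bounded in terms of the automorphism group of the 2-core. -/

namespace Pool.Agent.U395.RC

open Finset Classical
open Pool.Agent.H234RC (Hypo NonIso Reconstructible)
open Pool.Agent.TH87.RVC (actF mem_actF FF FF_inv del relAut mem_iff_of_maps dS dS_eq_sum dS_eq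
  dS_erase dS_card)
open Pool.Agent.TH87.RVE

variable {V : Type} [Fintype V]

theorem att_full (G : SimpleGraph V) (hG : (comps G univ).card ≤ 1) (A : Finset V)
    (hA : Full G A) : ∀ D ∈ comps G Aᶜ, ∀ x ∈ D, ∀ y ∈ D, ∀ a ∈ A, ∀ b ∈ A, G.Adj x a →
      G.Adj y b → x = y ∧ a = b := by
  intro D hD x hx y hy a ha b hb hxa hyb
  have hDs := comps_sub G _ D hD
  have h1 := full_att G hG A hA D (by rw [comps_comp G _ D hD, card_singleton]) (by
    rw [Finset.disjoint_right]
    exact fun z hz => mem_compl.mp (hDs hz))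
  have hxy : x = y := by
    by_contra hxy
    have h2 : ∑ z ∈ ({x, y} : Finset V), dS G A z ≤ ∑ z ∈ D, dS G A z := by
      apply sum_le_sum_of_subset
      intro z hz
      rcases mem_insert.mp hz with rfl | hz
      · exact hx
      · rw [mem_singleton] at hz
        subst hz
        exact hy
    rw [sum_pair hxy] at h2
    have := dS_pos G A x a ha hxa
    have := dS_pos G A y b hb hyb
    omega
  refine ⟨hxy, ?_⟩
  subst hxy
  by_contra hab
  have h3 : dS G A x ≤ ∑ z ∈ D, dS G A z :=
    single_le_sum (f := fun z => dS G A z) (fun _ _ => Nat.zero_le _) hx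
  have h4 : ({a, b} : Finset V).card ≤ dS G A x := by
    unfold dS
    apply card_le_card
    intro z hz
    rcases mem_insert.mp hz with rfl | hz
    · exact mem_filter.mpr ⟨ha, hxa⟩
    · rw [mem_singleton] at hz
      subst hz
      exact mem_filter.mpr ⟨hb, hyb⟩
  rw [card_pair hab] at h4
  omega

theorem att_c (G : SimpleGraph V) (hG : (comps G univ).card ≤ 1) (A : Finset V)
    (hA : Full G A) :
    ∀ D ∈ comps G Aᶜ, ∃ c, ∀ x ∈ D, ∀ a : {x // x ∈ A}, a ∈ NN G A x → a = c := by
  intro D hD
  by_cases h : ∃ x ∈ D, ∃ a : {x // x ∈ A}, a ∈ NN G A x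
  · obtain ⟨x, hx, a, ha⟩ := h
    refine ⟨a, fun y hy b hb => ?_⟩
    rw [mem_NN] at ha hb
    exact Subtype.ext (att_full G hG A hA D hD y hy x hx b b.2 a a.2 hb ha).2
  · push Not at h
    obtain ⟨a, ha⟩ := hA.1
    exact ⟨⟨a, ha⟩, fun x hx b hb => absurd hb (h x hx b)⟩

/-- one component outside: one vertex -/
theorem one_vertex (G : SimpleGraph V) (hG : (comps G univ).card ≤ 1) (C : Finset V)
    (hC : Full G C) (hCl : ∀ Q, Full G Q → C ⊆ Q) (A : Finset V) (hA : Uniq G A)
    (hne : A ≠ univ) (hmax : ∀ B, Uniq G B → B ≠ univ → B.card ≤ A.card)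
    (h1 : (comps G Aᶜ).card ≤ 1) : ∃ z, z ∉ A ∧ insert z A = univ ∧ dS G A z = 1 := by
  obtain ⟨y, hy, x, hx, hxy⟩ := exists_nb G hG A hA.1.1 hne
  obtain ⟨hf, hd⟩ := full_insert G hG A hA.1 y hy (dS_pos G A y x hx hxy.symm)
  refine ⟨y, hy, ?_, hd⟩
  by_contra hiu
  have hD : Aᶜ ∈ comps G Aᶜ := by
    have := comp_mem_comps G Aᶜ y (mem_compl.mpr hy)
    rwa [conn_eq G Aᶜ h1 y (mem_compl.mpr hy)] at this
  have hu : Uniq G (insert y A) := by
    refine ⟨hf, fun Q hQ hQc => ?_⟩
    rw [card_insert_of_notMem hy] at hQc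
    have hAQ := uniq_sub G hG C hC hCl A hA Q hQ (by omega)
    obtain ⟨q, hq, hqA, hfq⟩ := full_step G hG A Q hA.1 hQ hAQ (by rintro rfl; omega)
    have hQe : insert q A = Q := by
      apply eq_of_subset_of_card_le (insert_subset hq hAQ)
      rw [card_insert_of_notMem hqA]
      omega
    have hdq : 1 ≤ dS G A q := by
      have h2 := kap_insert G A q hqA
      have h3 := hfq.2
      have h4 := hA.1.2
      have : (dS G A q : ℤ) = 1 := by linarith
      omega
    obtain ⟨b, hb, hqb⟩ := (dS_pos_iff G A q).mp hdq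
    have := (att_full G hG A hA.1 Aᶜ hD q (mem_compl.mpr hqA) y (mem_compl.mpr hy) b hb x hx
      hqb hxy.symm).1
    rw [← hQe, this]
  have := hmax _ hu hiu
  rw [card_insert_of_notMem hy] at this
  omega

/-- the set `S` of vertices of degree at most two with a leaf does not meet `B` -/
theorem avoid (H : SimpleGraph V) (B S : Finset V) (hSc : (comps H S).card ≤ 1)
    (hSd : ∀ y ∈ S, dS H univ y ≤ 2) (w : V) (hw : w ∈ S) (hwB : w ∉ B)
    (hatt : ∀ z ∈ B, ∀ x, x ∉ B → H.Adj z x → 3 ≤ dS H univ z) : S ⊆ Bᶜ := by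
  by_contra hcon
  have hSne : S \ B ≠ S := by
    intro h
    apply hcon
    intro x hx
    rw [← h] at hx
    exact mem_compl.mpr (mem_sdiff.mp hx).2
  obtain ⟨z, hz, hzB, x, hx, hxz⟩ := conn_nb H S hSc (S \ B)
    ⟨w, mem_sdiff.mpr ⟨hw, hwB⟩⟩ sdiff_subset hSne
  have hzB' : z ∈ B := by
    by_contra h
    exact hzB (mem_sdiff.mpr ⟨hz, h⟩)
  have := hatt z hzB' x (mem_sdiff.mp hx).2 hxz.symm
  have := hSd z hz
  omega

/-- the number of components outside is at least two in `H` as well -/
theorem two_H {G H : SimpleGraph V} {π : V → Equiv.Perm V} (hH : Hypo G H π)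
    (hn : 3 ≤ Fintype.card V) (A : Finset V) (hA : Full G A) (hAH : Full H A)
    (hst : ∀ v, v ∉ A → ∀ u, π v u ∈ A ↔ u ∈ A)
    (h2 : 2 ≤ (comps G Aᶜ).card) : 2 ≤ (comps H Aᶜ).card := by
  by_cases h3 : 3 ≤ Aᶜ.card
  · obtain ⟨i0, hi0⟩ : Aᶜ.Nonempty := card_pos.mp (by omega)
    obtain ⟨N', hdeck, _⟩ := frame hH A Aᶜ (fun v => mem_compl)
      (fun v hv => hst v (mem_compl.mp hv)) i0 hi0
    rw [(agree A Aᶜ N' hdeck h2 h3).1]
    exact h2
  · -- two isolated vertices: the number of edges is the same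
    have hAc2 : Aᶜ.card = 2 := by
      have : (comps G Aᶜ).card ≤ Aᶜ.card := by unfold comps; exact card_image_le
      omega
    by_contra hlt
    push Not at hlt
    obtain ⟨a, b, hab, hAb⟩ := card_eq_two.mp hAc2
    have hka : kap G Aᶜ = kap H Aᶜ := by
      have g1 := kap_union G A Aᶜ disjoint_compl_right
      have g2 := kap_union H A Aᶜ disjoint_compl_right
      rw [union_compl] at g1 g2
      have g3 : ∀ K : SimpleGraph V, ∑ x ∈ Aᶜ, (dS K A x : ℤ) =
          ∑ x ∈ Aᶜ, ((dS K univ x : ℤ) - 2) - kap K Aᶜ := by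
        intro K
        unfold kap
        rw [← sum_sub_distrib]
        apply sum_congr rfl
        intro x _
        have := dS_union K A Aᶜ disjoint_compl_right x
        rw [union_compl] at this
        rw [this]
        push_cast
        ring
      rw [g3 G] at g1
      rw [g3 H] at g2
      have g4 : ∑ x ∈ Aᶜ, ((dS G univ x : ℤ) - 2) = ∑ x ∈ Aᶜ, ((dS H univ x : ℤ) - 2) :=
        sum_congr rfl (fun x _ => by rw [deg_H hH hn x])
      have g5 := hA.2
      have g6 := hAH.2
      have g7 := kap_H hH hn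
      rw [g4] at g1
      linarith
    have haA : a ∈ Aᶜ := by rw [hAb]; simp
    have hbA : b ∈ Aᶜ := by rw [hAb]; simp
    have hkG : kap G Aᶜ = -4 := by
      have hnadj : ¬ G.Adj a b := by
        intro hadj
        have : (comps G Aᶜ).card ≤ 1 := by
          have h9 := conn_insert G {a} (comps_single_le G a) a b (mem_singleton_self a) hadj
          have e : insert b ({a} : Finset V) = Aᶜ := by
            rw [hAb]; exact pair_comm b a
          rwa [e] at h9
        omega
      rw [hAb]
      have h9 := kap_insert G {b} a (by rw [mem_singleton]; exact hab)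
      rw [kap_single] at h9
      have h10 : dS G {b} a = 0 := by
        unfold dS
        rw [filter_singleton, if_neg hnadj, card_empty]
      rw [h10] at h9
      rw [h9]
      norm_num
    have := kap_conn H Aᶜ (by omega) ⟨a, haA⟩
    omega

/-- the case of one vertex outside -/
theorem one_case {G H : SimpleGraph V} {π : V → Equiv.Perm V} (hH : Hypo G H π)
    (hn : 3 ≤ Fintype.card V) (hG : (comps G univ).card ≤ 1)
    (C : Finset V) (hC : Full G C) (hCl : ∀ Q, Full G Q → C ⊆ Q)
    (C' : Finset V) (hC'1 : Full H C') (hC'2 : ∀ Q, Full H Q → C' ⊆ Q)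
    (hC'3 : ∀ x ∈ C', 2 ≤ dS H C' x)
    (A : Finset V) (hA : Uniq G A) (hAne : A ≠ univ) (hAC : A ≠ C)
    (z : V) (hz : z ∉ A) (hzu : insert z A = univ) (hzd : dS G A z = 1) :
    ∃ σ : Equiv.Perm V, ∀ x y, H.Adj (σ x) (σ y) ↔ G.Adj x y := by
  have hHc := conn_H hH hn hG
  have hAH := (uniq_H hH hn A hAne).mp hA
  obtain ⟨y, hy, hyC, hu⟩ := uniq_down G hG C hC hCl A hA hAne hAC
  obtain ⟨hzy, hz0⟩ := uniq_nb G hG A hA y hy hu.1 z hz (by omega)
  have hyz : y ≠ z := fun h => hz (h ▸ hy)
  have hmem : ∀ x, x ≠ z → x ∈ A := by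
    intro x hx
    have := mem_univ x
    rw [← hzu] at this
    rcases mem_insert.mp this with h | h
    · exact absurd h hx
    · exact h
  have hNz : ∀ x, G.Adj z x ↔ x = y := by
    intro x
    constructor
    · intro h
      by_contra hxy
      have hxz : x ≠ z := (G.ne_of_adj h).symm
      have := dS_pos G (A.erase y) z x (mem_erase.mpr ⟨hxy, hmem x hxz⟩) h
      omega
    · rintro rfl
      exact hzy
  have hdz : dS G univ z = 1 := by
    unfold dS
    rw [card_eq_one]
    refine ⟨y, ?_⟩
    ext x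
    rw [mem_filter, mem_singleton, hNz]
    simp
  have hly : dS G (univ.erase z) y = 1 := by
    have e : univ.erase z = A := by
      ext x
      rw [mem_erase]
      constructor
      · rintro ⟨h, _⟩
        exact hmem x h
      · intro h
        exact ⟨fun h' => hz (h' ▸ h), mem_univ x⟩
    rw [e]
    exact full_last G A hA.1 y hy hu.1
  have hpy : H.Adj z (π z y) := by
    by_contra hcon
    have h3 := dS_erase H (π z y) z
    rw [if_neg (fun h => hcon h.symm), ← dS_card hH y z hyz, hly] at h3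
    have h4 : π z y ∈ A := hmem _ ((pi_ne hH z y).mpr hyz)
    exact uniq_noleaf H hHc C' hC'1 hC'2 hC'3 A hAH hAne _ h4 (by omega)
  have hdzH : dS H univ z = 1 := by rw [← deg_H hH hn z]; exact hdz
  have hNzH : ∀ x, H.Adj z x → x = π z y := by
    intro x hx
    unfold dS at hdzH
    obtain ⟨w, hw⟩ := card_eq_one.mp hdzH
    have h5 : x ∈ univ.filter (fun y => H.Adj z y) := mem_filter.mpr ⟨mem_univ _, hx⟩
    have h6 : π z y ∈ univ.filter (fun y => H.Adj z y) := mem_filter.mpr ⟨mem_univ _, hpy⟩
    rw [hw, mem_singleton] at h5 h6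
    rw [h5, h6]
  apply extend hH z
  intro x hx
  rw [hNz]
  constructor
  · intro h
    exact (π z).injective (hNzH _ h)
  · rintro rfl
    exact hpy

theorem core_data {G H : SimpleGraph V} {π : V → Equiv.Perm V} (hH : Hypo G H π)
    (hN : NonIso G H) (hn : 3 ≤ Fintype.card V) (hG : (comps G univ).card ≤ 1)
    (C : Finset V) (hC : Full G C) (hCl : ∀ Q, Full G Q → C ⊆ Q)
    (hC2 : ∀ x ∈ C, 2 ≤ dS G C x) (hK : 0 < kap G univ) (t : ℕ)
    (ht : 2 * (Nat.card (relAut G C Cᶜ) : ℝ) < (3 / 2 : ℝ) ^ t) :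
    Cᶜ.card ≤ t ^ 4 ∧ ∑ w ∈ Cᶜ, dS G C w ≤ t ^ 2 ∧
      ∀ S : Finset V, (comps H S).card ≤ 1 → (∀ y ∈ S, dS H univ y ≤ 2) →
        (∃ w ∈ S, dS H univ w = 1) → S.card < t ^ 2 := by
  have ht2 : 2 ≤ t := by
    have h1 : (1 : ℝ) ≤ (Nat.card (relAut G C Cᶜ) : ℝ) := by
      exact_mod_cast Nat.succ_le_of_lt Nat.card_pos
    by_contra hlt
    have h3 : (3 / 2 : ℝ) ^ t ≤ (3 / 2 : ℝ) ^ 1 :=
      pow_le_pow_right₀ (by norm_num) (by omega)
    rw [pow_one] at h3
    linarith
  have ht4 : 4 ≤ t ^ 2 := by nlinarith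
  have ht16 : t ^ 4 = t ^ 2 * t ^ 2 := by ring
  by_cases hCne : C = univ
  · subst hCne
    rw [compl_univ]
    refine ⟨by simp, by simp, ?_⟩
    rintro S _ _ ⟨w, _, hw⟩
    have h1 := hC2 w (mem_univ w)
    rw [deg_H hH hn w] at h1
    omega
  have hCu := least_uniq G hG C hC hCl
  obtain ⟨A, hAm, hmax⟩ := exists_max_image
    (univ.filter (fun B => Uniq G B ∧ B ≠ univ)) (fun B => B.card)
    ⟨C, mem_filter.mpr ⟨mem_univ _, hCu, hCne⟩⟩
  obtain ⟨_, hA, hAne⟩ := mem_filter.mp hAm
  have hmax' : ∀ B, Uniq G B → B ≠ univ → B.card ≤ A.card :=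
    fun B hB hB' => hmax B (mem_filter.mpr ⟨mem_univ _, hB, hB'⟩)
  have hHc := conn_H hH hn hG
  have hAH := (uniq_H hH hn A hAne).mp hA
  have hV : Nonempty V := ⟨hC.1.choose⟩
  obtain ⟨C', hC'1, hC'2, hC'3⟩ := full_least H hHc hV (by rw [kap_H hH hn]; exact hK)
  have hst : ∀ v, v ∉ A → ∀ u, π v u ∈ A ↔ u ∈ A :=
    fun v hv u => uniq_stable hH hn A hAne hA v hv u
  have hCA := hCl A hA.1
  have hcC : Cᶜ.card = Fintype.card V - C.card := card_compl C
  have hcA : Aᶜ.card = Fintype.card V - A.card := card_compl A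
  have hCV : C.card ≤ Fintype.card V := card_le_univ C
  have hAV : A.card ≤ Fintype.card V := card_le_univ A
  by_cases h2 : 2 ≤ (comps G Aᶜ).card
  · -- several components
    have hcl : (comps G Aᶜ).card < t ^ 2 := by
      apply lt_sq _ _ (abs_bound hH hN A Aᶜ (fun v => mem_compl)
        (fun v hv => hst v (mem_compl.mp hv))) t
      refine lt_of_le_of_lt ?_ ht
      have : (Nat.card (relAut G A Aᶜ) : ℝ) ≤ (Nat.card (relAut G C Cᶜ) : ℝ) := by
        exact_mod_cast card_relAut_core G hG C hC hCl A hA hAne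
      linarith
    obtain ⟨hfew, hsz⟩ := few_outside2 hH hN A Aᶜ (fun v => mem_compl)
      (fun v hv => hst v (mem_compl.mp hv)) h2 (att_c G hG A hA.1)
    have h2H := two_H hH hn A hA.1 hAH.1 hst h2
    have hprop : ∀ S : Finset V, (comps H S).card ≤ 1 → (∀ y ∈ S, dS H univ y ≤ 2) →
        (∃ w ∈ S, dS H univ w = 1) → S.card < t ^ 2 := by
      rintro S hSc hSd ⟨w, hw, hw1⟩
      have hwA : w ∉ A := fun h => uniq_noleaf H hHc C' hC'1 hC'2 hC'3 A hAH hAne w h hw1
      have hSA := avoid H A S hSc hSd w hw hwA (fun z hz x hx hzx =>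
        uniq_attach H hHc C' hC'1 hC'2 A hAH h2H z hz x hx hzx)
      have h5 : S ⊆ comp H Aᶜ w := by
        intro x hx
        have h6 : x ∈ comp H S w := by rw [conn_eq H S hSc w hw]; exact hx
        rw [mem_comp] at h6 ⊢
        exact ⟨hSA hx, rch_mono H S Aᶜ hSA h6.2⟩
      have h7 := card_le_card h5
      have h8 := hsz _ (comp_mem_comps H Aᶜ w (hSA hw))
      omega
    refine ⟨?_, ?_, hprop⟩
    · -- the order
      have hpath : A.card ≤ C.card + 2 * t ^ 2 + 1 := by
        by_contra hlong
        push Not at hlong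
        obtain ⟨B, y, hB, hBc, hy, hyC, hu, hc1, hc2, hdeg⟩ := uniq_path G hG C hC hCl A hA hAne
          A.card (by omega) le_rfl
        have hBA : B = A := hA.2 B hB.1 hBc
        subst hBA
        have hDc : (B.erase y \ C).card = B.card - 1 - C.card := by
          rw [card_sdiff_of_subset (hCl _ hu.1), card_erase_of_mem hy]
        have hDne : B.erase y \ C ≠ univ := by
          intro h
          have := mem_univ y
          rw [← h, mem_sdiff] at this
          simp at this
        obtain ⟨v, x1, x2, hx12, hadj, hd1, hd2, hS⟩ := mid G hG (B.erase y \ C) hc2 hDne hdeg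
          (t ^ 2) (by omega) (by omega)
        exact hN (bare hH hn v x1 x2 hx12 hadj hd1 hd2 (t ^ 2) hS hprop)
      have h9 : (comps G Aᶜ).card * ((comps G Aᶜ).card + 1) ≤ (t ^ 2 - 1) * t ^ 2 :=
        Nat.mul_le_mul (by omega) (by omega)
      obtain ⟨u, hu⟩ : ∃ u, t ^ 2 = u + 4 := ⟨t ^ 2 - 4, by omega⟩
      rw [ht16]
      rw [hu] at h9 hpath ⊢
      have h10 : u + 4 - 1 = u + 3 := by omega
      rw [h10] at h9
      have h11 : 2 * Cᶜ.card ≤ (u + 3) * (u + 4) + 2 * (2 * (u + 4) + 1) := by omega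
      nlinarith
    · -- the edges between the core and the rest
      by_cases hAC : A = C
      · subst hAC
        rw [sum_comps G Aᶜ (fun w => dS G A w)]
        have h3 : ∑ D ∈ comps G Aᶜ, ∑ x ∈ D, dS G A x ≤ ∑ _D ∈ comps G Aᶜ, 1 := by
          apply sum_le_sum
          intro D hD
          have hDs := comps_sub G _ D hD
          exact full_att G hG A hA.1 D (by rw [comps_comp G _ D hD, card_singleton]) (by
            rw [Finset.disjoint_right]
            exact fun z hz => mem_compl.mp (hDs hz))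
        rw [sum_const, smul_eq_mul, mul_one] at h3
        omega
      · have hlt : C.card < A.card := by
          by_contra h
          exact hAC (eq_of_subset_of_card_le hCA (by omega)).symm
        obtain ⟨B, hB, hBA, hBc⟩ := uniq_all G hG C hC hCl A hA hAne (A.card - C.card - 1)
          (by omega)
        have h3 : ∀ w ∈ Cᶜ, dS G C w ≤ if w ∈ B \ C then 1 else 0 := by
          intro w hw
          rw [mem_compl] at hw
          by_cases h4 : 1 ≤ dS G C w
          · obtain ⟨hf, h5⟩ := full_insert G hG C hC w hw h4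
            have h6 := hB.2 _ hf (by rw [card_insert_of_notMem hw]; omega)
            have h7 : w ∈ B \ C := mem_sdiff.mpr ⟨by rw [← h6]; exact mem_insert_self _ _, hw⟩
            rw [if_pos h7, h5]
          · have : dS G C w = 0 := by omega
            rw [this]
            exact Nat.zero_le _
        have h8 := sum_le_sum h3
        rw [← card_filter] at h8
        have h9 : (Cᶜ.filter (fun w => w ∈ B \ C)).card ≤ (B \ C).card := by
          apply card_le_card
          intro w hw
          exact (mem_filter.mp hw).2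
        have h10 : (B \ C).card = 1 := by
          rw [card_sdiff_of_subset (hCl B hB.1)]
          omega
        omega
  · -- one component
    obtain ⟨z, hz, hzu, hzd⟩ := one_vertex G hG C hC hCl A hA hAne hmax' (by omega)
    have hAc1 : A.card + 1 = Fintype.card V := by
      rw [← card_univ, ← hzu, card_insert_of_notMem hz]
    by_cases hAC : A = C
    · subst hAC
      have h1 : Aᶜ.card = 1 := by omega
      have h3 : Aᶜ = {z} := by
        obtain ⟨a, ha⟩ := card_eq_one.mp h1
        have : z ∈ Aᶜ := mem_compl.mpr hz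
        rw [ha, mem_singleton] at this
        rw [ha, this]
      refine ⟨by rw [h1]; nlinarith, by rw [h3, sum_singleton, hzd]; omega, ?_⟩
      rintro S hSc hSd ⟨w, hw, hw1⟩
      obtain ⟨_, g2⟩ := least_H hH hn hG hK A hC hCl hCne
      have hwA : w ∉ A := by
        intro h
        have h4 := g2 w h
        have h5 := dS_mono H (subset_univ A) w
        omega
      have hSA := avoid H A S hSc hSd w hw hwA (fun y hy x hx hyx => by
        have h4 := g2 y hy
        have h5 := dS_ins H A y x hx
        rw [if_pos hyx] at h5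
        have h6 := dS_mono H (subset_univ (insert x A)) y
        omega)
      have := card_le_card hSA
      omega
    · exact absurd (one_case hH hn hG C hC hCl C' hC'1 hC'2 hC'3 A hA hAne hAC z hz hzu hzd) hN

end Pool.Agent.U395.RC
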