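import Pool.Agent.U395.RC.Stab

set_option autoImplicit false
set_option linter.unusedSectionVars false

/-! The excess of edges over vertices, and the sets of vertices for which it is as large as for the
whole graph (for a connected graph with more edges than vertices: the connected sets which contain
the 2-core). -/

namespace Pool.Agent.U395.RC

open Finset Classical
open Pool.Agent.H234RC (Hypo NonIso Reconstructible)
open Pool.Agent.TH87.RVC (actF mem_actF FF FF_inv del relAut mem_iff_of_maps dS dS_eq_sum)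
open Pool.Agent.TH87.RVE

variable {V : Type} [Fintype V]

theorem dS_ins (G : SimpleGraph V) (P : Finset V) (x y : V) (hy : y ∉ P) :
    dS G (insert y P) x = dS G P x + if G.Adj x y then 1 else 0 := by
  rw [dS_eq_sum, dS_eq_sum, sum_insert hy, add_comm]

theorem dS_mono (G : SimpleGraph V) {P Q : Finset V} (h : P ⊆ Q) (x : V) :
    dS G P x ≤ dS G Q x := by
  unfold dS
  exact card_le_card (filter_subset_filter _ h)

theorem dS_union (G : SimpleGraph V) (P Q : Finset V) (h : Disjoint P Q) (x : V) :
    dS G (P ∪ Q) x = dS G P x + dS G Q x := by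
  rw [dS_eq_sum, dS_eq_sum, dS_eq_sum, sum_union h]

theorem dS_swap (G : SimpleGraph V) (P Q : Finset V) :
    ∑ x ∈ P, dS G Q x = ∑ y ∈ Q, dS G P y := by
  simp only [dS_eq_sum]
  rw [sum_comm]
  simp only [G.adj_comm]

theorem dS_pos (G : SimpleGraph V) (P : Finset V) (x y : V) (hy : y ∈ P) (h : G.Adj x y) :
    1 ≤ dS G P x := by
  unfold dS
  exact card_pos.mpr ⟨y, mem_filter.mpr ⟨hy, h⟩⟩

theorem dS_pos_iff (G : SimpleGraph V) (P : Finset V) (x : V) :
    1 ≤ dS G P x ↔ ∃ y ∈ P, G.Adj x y := by
  constructor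
  · intro h
    obtain ⟨y, hy⟩ := card_pos.mp h
    exact ⟨y, (mem_filter.mp hy).1, (mem_filter.mp hy).2⟩
  · rintro ⟨y, hy, h⟩
    exact dS_pos G P x y hy h

theorem dS_self (G : SimpleGraph V) (P : Finset V) (x : V) (hx : x ∈ P) :
    dS G (P.erase x) x = dS G P x := by
  have h := dS_ins G (P.erase x) x x (by simp)
  rw [insert_erase hx] at h
  simpa using h.symm

/-- twice the number of edges minus twice the number of vertices -/
noncomputable def kap (G : SimpleGraph V) (P : Finset V) : ℤ := ∑ x ∈ P, ((dS G P x : ℤ) - 2)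

theorem kap_empty (G : SimpleGraph V) : kap G ∅ = 0 := by simp [kap]

theorem kap_insert (G : SimpleGraph V) (P : Finset V) (y : V) (hy : y ∉ P) :
    kap G (insert y P) = kap G P + 2 * dS G P y - 2 := by
  unfold kap
  rw [sum_insert hy, dS_ins G P y y hy]
  have h1 : ∀ x ∈ P, ((dS G (insert y P) x : ℕ) : ℤ) - 2 =
      ((dS G P x : ℤ) - 2) + ((if G.Adj x y then 1 else 0 : ℕ) : ℤ) := by
    intro x _
    rw [dS_ins G P x y hy]
    push_cast
    ring
  rw [sum_congr rfl h1, sum_add_distrib]
  have h2 : ∑ x ∈ P, ((if G.Adj x y then 1 else 0 : ℕ) : ℤ) = (dS G P y : ℤ) := by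
    rw [dS_eq_sum]
    push_cast
    simp only [G.adj_comm y]
  rw [h2]
  simp only [SimpleGraph.irrefl, if_false, add_zero]
  ring

theorem kap_erase (G : SimpleGraph V) (P : Finset V) (y : V) (hy : y ∈ P) :
    kap G (P.erase y) = kap G P - 2 * dS G P y + 2 := by
  have h := kap_insert G (P.erase y) y (by simp)
  rw [insert_erase hy, dS_self G P y hy] at h
  linarith

theorem kap_union (G : SimpleGraph V) (P R : Finset V) (h : Disjoint P R) :
    kap G (P ∪ R) = kap G P + kap G R + 2 * ∑ x ∈ R, (dS G P x : ℤ) := by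
  induction R using Finset.induction_on with
  | empty => simp [kap_empty]
  | insert y R hy ih =>
    have hyP : y ∉ P := by
      rw [Finset.disjoint_right] at h
      exact h (mem_insert_self y R)
    have hd : Disjoint P R := by
      rw [Finset.disjoint_right] at h ⊢
      exact fun z hz => h (mem_insert_of_mem hz)
    have e1 : P ∪ insert y R = insert y (P ∪ R) := by
      ext z; simp only [mem_union, mem_insert]; tauto
    rw [e1, kap_insert G (P ∪ R) y (by simp [hyP, hy]), ih hd, kap_insert G R y hy,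
      sum_insert hy, dS_union G P R hd]
    push_cast
    ring

theorem kap_single (G : SimpleGraph V) (v : V) : kap G {v} = -2 := by
  have h := kap_insert G ∅ v (by simp)
  rw [insert_empty_eq, kap_empty] at h
  rw [h]
  simp [dS]

/-- growing inside a connected set -/
theorem kap_grow (G : SimpleGraph V) (U : Finset V) (hU : (comps G U).card ≤ 1) :
    ∀ k : ℕ, ∀ P : Finset V, P.Nonempty → P ⊆ U → U.card = P.card + k → kap G P ≤ kap G U := by
  intro k
  induction k with
  | zero =>
    intro P _ hPU hk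
    rw [eq_of_subset_of_card_le hPU (by omega)]
  | succ k ih =>
    intro P hP hPU hk
    have hne : P ≠ U := by rintro rfl; omega
    obtain ⟨y, hy, hyP, x, hx, hxy⟩ := conn_nb G U hU P hP hPU hne
    have h1 := ih (insert y P) (insert_nonempty y P) (insert_subset hy hPU)
      (by rw [card_insert_of_notMem hyP]; omega)
    have h2 := kap_insert G P y hyP
    have h3 := dS_pos G P y x hx hxy.symm
    have h4 : (1 : ℤ) ≤ dS G P y := by exact_mod_cast h3
    linarith

theorem kap_le (G : SimpleGraph V) (U : Finset V) (hU : (comps G U).card ≤ 1) (P : Finset V)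
    (hP : P.Nonempty) (hPU : P ⊆ U) : kap G P ≤ kap G U :=
  kap_grow G U hU (U.card - P.card) P hP hPU (by have := card_le_card hPU; omega)

theorem kap_conn (G : SimpleGraph V) (D : Finset V) (hD : (comps G D).card ≤ 1)
    (hne : D.Nonempty) : -2 ≤ kap G D := by
  obtain ⟨v, hv⟩ := hne
  have := kap_le G D hD {v} (singleton_nonempty v) (singleton_subset_iff.mpr hv)
  rwa [kap_single] at this

/-- the connected sets which contain the 2-core -/
def Full (G : SimpleGraph V) (P : Finset V) : Prop := P.Nonempty ∧ kap G P = kap G univ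

section conn

variable (G : SimpleGraph V) (hG : (comps G univ).card ≤ 1)

include hG

theorem exists_nb (P : Finset V) (hP : P.Nonempty) (hne : P ≠ univ) :
    ∃ y, y ∉ P ∧ ∃ x ∈ P, G.Adj x y := by
  obtain ⟨y, _, h⟩ := conn_nb G univ hG P hP (subset_univ P) hne
  exact ⟨y, h⟩

theorem full_insert (P : Finset V) (hP : Full G P) (y : V) (hy : y ∉ P) (hd : 1 ≤ dS G P y) :
    Full G (insert y P) ∧ dS G P y = 1 := by
  have h1 := kap_insert G P y hy
  have h2 := kap_le G univ hG (insert y P) (insert_nonempty y P) (subset_univ _)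
  have h3 : (1 : ℤ) ≤ dS G P y := by exact_mod_cast hd
  have h4 := hP.2
  refine ⟨⟨insert_nonempty y P, by linarith⟩, ?_⟩
  have : (dS G P y : ℤ) ≤ 1 := by linarith
  omega

/-- the complement of a full set is attached by single edges -/
theorem full_disj (P : Finset V) (hP : Full G P) (R : Finset V) (h : Disjoint P R) :
    kap G R + 2 * ∑ x ∈ R, (dS G P x : ℤ) ≤ 0 := by
  have h1 := kap_union G P R h
  have h2 := kap_le G univ hG (P ∪ R) (hP.1.mono subset_union_left) (subset_univ _)
  have h3 := hP.2
  linarith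

theorem full_att (P : Finset V) (hP : Full G P) (D : Finset V) (hD : (comps G D).card ≤ 1)
    (h : Disjoint P D) : ∑ x ∈ D, dS G P x ≤ 1 := by
  by_cases hne : D.Nonempty
  · have h1 := full_disj G hG P hP D h
    have h2 := kap_conn G D hD hne
    have h3 : (∑ x ∈ D, (dS G P x : ℤ)) ≤ 1 := by linarith
    exact_mod_cast h3
  · rw [not_nonempty_iff_eq_empty] at hne
    rw [hne]
    simp

theorem full_neg (P : Finset V) (hP : Full G P) : ∀ k : ℕ, ∀ R : Finset V, R.Nonempty →
    Disjoint P R → (P ∪ R)ᶜ.card = k → kap G R ≤ -2 := by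
  intro k
  induction k with
  | zero =>
    intro R hR hd hk
    have hu : P ∪ R = univ := by
      rw [card_eq_zero, compl_eq_empty_iff] at hk
      exact hk
    have hRne : R ≠ univ := by
      rintro rfl
      obtain ⟨x, hx⟩ := hP.1
      exact (Finset.disjoint_left.mp hd hx) (mem_univ x)
    obtain ⟨y, hy, x, hx, hxy⟩ := exists_nb G hG R hR hRne
    have hyP : y ∈ P := by
      have : y ∈ P ∪ R := by rw [hu]; exact mem_univ y
      rcases mem_union.mp this with h | h
      · exact h
      · exact absurd h hy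
    have h1 := full_disj G hG P hP R hd
    have h2 : (1 : ℤ) ≤ ∑ x ∈ R, (dS G P x : ℤ) := by
      have h3 := dS_pos G P x y hyP hxy
      have h4 : dS G P x ≤ ∑ x ∈ R, dS G P x :=
        single_le_sum (f := fun x => dS G P x) (fun _ _ => Nat.zero_le _) hx
      exact_mod_cast h3.trans h4
    linarith
  | succ k ih =>
    intro R hR hd hk
    have hRne : R ≠ univ := by
      rintro rfl
      obtain ⟨x, hx⟩ := hP.1
      exact (Finset.disjoint_left.mp hd hx) (mem_univ x)
    obtain ⟨y, hy, x, hx, hxy⟩ := exists_nb G hG R hR hRne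
    by_cases hyP : y ∈ P
    · have h1 := full_disj G hG P hP R hd
      have h2 : (1 : ℤ) ≤ ∑ x ∈ R, (dS G P x : ℤ) := by
        have h3 := dS_pos G P x y hyP hxy
        have h4 : dS G P x ≤ ∑ x ∈ R, dS G P x :=
          single_le_sum (f := fun x => dS G P x) (fun _ _ => Nat.zero_le _) hx
        exact_mod_cast h3.trans h4
      linarith
    · have e1 : P ∪ insert y R = insert y (P ∪ R) := by
        ext z; simp only [mem_union, mem_insert]; tauto
      have e2 : (P ∪ insert y R)ᶜ = (P ∪ R)ᶜ.erase y := by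
        rw [e1]
        ext z
        simp only [mem_compl, mem_insert, mem_erase]
        tauto
      have h1 := ih (insert y R) (insert_nonempty y R) (by
        rw [Finset.disjoint_insert_right]
        exact ⟨hyP, hd⟩) (by
        rw [e2, card_erase_of_mem (by simp [hyP, hy]), hk]
        rfl)
      have h2 := kap_insert G R y hy
      have h3 := dS_pos G R y x hx hxy.symm
      have h4 : (1 : ℤ) ≤ dS G R y := by exact_mod_cast h3
      linarith

theorem full_step (P Q : Finset V) (hP : Full G P) (hQ : Full G Q) (hPQ : P ⊆ Q) (hne : P ≠ Q) :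
    ∃ y ∈ Q, y ∉ P ∧ Full G (insert y P) := by
  have hR : (Q \ P).Nonempty := by
    rw [sdiff_nonempty]
    exact fun h => hne (subset_antisymm hPQ h)
  have hd : Disjoint P (Q \ P) := disjoint_sdiff
  have h1 := kap_union G P (Q \ P) hd
  rw [union_sdiff_of_subset hPQ] at h1
  have h2 := full_neg G hG P hP _ (Q \ P) hR hd rfl
  have h3 := hP.2
  have h4 := hQ.2
  have h5 : (1 : ℤ) ≤ ∑ x ∈ Q \ P, (dS G P x : ℤ) := by linarith
  have h6 : 0 < ∑ x ∈ Q \ P, dS G P x := by
    have : (1 : ℤ) ≤ ((∑ x ∈ Q \ P, dS G P x : ℕ) : ℤ) := by push_cast; exact h5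
    omega
  obtain ⟨y, hy, hy2⟩ := exists_ne_zero_of_sum_ne_zero h6.ne'
  rw [mem_sdiff] at hy
  exact ⟨y, hy.1, hy.2, (full_insert G hG P hP y hy.2 (Nat.one_le_iff_ne_zero.mpr hy2)).1⟩

theorem full_chain (P Q : Finset V) (hP : Full G P) (hQ : Full G Q) (hPQ : P ⊆ Q) :
    ∀ j, P.card ≤ j → j ≤ Q.card → ∃ R, Full G R ∧ P ⊆ R ∧ R ⊆ Q ∧ R.card = j := by
  intro j hj
  induction j, hj using Nat.le_induction with
  | base => intro _; exact ⟨P, hP, subset_rfl, hPQ, rfl⟩
  | succ j hj ih =>
    intro hjQ
    obtain ⟨R, hR, hPR, hRQ, hRj⟩ := ih (by omega)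
    have hne : R ≠ Q := by rintro rfl; omega
    obtain ⟨y, hyQ, hyR, hf⟩ := full_step G hG R Q hR hQ hRQ hne
    exact ⟨insert y R, hf, hPR.trans (subset_insert y R), insert_subset hyQ hRQ,
      by rw [card_insert_of_notMem hyR, hRj]⟩

theorem full_inter (hK : 0 < kap G univ) (P Q : Finset V) (hP : Full G P) (hQ : Full G Q) :
    Full G (P ∩ Q) := by
  have h1 := kap_union G P (Q \ P) disjoint_sdiff
  have h2 := kap_union G (P ∩ Q) (Q \ P) (by
    rw [Finset.disjoint_left]
    intro x hx hx'
    exact (mem_sdiff.mp hx').2 (mem_inter.mp hx).1)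
  have e1 : P ∩ Q ∪ Q \ P = Q := by
    ext x
    simp only [mem_union, mem_inter, mem_sdiff]
    tauto
  rw [e1] at h2
  have h3 := kap_le G univ hG (P ∪ Q \ P) (hP.1.mono subset_union_left) (subset_univ _)
  have h4 : ∑ x ∈ Q \ P, (dS G (P ∩ Q) x : ℤ) ≤ ∑ x ∈ Q \ P, (dS G P x : ℤ) := by
    apply sum_le_sum
    intro x _
    exact_mod_cast dS_mono G inter_subset_left x
  have h5 := hP.2
  have h6 := hQ.2
  have h7 : kap G univ ≤ kap G (P ∩ Q) := by linarith
  have hne : (P ∩ Q).Nonempty := by
    rw [nonempty_iff_ne_empty]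
    intro h
    rw [h, kap_empty] at h7
    linarith
  have h8 := kap_le G univ hG (P ∩ Q) hne (subset_univ _)
  exact ⟨hne, le_antisymm h8 h7⟩

/-- the least full set -/
theorem full_least (hV : Nonempty V) (hK : 0 < kap G univ) : ∃ C, Full G C ∧
    (∀ Q, Full G Q → C ⊆ Q) ∧ ∀ x ∈ C, 2 ≤ dS G C x := by
  have huniv : Full G univ := ⟨univ_nonempty, rfl⟩
  obtain ⟨C, hC, hmin⟩ := exists_min_image (univ.filter (fun P => Full G P)) (fun P => P.card)
    ⟨univ, mem_filter.mpr ⟨mem_univ _, huniv⟩⟩
  have hCf := (mem_filter.mp hC).2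
  refine ⟨C, hCf, fun Q hQ => ?_, fun x hx => ?_⟩
  · have h1 := full_inter G hG hK C Q hCf hQ
    have h2 := hmin _ (mem_filter.mpr ⟨mem_univ _, h1⟩)
    have h3 : C ∩ Q = C := eq_of_subset_of_card_le inter_subset_left h2
    rw [← h3]
    exact inter_subset_right
  · by_contra hlt
    push Not at hlt
    have h1 := kap_erase G C x hx
    have h2 : (dS G C x : ℤ) ≤ 1 := by
      have : dS G C x ≤ 1 := by omega
      exact_mod_cast this
    have h3 := hCf.2
    have h4 : kap G univ ≤ kap G (C.erase x) := by linarith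
    have hne : (C.erase x).Nonempty := by
      rw [nonempty_iff_ne_empty]
      intro h
      rw [h, kap_empty] at h4
      linarith
    have h5 := kap_le G univ hG (C.erase x) hne (subset_univ _)
    have h6 := hmin _ (mem_filter.mpr ⟨mem_univ _, ⟨hne, le_antisymm h5 h4⟩⟩)
    rw [card_erase_of_mem hx] at h6
    have := card_pos.mpr ⟨x, hx⟩
    omega

end conn

end Pool.Agent.U395.RC
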