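import Pool.Agent.U395.RC.Uniq

set_option autoImplicit false
set_option linter.unusedSectionVars false

/-! The unique full sets form a chain, whose members differ by a path. -/

namespace Pool.Agent.U395.RC

open Finset Classical
open Pool.Agent.H234RC (Hypo NonIso Reconstructible)
open Pool.Agent.TH87.RVC (actF mem_actF FF FF_inv del relAut mem_iff_of_maps dS dS_eq_sum)
open Pool.Agent.TH87.RVE

variable {V : Type} [Fintype V]

theorem comps_empty_le (K : SimpleGraph V) : (comps K ∅).card ≤ 1 := by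
  unfold comps
  simp

theorem full_last (G : SimpleGraph V) (B : Finset V) (hB : Full G B) (y : V) (hy : y ∈ B)
    (hf : Full G (B.erase y)) : dS G B y = 1 := by
  have h1 := kap_erase G B y hy
  have h2 := hB.2
  have h3 := hf.2
  have : (dS G B y : ℤ) = 1 := by linarith
  exact_mod_cast this

theorem dS_map {G H : SimpleGraph V} (σ : Equiv.Perm V) (P : Finset V) (x : V) (hx : x ∈ P)
    (h : ∀ x ∈ P, ∀ y ∈ P, (H.Adj (σ x) (σ y) ↔ G.Adj x y)) :
    dS H (P.map σ.toEmbedding) (σ x) = dS G P x := by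
  rw [dS_eq_sum, dS_eq_sum, sum_map]
  apply sum_congr rfl
  intro y hy
  have := h x hx y hy
  simp [this]

theorem kap_map {G H : SimpleGraph V} (σ : Equiv.Perm V) (P : Finset V)
    (h : ∀ x ∈ P, ∀ y ∈ P, (H.Adj (σ x) (σ y) ↔ G.Adj x y)) :
    kap H (P.map σ.toEmbedding) = kap G P := by
  unfold kap
  rw [sum_map]
  apply sum_congr rfl
  intro x hx
  simp only [Equiv.coe_toEmbedding]
  rw [dS_map σ P x hx h]

section conn

variable (G : SimpleGraph V) (hG : (comps G univ).card ≤ 1)

include hG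

theorem uniq_all (C : Finset V) (hC : Full G C) (hCl : ∀ Q, Full G Q → C ⊆ Q)
    (A : Finset V) (hA : Uniq G A) (hAne : A ≠ univ) :
    ∀ k, k ≤ A.card - C.card → ∃ B, Uniq G B ∧ B ⊆ A ∧ B.card + k = A.card := by
  intro k
  induction k with
  | zero => intro _; exact ⟨A, hA, subset_rfl, rfl⟩
  | succ k ih =>
    intro hk
    obtain ⟨B, hB, hBA, hBc⟩ := ih (by omega)
    have hne : B ≠ univ := by
      rintro rfl
      exact hAne (subset_antisymm (subset_univ A) hBA)
    have hBC : B ≠ C := by rintro rfl; omega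
    obtain ⟨y, hy, _, hu⟩ := uniq_down G hG C hC hCl B hB hne hBC
    refine ⟨B.erase y, hu, (erase_subset _ _).trans hBA, ?_⟩
    rw [card_erase_of_mem hy]
    have := card_pos.mpr ⟨y, hy⟩
    omega

theorem uniq_path (C : Finset V) (hC : Full G C) (hCl : ∀ Q, Full G Q → C ⊆ Q)
    (A : Finset V) (hA : Uniq G A) (hAne : A ≠ univ) :
    ∀ j, C.card + 1 ≤ j → j ≤ A.card → ∃ B y, Uniq G B ∧ B.card = j ∧ y ∈ B ∧ y ∉ C ∧
      Uniq G (B.erase y) ∧ (comps G (B \ C)).card ≤ 1 ∧ (comps G (B.erase y \ C)).card ≤ 1 ∧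
      ∀ x ∈ B.erase y \ C, dS G univ x = 2 := by
  have hex : ∀ j, C.card + 1 ≤ j → j ≤ A.card → ∃ B y, Uniq G B ∧ B.card = j ∧ y ∈ B ∧ y ∉ C ∧
      Uniq G (B.erase y) := by
    intro j h1 h2
    obtain ⟨B, hB, hBA, hBc⟩ := uniq_all G hG C hC hCl A hA hAne (A.card - j) (by omega)
    have hne : B ≠ univ := by
      rintro rfl
      exact hAne (subset_antisymm (subset_univ A) hBA)
    have hBC : B ≠ C := by rintro rfl; omega
    obtain ⟨y, hy, hyC, hu⟩ := uniq_down G hG C hC hCl B hB hne hBC
    exact ⟨B, y, hB, by omega, hy, hyC, hu⟩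
  intro j hj
  induction j, hj using Nat.le_induction with
  | base =>
    intro hjA
    obtain ⟨B, y, hB, hBc, hy, hyC, hu⟩ := hex _ le_rfl hjA
    have h1 : B.erase y = C := by
      symm
      apply eq_of_subset_of_card_le (hCl _ hu.1)
      rw [card_erase_of_mem hy]
      omega
    have h2 : B \ C = {y} := by
      rw [← h1]
      ext x
      simp only [mem_sdiff, mem_erase, mem_singleton, not_and, ne_eq]
      constructor
      · rintro ⟨h3, h4⟩
        by_contra h5
        exact h4 h5 h3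
      · rintro rfl
        exact ⟨hy, fun h => absurd rfl h⟩
    refine ⟨B, y, hB, hBc, hy, hyC, hu, ?_, ?_, ?_⟩
    · rw [h2]; exact comps_single_le G y
    · rw [h1, sdiff_self]; exact comps_empty_le G
    · rw [h1, sdiff_self]
      intro x hx
      exact absurd hx (notMem_empty x)
  | succ j hj ih =>
    intro hjA
    obtain ⟨B, y, hB, hBc, hy, hyC, hu, hc1, hc2, hdeg⟩ := ih (by omega)
    obtain ⟨B', y', hB', hBc', hy', hyC', hu'⟩ := hex (j + 1) (by omega) hjA
    have h1 : B'.erase y' = B := hB.2 _ hu'.1 (by rw [card_erase_of_mem hy']; omega)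
    have hy'B : y' ∉ B := by rw [← h1]; simp
    have h2 : B' = insert y' B := by rw [← h1, insert_erase hy']
    have h3 : dS G B y' = 1 := by
      have := full_last G B' hB'.1 y' hy' hu'.1
      rw [← dS_self G B' y' hy', h1] at this
      exact this
    obtain ⟨h4, h5⟩ := uniq_nb G hG B hB y hy hu.1 y' hy'B (by omega)
    refine ⟨B', y', hB', hBc', hy', hyC', hu', ?_, ?_, ?_⟩
    · have e : B' \ C = insert y' (B \ C) := by
        rw [h2]
        ext x
        simp only [mem_sdiff, mem_insert]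
        constructor
        · rintro ⟨h | h, h'⟩
          · exact Or.inl h
          · exact Or.inr ⟨h, h'⟩
        · rintro (rfl | ⟨h, h'⟩)
          · exact ⟨Or.inl rfl, hyC'⟩
          · exact ⟨Or.inr h, h'⟩
      rw [e]
      exact conn_insert G (B \ C) hc1 y y' (mem_sdiff.mpr ⟨hy, hyC⟩) h4.symm
    · rw [h1]; exact hc1
    · rw [h1]
      intro x hx
      by_cases hxy : x = y
      · subst hxy
        have g1 := dS_union G B Bᶜ disjoint_compl_right x
        rw [union_compl] at g1
        have g2 := full_last G B hB.1 x hy hu.1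
        have g3 : dS G Bᶜ x = 1 := by
          unfold dS
          rw [card_eq_one]
          refine ⟨y', ?_⟩
          ext w
          rw [mem_filter, mem_singleton, mem_compl]
          constructor
          · rintro ⟨hw, hadj⟩
            obtain ⟨hf, _⟩ := full_insert G hG B hB.1 w hw (dS_pos G B w x hy hadj.symm)
            have := hB'.2 _ hf (by rw [card_insert_of_notMem hw]; omega)
            rw [h2] at this
            have hw2 : w ∈ insert y' B := by rw [← this]; exact mem_insert_self _ _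
            rcases mem_insert.mp hw2 with h | h
            · exact h
            · exact absurd h hw
          · rintro rfl
            exact ⟨hy'B, h4.symm⟩
        omega
      · obtain ⟨hxB, hxC⟩ := mem_sdiff.mp hx
        exact hdeg x (mem_sdiff.mpr ⟨mem_erase.mpr ⟨hxy, hxB⟩, hxC⟩)

/-- the automorphisms of the graph induced by a unique set fix the vertices outside the core -/
theorem uniq_map (A : Finset V) (ρ : Equiv.Perm V)
    (hadj : ∀ x ∈ A, ∀ y ∈ A, (G.Adj (ρ x) (ρ y) ↔ G.Adj x y)) (B : Finset V) (hB : Uniq G B)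
    (hBA : B ⊆ A) (x : V) : ρ x ∈ B ↔ x ∈ B := by
  have h1 : B.map ρ.toEmbedding = B := by
    apply hB.2
    · refine ⟨hB.1.1.map, ?_⟩
      rw [kap_map ρ B (fun x hx y hy => hadj x (hBA hx) y (hBA hy))]
      exact hB.1.2
    · rw [card_map]
  constructor
  · intro h
    rw [← h1, mem_map_equiv, Equiv.symm_apply_apply] at h
    exact h
  · intro h
    rw [← h1, mem_map_equiv, Equiv.symm_apply_apply]
    exact h

theorem uniq_fix (C : Finset V) (hC : Full G C) (hCl : ∀ Q, Full G Q → C ⊆ Q)
    (A : Finset V) (hAne : A ≠ univ) (ρ : Equiv.Perm V)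
    (hadj : ∀ x ∈ A, ∀ y ∈ A, (G.Adj (ρ x) (ρ y) ↔ G.Adj x y)) :
    ∀ k, ∀ B, Uniq G B → B ⊆ A → B.card = C.card + k → ∀ x ∈ B, x ∉ C → ρ x = x := by
  intro k
  induction k with
  | zero =>
    intro B hB _ hk x hx hxC
    exfalso
    apply hxC
    rw [eq_of_subset_of_card_le (hCl B hB.1) (by omega)]
    exact hx
  | succ k ih =>
    intro B hB hBA hk x hx hxC
    have hne : B ≠ univ := by
      rintro rfl
      exact hAne (subset_antisymm (subset_univ A) hBA)
    have hBC : B ≠ C := by rintro rfl; omega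
    obtain ⟨y, hy, _, hu⟩ := uniq_down G hG C hC hCl B hB hne hBC
    by_cases hxy : x = y
    · subst hxy
      have h1 := (uniq_map G hG A ρ hadj B hB hBA x).mpr hy
      have h2 := uniq_map G hG A ρ hadj (B.erase x) hu ((erase_subset _ _).trans hBA) x
      by_contra hne'
      have := h2.mp (mem_erase.mpr ⟨hne', h1⟩)
      simp at this
    · exact ih (B.erase y) hu ((erase_subset _ _).trans hBA)
        (by rw [card_erase_of_mem hy]; omega) x (mem_erase.mpr ⟨hxy, hx⟩) hxC

theorem card_relAut_core (C : Finset V) (hC : Full G C) (hCl : ∀ Q, Full G Q → C ⊆ Q)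
    (A : Finset V) (hA : Uniq G A) (hAne : A ≠ univ) :
    Nat.card (relAut G A Aᶜ) ≤ Nat.card (relAut G C Cᶜ) := by
  have hCA := hCl A hA.1
  have hCu := least_uniq G hG C hC hCl
  have hex : ∀ α : relAut G A Aᶜ, ∃ ρ : Equiv.Perm V, (∀ x : {x // x ∈ A}, ρ x = (α : Equiv.Perm {x // x ∈ A}) x) ∧
      (∀ x ∈ A, ∀ y ∈ A, (G.Adj (ρ x) (ρ y) ↔ G.Adj x y)) := by
    rintro ⟨α, ρ, h1, h2, h3⟩
    exact ⟨ρ, h1, fun x hx y hy => h3 x y (fun h => (mem_compl.mp h) hx)
      (fun h => (mem_compl.mp h) hy)⟩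
  choose ρ hρ1 hρ2 using hex
  have hmem : ∀ α : relAut G A Aᶜ, (ρ α).subtypePerm
      (fun x => uniq_map G hG A (ρ α) (hρ2 α) C hCu hCA x) ∈ relAut G C Cᶜ := by
    intro α
    refine ⟨ρ α, fun x => rfl, fun x => ?_, fun x y hx hy => ?_⟩
    · rw [mem_compl, mem_compl, uniq_map G hG A (ρ α) (hρ2 α) C hCu hCA x]
    · rw [mem_compl, not_not] at hx hy
      exact hρ2 α x (hCA hx) y (hCA hy)
  apply Nat.card_le_card_of_injective (fun α => (⟨_, hmem α⟩ : relAut G C Cᶜ))
  intro α β h
  have h1 : ∀ x ∈ C, ρ α x = ρ β x := by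
    intro x hx
    have h2 := congrArg Subtype.val h
    simp only at h2
    have h3 := Equiv.congr_fun h2 ⟨x, hx⟩
    exact congrArg Subtype.val h3
  apply Subtype.ext
  ext ⟨x, hx⟩
  rw [← hρ1, ← hρ1]
  simp only
  by_cases hxC : x ∈ C
  · exact h1 x hxC
  · rw [uniq_fix G hG C hC hCl A hAne (ρ α) (hρ2 α) (A.card - C.card) A hA subset_rfl
      (by have := card_le_card hCA; omega) x hx hxC,
      uniq_fix G hG C hC hCl A hAne (ρ β) (hρ2 β) (A.card - C.card) A hA subset_rfl
      (by have := card_le_card hCA; omega) x hx hxC]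

end conn

end Pool.Agent.U395.RC
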