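import Pool.Agent.U395.RC.Core

set_option autoImplicit false
set_option linter.unusedSectionVars false

/-! The order of the 2-core. -/

namespace Pool.Agent.U395.RC

open Finset Classical
open Pool.Agent.H234RC (Hypo NonIso Reconstructible)
open Pool.Agent.TH87.RVC (actF mem_actF FF FF_inv del relAut mem_iff_of_maps dS dS_eq_sum dS_eq
  dS_erase dS_card)
open Pool.Agent.TH87.RVE

variable {V : Type} [Fintype V]

/-- full sets are connected -/
theorem full_conn (G : SimpleGraph V) (hG : (comps G univ).card ≤ 1) :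
    ∀ k : ℕ, ∀ P : Finset V, Full G P → P.card + k = Fintype.card V → (comps G P).card ≤ 1 := by
  intro k
  induction k with
  | zero =>
    intro P _ hk
    have : P = univ := by
      apply eq_of_subset_of_card_le (subset_univ P)
      rw [card_univ]
      omega
    rw [this]
    exact hG
  | succ k ih =>
    intro P hP hk
    have hne : P ≠ univ := by
      rintro rfl
      rw [card_univ] at hk
      omega
    obtain ⟨y, _, hyP, hf⟩ := full_step G hG P univ hP (full_univ G hG P hP) (subset_univ P) hne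
    have hQ := ih (insert y P) hf (by rw [card_insert_of_notMem hyP]; omega)
    have hy1 : dS G P y = 1 := by
      have h1 := full_last G (insert y P) hf y (mem_insert_self y P) (by
        rw [erase_insert hyP]; exact hP)
      rw [← dS_self G (insert y P) y (mem_insert_self y P), erase_insert hyP] at h1
      exact h1
    have key : ∀ E ∈ comps G P, ∃ x ∈ E, G.Adj x y := by
      intro E hE
      have hEs := comps_sub G _ E hE
      obtain ⟨z0, hz0⟩ := comps_nonempty G _ E hE
      have hEQ : E ≠ insert y P := by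
        intro h
        apply hyP
        apply hEs
        rw [h]
        exact mem_insert_self y P
      obtain ⟨u, hu, huE, x, hx, hxu⟩ := conn_nb G (insert y P) hQ E ⟨z0, hz0⟩
        (hEs.trans (subset_insert y P)) hEQ
      rcases mem_insert.mp hu with rfl | hu
      · exact ⟨x, hx, hxu⟩
      · exact absurd (comp_closed G _ E hE x u hx hu hxu) huE
    rw [card_le_one]
    intro E hE F hF
    obtain ⟨a, ha, ha2⟩ := key E hE
    obtain ⟨b, hb, hb2⟩ := key F hF
    have haP := comps_sub G _ E hE ha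
    have hbP := comps_sub G _ F hF hb
    unfold dS at hy1
    obtain ⟨w, hw⟩ := card_eq_one.mp hy1
    have h5 : a ∈ P.filter (fun z => G.Adj y z) := mem_filter.mpr ⟨haP, ha2.symm⟩
    have h6 : b ∈ P.filter (fun z => G.Adj y z) := mem_filter.mpr ⟨hbP, hb2.symm⟩
    rw [hw, mem_singleton] at h5 h6
    have hab : a = b := by rw [h5, h6]
    rw [← comp_of_mem G _ E hE a ha, hab, comp_of_mem G _ F hF b hb]

/-- a connected graph in which the connected sets of vertices of degree two have at most `2 L`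
members is small -/
theorem small_of (G : SimpleGraph V) (C : Finset V) (hCc : (comps G C).card ≤ 1)
    (hC2 : ∀ x ∈ C, 2 ≤ dS G univ x) (R L : ℕ) (hR : ∑ x ∈ C, ((dS G univ x : ℤ) - 2) = R)
    (hRpos : 0 < R)
    (hL : ∀ D : Finset V, (comps G D).card ≤ 1 → D ⊆ C → D ≠ univ → (∀ x ∈ D, dS G univ x = 2) →
      D.card ≤ 2 * L) : C.card ≤ R * (6 * L + 1) := by
  set Y := C.filter (fun x => dS G univ x ≠ 2) with hY
  have hY3 : ∀ x ∈ Y, 3 ≤ dS G univ x := by
    intro x hx
    obtain ⟨h1, h2⟩ := mem_filter.mp hx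
    have := hC2 x h1
    omega
  have hsum : ∑ x ∈ Y, ((dS G univ x : ℤ) - 2) = R := by
    rw [← hR]
    apply sum_subset (filter_subset _ _)
    intro x hx hxY
    have : dS G univ x = 2 := by
      by_contra h
      exact hxY (mem_filter.mpr ⟨hx, h⟩)
    rw [this]
    norm_num
  have hYc : Y.card ≤ R := by
    have h1 : ∑ x ∈ Y, (1 : ℤ) ≤ ∑ x ∈ Y, ((dS G univ x : ℤ) - 2) := by
      apply sum_le_sum
      intro x hx
      have : (3 : ℤ) ≤ dS G univ x := by exact_mod_cast hY3 x hx
      linarith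
    rw [hsum, sum_const, nsmul_eq_mul, mul_one] at h1
    exact_mod_cast h1
  have hYd : ∑ x ∈ Y, dS G univ x ≤ 3 * R := by
    have h1 : ∑ x ∈ Y, (dS G univ x : ℤ) ≤ ∑ x ∈ Y, 3 * ((dS G univ x : ℤ) - 2) := by
      apply sum_le_sum
      intro x hx
      have : (3 : ℤ) ≤ dS G univ x := by exact_mod_cast hY3 x hx
      linarith
    rw [← mul_sum, hsum] at h1
    exact_mod_cast h1
  have hYne : Y.Nonempty := by
    rw [nonempty_iff_ne_empty]
    intro h
    rw [h, sum_empty] at hsum
    have : (R : ℤ) = 0 := hsum.symm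
    have : R = 0 := by exact_mod_cast this
    omega
  obtain ⟨y0, hy0⟩ := hYne
  have hy0C := (mem_filter.mp hy0).1
  -- the components of the rest
  have hat : ∀ E ∈ comps G (C \ Y), 1 ≤ ∑ z ∈ E, dS G Y z := by
    intro E hE
    have hEs := comps_sub G _ E hE
    obtain ⟨z0, hz0⟩ := comps_nonempty G _ E hE
    have hEC : E ≠ C := by
      intro h
      have h1 := hEs (by rw [h]; exact hy0C : y0 ∈ E)
      exact (mem_sdiff.mp h1).2 hy0
    obtain ⟨u, hu, huE, z, hz, hzu⟩ := conn_nb G C hCc E ⟨z0, hz0⟩ (hEs.trans sdiff_subset) hEC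
    have huY : u ∈ Y := by
      by_contra huY
      exact huE (comp_closed G _ E hE z u hz (mem_sdiff.mpr ⟨hu, huY⟩) hzu)
    exact (dS_pos G Y z u huY hzu).trans
      (single_le_sum (f := fun z => dS G Y z) (fun _ _ => Nat.zero_le _) hz)
  have hcomps : (comps G (C \ Y)).card ≤ 3 * R := by
    have h1 : ∑ _E ∈ comps G (C \ Y), 1 ≤ ∑ E ∈ comps G (C \ Y), ∑ z ∈ E, dS G Y z :=
      sum_le_sum hat
    rw [sum_const, smul_eq_mul, mul_one, ← sum_comps G (C \ Y) (fun z => dS G Y z),
      dS_swap G (C \ Y) Y] at h1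
    refine h1.trans (le_trans (sum_le_sum (fun x _ => dS_mono G (subset_univ _) x)) hYd)
  have hEsz : ∀ E ∈ comps G (C \ Y), E.card ≤ 2 * L := by
    intro E hE
    have hEs := comps_sub G _ E hE
    apply hL E (by rw [comps_comp G _ E hE, card_singleton]) (hEs.trans sdiff_subset)
    · intro h
      have := hEs (by rw [h]; exact mem_univ y0 : y0 ∈ E)
      exact (mem_sdiff.mp this).2 hy0
    · intro x hx
      have h1 := mem_sdiff.mp (hEs hx)
      by_contra h
      exact h1.2 (mem_filter.mpr ⟨h1.1, h⟩)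
  have h1 := card_comps G (C \ Y)
  have h2 : ∑ E ∈ comps G (C \ Y), E.card ≤ (comps G (C \ Y)).card * (2 * L) := by
    rw [← smul_eq_mul, ← sum_const]
    exact sum_le_sum hEsz
  have h3 : (comps G (C \ Y)).card * (2 * L) ≤ 3 * R * (2 * L) := Nat.mul_le_mul_right _ hcomps
  have h4 : (C \ Y).card = C.card - Y.card := card_sdiff_of_subset (filter_subset _ _)
  have h5 : Y.card ≤ C.card := card_le_card (filter_subset _ _)
  have h6 : C.card ≤ R + 3 * R * (2 * L) := by omega
  calc C.card ≤ R + 3 * R * (2 * L) := h6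
    _ = R * (6 * L + 1) := by ring

/-- the order of a connected graph which is not reconstructible -/
theorem order_bound {G H : SimpleGraph V} {π : V → Equiv.Perm V} (hH : Hypo G H π)
    (hN : NonIso G H) (hn : 3 ≤ Fintype.card V) (hG : (comps G univ).card ≤ 1)
    (C : Finset V) (hC : Full G C) (hCl : ∀ Q, Full G Q → C ⊆ Q)
    (hC2 : ∀ x ∈ C, 2 ≤ dS G C x) (k : ℕ) (hk : 1 ≤ k) (hK : kap G univ = 2 * k) (t : ℕ)
    (ht : 2 * (Nat.card (relAut G C Cᶜ) : ℝ) < (3 / 2 : ℝ) ^ t) :
    Fintype.card V ≤ 8 * t ^ 4 + 14 * k * t ^ 2 := by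
  have ht2 : 2 ≤ t := by
    have h1 : (1 : ℝ) ≤ (Nat.card (relAut G C Cᶜ) : ℝ) := by
      exact_mod_cast Nat.succ_le_of_lt Nat.card_pos
    by_contra hlt
    have h3 : (3 / 2 : ℝ) ^ t ≤ (3 / 2 : ℝ) ^ 1 :=
      pow_le_pow_right₀ (by norm_num) (by omega)
    rw [pow_one] at h3
    linarith
  have ht4 : 4 ≤ t ^ 2 := by nlinarith
  have ht16 : t ^ 4 = t ^ 2 * t ^ 2 := by ring
  obtain ⟨h1, h2, h3⟩ := core_data hH hN hn hG C hC hCl hC2 (by rw [hK]; positivity) t ht
  have hCc : (comps G C).card ≤ 1 :=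
    full_conn G hG (Fintype.card V - C.card) C hC (by have := card_le_univ C; omega)
  have hR : ∑ x ∈ C, ((dS G univ x : ℤ) - 2) = ((2 * k + ∑ w ∈ Cᶜ, dS G C w : ℕ) : ℤ) := by
    have e1 : ∀ x ∈ C, ((dS G univ x : ℤ) - 2) = ((dS G C x : ℤ) - 2) + dS G Cᶜ x := by
      intro x _
      have := dS_union G C Cᶜ disjoint_compl_right x
      rw [union_compl] at this
      rw [this]
      push_cast
      ring
    rw [sum_congr rfl e1, sum_add_distrib]
    have e2 : ∑ x ∈ C, ((dS G C x : ℤ) - 2) = 2 * k := by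
      have := hC.2
      unfold kap at this
      rw [this]
      exact hK
    have e3 : ∑ x ∈ C, (dS G Cᶜ x : ℤ) = ((∑ w ∈ Cᶜ, dS G C w : ℕ) : ℤ) := by
      rw [← dS_swap G C Cᶜ]
      push_cast
      rfl
    rw [e2, e3]
    push_cast
    ring
  have hsm := small_of G C hCc (fun x hx => (hC2 x hx).trans (dS_mono G (subset_univ C) x))
    (2 * k + ∑ w ∈ Cᶜ, dS G C w) (t ^ 2) hR (by omega) (by
      intro D hDc hDC hDu hdeg
      by_contra hlt
      push Not at hlt
      obtain ⟨v, x1, x2, hx12, hadj, hd1, hd2, hS⟩ := mid G hG D hDc hDu hdeg (t ^ 2) (by omega)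
        (by omega)
      exact hN (bare hH hn v x1 x2 hx12 hadj hd1 hd2 (t ^ 2) hS h3))
  have h4 : C.card + Cᶜ.card = Fintype.card V := by
    rw [card_compl]
    have := card_le_univ C
    omega
  have h5 : (2 * k + ∑ w ∈ Cᶜ, dS G C w) * (6 * t ^ 2 + 1) ≤ (2 * k + t ^ 2) * (7 * t ^ 2) :=
    Nat.mul_le_mul (by omega) (by omega)
  have h6 : (2 * k + t ^ 2) * (7 * t ^ 2) = 14 * k * t ^ 2 + 7 * t ^ 4 := by ring
  omega

end Pool.Agent.U395.RC
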