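import Pool.Agent.U395.RC.AutB

set_option autoImplicit false
set_option linter.unusedSectionVars false

/-! Connected graphs with few cycles. -/

namespace Pool.Agent.U395.RC

open Finset Classical
open Pool.Agent.H234RC (Hypo NonIso Reconstructible)
open Pool.Agent.TH87.RVC (actF mem_actF FF FF_inv del relAut mem_iff_of_maps dS dS_eq_sum dS_eq
  dS_erase dS_card)
open Pool.Agent.TH87.RVE

variable {V : Type} [Fintype V]

theorem conn_of (G : SimpleGraph V) (hG : G.Connected) : (comps G univ).card ≤ 1 := by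
  have key : ∀ a b : V, rch G univ a b := by
    intro a b
    have h := hG.preconnected a b
    rw [SimpleGraph.reachable_iff_reflTransGen] at h
    induction h with
    | refl => exact Relation.ReflTransGen.refl
    | tail _ h2 ih => exact Relation.ReflTransGen.tail ih ⟨mem_univ _, mem_univ _, h2⟩
  rw [card_le_one]
  intro E hE F hF
  obtain ⟨a, ha, rfl⟩ := (mem_comps G univ E).mp hE
  obtain ⟨b, hb, rfl⟩ := (mem_comps G univ F).mp hF
  symm
  apply comp_eq
  rw [mem_comp]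
  exact ⟨hb, key a b⟩

theorem kap_of (G : SimpleGraph V) (k : ℕ) (hm : G.edgeSet.ncard = Fintype.card V + k) :
    kap G univ = 2 * k := by
  have h1 := G.sum_degrees_eq_twice_card_edges
  have h2 : ∀ v, G.degree v = dS G univ v := by
    intro v
    unfold dS
    rw [← SimpleGraph.card_neighborFinset_eq_degree, SimpleGraph.neighborFinset_eq_filter]
  have h3 : G.edgeFinset.card = G.edgeSet.ncard := by
    rw [← SimpleGraph.coe_edgeFinset, Set.ncard_coe_finset]
  rw [h3, hm] at h1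
  simp only [h2] at h1
  unfold kap
  rw [sum_sub_distrib, sum_const, card_univ, nsmul_eq_mul]
  have h4 : ∑ v : V, (dS G univ v : ℤ) = 2 * ((Fintype.card V : ℤ) + k) := by exact_mod_cast h1
  rw [h4]
  ring

theorem three_le (G : SimpleGraph V) (k : ℕ) (hk : 1 ≤ k) (hK : kap G univ = 2 * k) :
    3 ≤ Fintype.card V := by
  by_contra hlt
  push Not at hlt
  have h1 : kap G univ ≤ 0 := by
    unfold kap
    apply sum_nonpos
    intro x _
    have h2 : dS G univ x ≤ (univ : Finset V).card := card_filter_le _ _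
    rw [card_univ] at h2
    have h3 : (dS G univ x : ℤ) ≤ 2 := by
      have : dS G univ x ≤ 2 := by omega
      exact_mod_cast this
    linarith
  have h2 : (1 : ℤ) ≤ k := by exact_mod_cast hk
  linarith

theorem exists_t2 (k : ℕ) (hk : 1 ≤ k) : ∃ t : ℕ,
    2 * (((8 * k) ^ (8 * k) : ℕ) : ℝ) < (3 / 2 : ℝ) ^ t ∧
      (t : ℝ) ≤ 101 * (((k : ℝ) + 1) * Real.log ((k : ℝ) + 1)) := by
  have hk' : (1 : ℝ) ≤ k := by exact_mod_cast hk
  set x := Real.log (2 * (((8 * k) ^ (8 * k) : ℕ) : ℝ)) / Real.log (3 / 2) with hx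
  have hl32 : (1 / 3 : ℝ) ≤ Real.log (3 / 2) := by
    have h := Real.one_sub_inv_le_log_of_pos (show (0 : ℝ) < 3 / 2 by norm_num)
    norm_num at h
    exact h
  have hl32pos : 0 < Real.log (3 / 2) := by linarith
  have hpos : (0 : ℝ) < 2 * (((8 * k) ^ (8 * k) : ℕ) : ℝ) := by
    have : 0 < (8 * k) ^ (8 * k) := by positivity
    have : (0 : ℝ) < (((8 * k) ^ (8 * k) : ℕ) : ℝ) := by exact_mod_cast this
    linarith
  have hlog : Real.log (2 * (((8 * k) ^ (8 * k) : ℕ) : ℝ)) =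
      Real.log 2 + 8 * k * (Real.log 8 + Real.log k) := by
    push_cast
    rw [Real.log_mul (by norm_num) (by positivity), Real.log_pow, Real.log_mul (by norm_num)
      (by positivity)]
    push_cast
    ring
  have hl2 : (1 / 2 : ℝ) ≤ Real.log 2 := by
    have := Real.log_two_gt_d9
    linarith
  have hm : Real.log 2 ≤ Real.log ((k : ℝ) + 1) := Real.log_le_log (by norm_num) (by linarith)
  have hkm : Real.log k ≤ Real.log ((k : ℝ) + 1) := Real.log_le_log (by positivity) (by linarith)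
  have h8 : Real.log 8 = 3 * Real.log 2 := by
    rw [show (8 : ℝ) = 2 ^ 3 by norm_num, Real.log_pow]
    norm_num
  set m := Real.log ((k : ℝ) + 1) with hmdef
  have hm0 : 0 ≤ m := by linarith
  refine ⟨⌊x⌋₊ + 1, ?_, ?_⟩
  · have h1 : x < ((⌊x⌋₊ + 1 : ℕ) : ℝ) := by
      push_cast
      exact Nat.lt_floor_add_one x
    rw [hx, div_lt_iff₀ hl32pos] at h1
    have h2 : Real.log (2 * (((8 * k) ^ (8 * k) : ℕ) : ℝ)) <
        Real.log ((3 / 2 : ℝ) ^ (⌊x⌋₊ + 1)) := by
      rw [Real.log_pow]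
      exact h1
    exact (Real.log_lt_log_iff hpos (by positivity)).mp h2
  · have hx0 : 0 ≤ x := by
      apply div_nonneg _ hl32pos.le
      rw [hlog]
      have h1 : 0 ≤ Real.log k := Real.log_nonneg hk'
      have h2 : 0 ≤ Real.log 8 := Real.log_nonneg (by norm_num)
      have h3 : 0 ≤ Real.log 2 := by linarith
      positivity
    have h1 : ((⌊x⌋₊ : ℕ) : ℝ) ≤ x := Nat.floor_le hx0
    have h2 : x ≤ 3 * (Real.log 2 + 8 * k * (Real.log 8 + Real.log k)) := by
      rw [hx, div_le_iff₀ hl32pos, hlog]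
      have h3 : 0 ≤ Real.log 2 + 8 * k * (Real.log 8 + Real.log k) := by
        have h1 : 0 ≤ Real.log k := Real.log_nonneg hk'
        have h2 : 0 ≤ Real.log 8 := Real.log_nonneg (by norm_num)
        have h3 : 0 ≤ Real.log 2 := by linarith
        positivity
      nlinarith
    have h4 : 8 * k * (Real.log 8 + Real.log k) ≤ 8 * k * (4 * m) := by
      apply mul_le_mul_of_nonneg_left _ (by positivity)
      rw [h8]
      linarith
    push_cast
    have h5 : (1 : ℝ) ≤ 2 * m := by linarith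
    have h6 : m ≤ k * m := by nlinarith
    nlinarith

/-- the bound in terms of the automorphism group of the core -/
theorem core_form (G : SimpleGraph V) (hG : G.Connected) (k : ℕ) (hk : 1 ≤ k)
    (hm : G.edgeSet.ncard = Fintype.card V + k) (C : Finset V)
    (hC : ∀ x, x ∈ C ↔ ∃ P : Finset V, x ∈ P ∧
      ∀ y ∈ P, ∃ a ∈ P, ∃ b ∈ P, a ≠ b ∧ G.Adj y a ∧ G.Adj y b) (t : ℕ)
    (ht : 2 * (Nat.card (G.induce (C : Set V) ≃g G.induce (C : Set V)) : ℝ) < (3 / 2 : ℝ) ^ t)
    (hbig : t ^ 4 < Cᶜ.card ∨ 8 * t ^ 4 + 14 * k * t ^ 2 < Fintype.card V) :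
    Reconstructible G ∧ Reconstructible Gᶜ := by
  have hGc := conn_of G hG
  have hK := kap_of G k hm
  have hn := three_le G k hk hK
  have hKpos : 0 < kap G univ := by rw [hK]; positivity
  have hV : Nonempty V := hG.nonempty
  obtain ⟨C', h1, h2, h3⟩ := full_least G hGc hV hKpos
  have htwo : ∀ P : Finset V, (∀ y ∈ P, ∃ a ∈ P, ∃ b ∈ P, a ≠ b ∧ G.Adj y a ∧ G.Adj y b) ↔
      ∀ y ∈ P, 2 ≤ dS G P y := by
    intro P
    apply forall₂_congr
    intro y _
    unfold dS
    rw [show (2 ≤ (P.filter (fun z => G.Adj y z)).card) ↔ 1 < (P.filter (fun z => G.Adj y z)).card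
      from Iff.rfl, one_lt_card]
    constructor
    · rintro ⟨a, ha, b, hb, hab, h1, h2⟩
      exact ⟨a, mem_filter.mpr ⟨ha, h1⟩, b, mem_filter.mpr ⟨hb, h2⟩, hab⟩
    · rintro ⟨a, ha, b, hb, hab⟩
      exact ⟨a, (mem_filter.mp ha).1, b, (mem_filter.mp hb).1, hab, (mem_filter.mp ha).2,
        (mem_filter.mp hb).2⟩
  have hCC : C = C' := by
    ext x
    rw [hC]
    constructor
    · rintro ⟨P, hx, hP⟩
      exact core_eq G hGc C' h1 h3 P ((htwo P).mp hP) hx
    · intro hx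
      exact ⟨C', hx, (htwo C').mpr h3⟩
  subst hCC
  have ht' := card_aut_real G C t ht
  refine rec_of G (t ^ 4 < Cᶜ.card ∨ 8 * t ^ 4 + 14 * k * t ^ 2 < Fintype.card V)
    (fun H π hH hN => ?_) hbig
  rintro (hb | hb)
  · have := (core_data hH hN hn hGc C h1 h2 h3 hKpos t ht').1
    omega
  · have := order_bound hH hN hn hGc C h1 h2 h3 k hk hK t ht'
    omega

/-- the bound in terms of the number of edges -/
theorem sparse_form (G : SimpleGraph V) (hG : G.Connected) (k : ℕ) (hk : 1 ≤ k)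
    (hm : G.edgeSet.ncard = Fintype.card V + k)
    (hbig : 10 ^ 9 * (((k : ℝ) + 1) * Real.log ((k : ℝ) + 1)) ^ 4 ≤ (Fintype.card V : ℝ)) :
    Reconstructible G ∧ Reconstructible Gᶜ := by
  have hGc := conn_of G hG
  have hK := kap_of G k hm
  have hn := three_le G k hk hK
  have hKpos : 0 < kap G univ := by rw [hK]; positivity
  have hV : Nonempty V := hG.nonempty
  obtain ⟨C, h1, h2, h3⟩ := full_least G hGc hV hKpos
  obtain ⟨t, ht1, ht2⟩ := exists_t2 k hk
  have hCc := full_conn G hGc (Fintype.card V - C.card) C h1 (by have := card_le_univ C; omega)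
  have hcard := card_core_le G C hCc h3 k hk (by rw [h1.2, hK])
  have ht' : 2 * (Nat.card (relAut G C Cᶜ) : ℝ) < (3 / 2 : ℝ) ^ t := by
    refine lt_of_le_of_lt ?_ ht1
    have : (Nat.card (relAut G C Cᶜ) : ℝ) ≤ (((8 * k) ^ (8 * k) : ℕ) : ℝ) := by
      exact_mod_cast hcard
    linarith
  refine rec_of G (10 ^ 9 * (((k : ℝ) + 1) * Real.log ((k : ℝ) + 1)) ^ 4 ≤
    (Fintype.card V : ℝ)) (fun H π hH hN hb => ?_) hbig
  have hord := order_bound hH hN hn hGc C h1 h2 h3 k hk hK t ht'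
  have hord' : (Fintype.card V : ℝ) ≤ 8 * (t : ℝ) ^ 4 + 14 * k * (t : ℝ) ^ 2 := by
    exact_mod_cast hord
  have hk' : (1 : ℝ) ≤ k := by exact_mod_cast hk
  have hl2 : (1 / 2 : ℝ) ≤ Real.log ((k : ℝ) + 1) := by
    have h4 := Real.log_two_gt_d9
    have h5 : Real.log 2 ≤ Real.log ((k : ℝ) + 1) := Real.log_le_log (by norm_num) (by linarith)
    linarith
  set z := ((k : ℝ) + 1) * Real.log ((k : ℝ) + 1) with hz
  have hz1 : 1 ≤ z := by nlinarith
  have hkz : (k : ℝ) ≤ 2 * z := by nlinarith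
  have ht0 : (0 : ℝ) ≤ t := Nat.cast_nonneg t
  have ht22 : (t : ℝ) ^ 2 ≤ (101 * z) ^ 2 := pow_le_pow_left₀ ht0 ht2 2
  have ht44 : (t : ℝ) ^ 4 ≤ (101 * z) ^ 4 := pow_le_pow_left₀ ht0 ht2 4
  have hz34 : z ^ 3 ≤ z ^ 4 := pow_le_pow_right₀ hz1 (by norm_num)
  have h6 : 14 * (k : ℝ) * (t : ℝ) ^ 2 ≤ 14 * (2 * z) * (101 * z) ^ 2 := by
    apply mul_le_mul _ ht22 (by positivity) (by positivity)
    linarith
  have h7 : 14 * (2 * z) * (101 * z) ^ 2 = 14 * 2 * 101 ^ 2 * z ^ 3 := by ring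
  have h8 : (101 * z) ^ 4 = 101 ^ 4 * z ^ 4 := by ring
  have hz4 : 1 ≤ z ^ 4 := one_le_pow₀ hz1
  rw [h7] at h6
  rw [h8] at ht44
  nlinarith

end Pool.Agent.U395.RC
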