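import Pool.Agent.U395.RC.Clos
import Pool.Agent.Y400.Rec.Gen

set_option autoImplicit false
set_option linter.unusedSectionVars false

/-! Kelly's lemma for families of sets of vertices, and unions of families. -/

namespace Pool.Agent.U395.RC

open Finset Classical
open Pool.Agent.H234RC (Hypo NonIso Reconstructible)
open Pool.Agent.TH87.RVC (actF mem_actF FF FF_inv del relAut mem_iff_of_maps)
open Pool.Agent.TH87.RVE

variable {V : Type} [Fintype V]

/-- the members of order `r` -/
noncomputable def fam (M : Finset V → Prop) (r : ℕ) : Finset (Finset V) :=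
  univ.filter (fun P => P.card = r ∧ M P)

theorem mem_fam (M : Finset V → Prop) (r : ℕ) (P : Finset V) :
    P ∈ fam M r ↔ P.card = r ∧ M P := by simp [fam]

theorem cnt_not {G H : SimpleGraph V} {π : V → Equiv.Perm V} (hH : Hypo G H π)
    (M M' : Finset V → Prop)
    (hM : ∀ v P, v ∉ P → (M' (P.map (π v).toEmbedding) ↔ M P)) (r : ℕ) (v : V) :
    ((fam M r).filter (fun P => v ∉ P)).card = ((fam M' r).filter (fun P => v ∉ P)).card := by
  apply card_bij (fun P _ => P.map (π v).toEmbedding)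
  · intro P hP
    obtain ⟨hP1, hP2⟩ := mem_filter.mp hP
    obtain ⟨hP3, hP4⟩ := (mem_fam M r P).mp hP1
    refine mem_filter.mpr ⟨(mem_fam M' r _).mpr ⟨by rw [card_map, hP3], (hM v P hP2).mpr hP4⟩, ?_⟩
    intro h
    rw [mem_map_equiv] at h
    apply hP2
    have : (π v).symm v = v := by rw [Equiv.symm_apply_eq, hH.fix]
    rwa [this] at h
  · intro P _ Q _ h
    exact Finset.map_injective _ h
  · intro Q hQ
    obtain ⟨hQ1, hQ2⟩ := mem_filter.mp hQ
    obtain ⟨hQ3, hQ4⟩ := (mem_fam M' r Q).mp hQ1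
    have hvP : v ∉ Q.map (π v).symm.toEmbedding := by
      intro h
      rw [mem_map_equiv] at h
      apply hQ2
      have : ((π v).symm).symm v = v := hH.fix v
      rwa [this] at h
    have hPQ : (Q.map (π v).symm.toEmbedding).map (π v).toEmbedding = Q := by
      ext x
      rw [mem_map_equiv, mem_map_equiv]
      simp
    refine ⟨Q.map (π v).symm.toEmbedding, ?_, hPQ⟩
    refine mem_filter.mpr ⟨(mem_fam M r _).mpr ⟨by rw [card_map, hQ3], ?_⟩, hvP⟩
    rw [← hM v _ hvP, hPQ]
    exact hQ4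

theorem sum_not (M : Finset V → Prop) (r : ℕ) :
    ∑ v : V, ((fam M r).filter (fun P => v ∉ P)).card = (fam M r).card * (Fintype.card V - r) := by
  simp only [card_filter]
  rw [sum_comm, ← smul_eq_mul, ← sum_const]
  apply sum_congr rfl
  intro P hP
  rw [← card_filter]
  have : (univ.filter (fun v => v ∉ P)) = Pᶜ := by
    ext x
    simp
  rw [this, card_compl, ((mem_fam M r P).mp hP).1]

theorem cnt_all {G H : SimpleGraph V} {π : V → Equiv.Perm V} (hH : Hypo G H π)
    (M M' : Finset V → Prop)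
    (hM : ∀ v P, v ∉ P → (M' (P.map (π v).toEmbedding) ↔ M P)) (r : ℕ)
    (hr : r < Fintype.card V) : (fam M r).card = (fam M' r).card := by
  have h1 := sum_not M r
  have h2 := sum_not M' r
  rw [sum_congr rfl (fun v _ => cnt_not hH M M' hM r v), h2] at h1
  have : 0 < Fintype.card V - r := by omega
  exact (Nat.eq_of_mul_eq_mul_right this h1).symm

theorem cnt_in {G H : SimpleGraph V} {π : V → Equiv.Perm V} (hH : Hypo G H π)
    (M M' : Finset V → Prop)
    (hM : ∀ v P, v ∉ P → (M' (P.map (π v).toEmbedding) ↔ M P)) (r : ℕ)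
    (hr : r < Fintype.card V) (v : V) :
    ((fam M r).filter (fun P => v ∈ P)).card = ((fam M' r).filter (fun P => v ∈ P)).card := by
  have h1 := cnt_all hH M M' hM r hr
  have h2 := cnt_not hH M M' hM r v
  have h3 := card_filter_add_card_filter_not (s := fam M r) (fun P => v ∈ P)
  have h4 := card_filter_add_card_filter_not (s := fam M' r) (fun P => v ∈ P)
  omega

/-- the union of the proper members of the family -/
noncomputable def un (M : Finset V → Prop) : Finset V :=
  univ.filter (fun x => ∃ P : Finset V, x ∈ P ∧ P ≠ univ ∧ M P)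

theorem mem_un (M : Finset V → Prop) (x : V) :
    x ∈ un M ↔ ∃ P : Finset V, x ∈ P ∧ P ≠ univ ∧ M P := by simp [un]

theorem un_sub {G H : SimpleGraph V} {π : V → Equiv.Perm V} (hH : Hypo G H π)
    (M M' : Finset V → Prop)
    (hM : ∀ v P, v ∉ P → (M' (P.map (π v).toEmbedding) ↔ M P)) (x : V) :
    x ∈ un M ↔ x ∈ un M' := by
  have key : ∀ M1 : Finset V → Prop, x ∈ un M1 ↔ ∃ r, r < Fintype.card V ∧
      0 < ((fam M1 r).filter (fun P => x ∈ P)).card := by
    intro M1
    rw [mem_un]
    constructor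
    · rintro ⟨P, h1, h2, h3⟩
      refine ⟨P.card, ?_, card_pos.mpr ⟨P, mem_filter.mpr ⟨(mem_fam _ _ _).mpr ⟨rfl, h3⟩, h1⟩⟩⟩
      rw [← card_univ]
      exact card_lt_card (ssubset_univ_iff.mpr h2)
    · rintro ⟨r, hr, h⟩
      obtain ⟨P, hP⟩ := card_pos.mp h
      obtain ⟨h1, h2⟩ := mem_filter.mp hP
      obtain ⟨h3, h4⟩ := (mem_fam _ _ _).mp h1
      refine ⟨P, h2, ?_, h4⟩
      rintro rfl
      rw [card_univ] at h3
      omega
  rw [key, key]
  constructor
  · rintro ⟨r, hr, h⟩
    exact ⟨r, hr, by rwa [← cnt_in hH M M' hM r hr x]⟩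
  · rintro ⟨r, hr, h⟩
    exact ⟨r, hr, by rwa [cnt_in hH M M' hM r hr x]⟩

/-- the union is preserved by the card isomorphisms of the vertices outside -/
theorem un_stable {G H : SimpleGraph V} {π : V → Equiv.Perm V} (hH : Hypo G H π)
    (M M' : Finset V → Prop)
    (hM : ∀ v P, v ∉ P → (M' (P.map (π v).toEmbedding) ↔ M P)) (v : V) (hv : v ∉ un M) (u : V) :
    π v u ∈ un M ↔ u ∈ un M := by
  apply mem_iff_of_maps
  intro w hw
  rw [un_sub hH M M' hM]
  obtain ⟨P, h1, h2, h3⟩ := (mem_un M w).mp hw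
  have hvP : v ∉ P := fun h => hv ((mem_un M v).mpr ⟨P, h, h2, h3⟩)
  refine (mem_un M' _).mpr ⟨P.map (π v).toEmbedding, ?_, ?_, (hM v P hvP).mpr h3⟩
  · rw [mem_map_equiv, Equiv.symm_apply_apply]
    exact h1
  · intro h
    have : v ∈ P.map (π v).toEmbedding := by rw [h]; exact mem_univ v
    rw [mem_map_equiv] at this
    apply hvP
    have e : (π v).symm v = v := by rw [Equiv.symm_apply_eq, hH.fix]
    rwa [e] at this

/-- a class of graphs gives a family -/
theorem class_inv {G H : SimpleGraph V} {π : V → Equiv.Perm V} (hH : Hypo G H π)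
    (F : (U : Type) → SimpleGraph U → Prop)
    (hF : ∀ (U U' : Type) (K : SimpleGraph U) (K' : SimpleGraph U'), F U K →
      Nonempty (K ≃g K') → F U' K') (v : V) (P : Finset V) (hv : v ∉ P) :
    F {x // x ∈ ((P.map (π v).toEmbedding : Finset V) : Set V)}
      (H.induce ((P.map (π v).toEmbedding : Finset V) : Set V)) ↔
      F {x // x ∈ (P : Set V)} (G.induce (P : Set V)) := by
  have hne : ∀ x ∈ P, x ≠ v := fun x hx h => hv (h ▸ hx)
  obtain ⟨f⟩ := Pool.Agent.Y400.Rec.ind_iso G H (π v) P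
    (fun x hx y hy => hH.adj v x y (hne x hx) (hne y hy))
  exact ⟨fun h => hF _ _ _ _ h ⟨f.symm⟩, fun h => hF _ _ _ _ h ⟨f⟩⟩

end Pool.Agent.U395.RC
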