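import Pool.Agent.U395.RC.PathU

set_option autoImplicit false
set_option linter.unusedSectionVars false

/-! Transfer to hypomorphic graphs. -/

namespace Pool.Agent.U395.RC

open Finset Classical
open Pool.Agent.H234RC (Hypo NonIso Reconstructible)
open Pool.Agent.TH87.RVC (actF mem_actF FF FF_inv del relAut mem_iff_of_maps dS dS_eq_sum dS_eq
  dS_erase dS_card)
open Pool.Agent.TH87.RVE

variable {V : Type} [Fintype V]

theorem deg_H {G H : SimpleGraph V} {π : V → Equiv.Perm V} (hH : Hypo G H π)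
    (hn : 3 ≤ Fintype.card V) (v : V) : dS G univ v = dS H univ v :=
  dS_eq hH univ (fun _ _ _ _ => mem_univ _) (by rwa [card_univ]) v (mem_univ v)

theorem pi_ne {G H : SimpleGraph V} {π : V → Equiv.Perm V} (hH : Hypo G H π) (v x : V) :
    π v x ≠ v ↔ x ≠ v := by
  rw [← (π v).injective.ne_iff (x := x), hH.fix]

theorem conn_H {G H : SimpleGraph V} {π : V → Equiv.Perm V} (hH : Hypo G H π)
    (hn : 3 ≤ Fintype.card V) (hG : (comps G univ).card ≤ 1) : (comps H univ).card ≤ 1 := by
  apply conn_transfer H G univ (by rwa [card_univ]) _ hG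
  intro v _
  have h := comps_map G H (univ.erase v) (univ.erase v) (π v) (fun x => by
    rw [mem_erase, mem_erase, pi_ne hH]
    simp) (fun x y hx hy => hH.adj v x y (mem_erase.mp hx).1 (mem_erase.mp hy).1)
  rw [h]
  symm
  apply card_image_of_injective
  exact Finset.map_injective _

theorem kap_H {G H : SimpleGraph V} {π : V → Equiv.Perm V} (hH : Hypo G H π)
    (hn : 3 ≤ Fintype.card V) : kap H univ = kap G univ := by
  unfold kap
  apply sum_congr rfl
  intro v _
  rw [deg_H hH hn v]

theorem full_H {G H : SimpleGraph V} {π : V → Equiv.Perm V} (hH : Hypo G H π)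
    (hn : 3 ≤ Fintype.card V) (v : V) (P : Finset V) (hv : v ∉ P) :
    Full H (P.map (π v).toEmbedding) ↔ Full G P := by
  have hne : ∀ x ∈ P, x ≠ v := fun x hx h => hv (h ▸ hx)
  unfold Full
  rw [kap_map (π v) P (fun x hx y hy => hH.adj v x y (hne x hx) (hne y hy)), kap_H hH hn,
    map_nonempty]

theorem single_of (F1 F2 : Finset (Finset V)) (hc : F1.card = F2.card)
    (hv : ∀ v, (F1.filter (fun P => v ∈ P)).card = (F2.filter (fun P => v ∈ P)).card)
    (A : Finset V) (h : F1 = {A}) : F2 = {A} := by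
  rw [h, card_singleton] at hc
  obtain ⟨B, hB⟩ := card_eq_one.mp hc.symm
  rw [hB]
  congr 1
  ext v
  have := hv v
  rw [h, hB, filter_singleton, filter_singleton] at this
  by_cases h1 : v ∈ A
  · by_cases h2 : v ∈ B
    · simp [h1, h2]
    · simp [h1, h2] at this
  · by_cases h2 : v ∈ B
    · simp [h1, h2] at this
    · simp [h1, h2]

theorem uniq_iff (G : SimpleGraph V) (A : Finset V) :
    Uniq G A ↔ fam (Full G) A.card = {A} := by
  constructor
  · intro h
    ext Q
    rw [mem_fam, mem_singleton]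
    constructor
    · rintro ⟨h1, h2⟩
      exact h.2 Q h2 h1
    · rintro rfl
      exact ⟨rfl, h.1⟩
  · intro h
    refine ⟨?_, fun Q hQ hc => ?_⟩
    · have : A ∈ fam (Full G) A.card := by rw [h]; exact mem_singleton_self A
      exact ((mem_fam _ _ _).mp this).2
    · have : Q ∈ fam (Full G) A.card := (mem_fam _ _ _).mpr ⟨hc, hQ⟩
      rw [h, mem_singleton] at this
      exact this

theorem card_lt_of_ne (A : Finset V) (hA : A ≠ univ) : A.card < Fintype.card V := by
  rw [← card_univ]
  exact card_lt_card (ssubset_univ_iff.mpr hA)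

theorem uniq_H {G H : SimpleGraph V} {π : V → Equiv.Perm V} (hH : Hypo G H π)
    (hn : 3 ≤ Fintype.card V) (A : Finset V) (hA : A ≠ univ) : Uniq G A ↔ Uniq H A := by
  have hc := cnt_all hH (Full G) (Full H) (fun v P hv => full_H hH hn v P hv) A.card
    (card_lt_of_ne A hA)
  have hv := cnt_in hH (Full G) (Full H) (fun v P hv => full_H hH hn v P hv) A.card
    (card_lt_of_ne A hA)
  rw [uniq_iff, uniq_iff]
  exact ⟨single_of _ _ hc hv A, single_of _ _ hc.symm (fun v => (hv v).symm) A⟩

theorem uniq_stable {G H : SimpleGraph V} {π : V → Equiv.Perm V} (hH : Hypo G H π)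
    (hn : 3 ≤ Fintype.card V) (A : Finset V) (hA : A ≠ univ) (hu : Uniq G A) (v : V) (hv : v ∉ A)
    (u : V) : π v u ∈ A ↔ u ∈ A := by
  have h1 : A.map (π v).toEmbedding = A := by
    apply ((uniq_H hH hn A hA).mp hu).2
    · exact (full_H hH hn v A hv).mpr hu.1
    · rw [card_map]
  constructor
  · intro h
    rw [← h1, mem_map_equiv, Equiv.symm_apply_apply] at h
    exact h
  · intro h
    rw [← h1, mem_map_equiv, Equiv.symm_apply_apply]
    exact h

theorem least_H {G H : SimpleGraph V} {π : V → Equiv.Perm V} (hH : Hypo G H π)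
    (hn : 3 ≤ Fintype.card V) (hG : (comps G univ).card ≤ 1) (hK : 0 < kap G univ)
    (C : Finset V) (hC : Full G C) (hCl : ∀ Q, Full G Q → C ⊆ Q) (hne : C ≠ univ) :
    (∀ Q, Full H Q → C ⊆ Q) ∧ (∀ x ∈ C, 2 ≤ dS H C x) := by
  have hV : Nonempty V := ⟨hC.1.choose⟩
  obtain ⟨C', h1, h2, h3⟩ := full_least H (conn_H hH hn hG) hV (by rw [kap_H hH hn]; exact hK)
  have hu := (uniq_H hH hn C hne).mp (least_uniq G hG C hC hCl)
  have h4 : C' ⊆ C := h2 C hu.1
  have hne' : C' ≠ univ := by
    rintro rfl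
    exact hne (subset_antisymm (subset_univ C) h4)
  have h5 := (uniq_H hH hn C' hne').mpr (least_uniq H (conn_H hH hn hG) C' h1 h2)
  have h6 : C ⊆ C' := hCl C' h5.1
  have h7 : C' = C := subset_antisymm h4 h6
  rw [h7] at h2 h3
  exact ⟨h2, h3⟩

end Pool.Agent.U395.RC
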