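import Pool.Agent.U395.RC.Kap

set_option autoImplicit false
set_option linter.unusedSectionVars false

/-! Full sets which are the only ones of their order. -/

namespace Pool.Agent.U395.RC

open Finset Classical
open Pool.Agent.H234RC (Hypo NonIso Reconstructible)
open Pool.Agent.TH87.RVC (actF mem_actF FF FF_inv del relAut mem_iff_of_maps dS dS_eq_sum)
open Pool.Agent.TH87.RVE

variable {V : Type} [Fintype V]

/-- the only full set of its order -/
def Uniq (G : SimpleGraph V) (B : Finset V) : Prop :=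
  Full G B ∧ ∀ Q, Full G Q → Q.card = B.card → Q = B

section conn

variable (G : SimpleGraph V) (hG : (comps G univ).card ≤ 1)

include hG

theorem full_univ (P : Finset V) (hP : Full G P) : Full G (univ : Finset V) :=
  ⟨hP.1.mono (subset_univ P), rfl⟩

theorem uniq_sub (C : Finset V) (hC : Full G C) (hCl : ∀ Q, Full G Q → C ⊆ Q)
    (B : Finset V) (hB : Uniq G B) (Q : Finset V) (hQ : Full G Q)
    (h : B.card ≤ Q.card) : B ⊆ Q := by
  obtain ⟨R, hR, _, hRQ, hRc⟩ := full_chain G hG C Q hC hQ (hCl Q hQ) B.card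
    (card_le_card (hCl B hB.1)) h
  rw [hB.2 R hR hRc] at hRQ
  exact hRQ

theorem uniq_sup (B : Finset V) (hB : Uniq G B) (Q : Finset V) (hQ : Full G Q)
    (h : Q.card ≤ B.card) : Q ⊆ B := by
  obtain ⟨R, hR, hQR, _, hRc⟩ := full_chain G hG Q univ hQ (full_univ G hG Q hQ) (subset_univ Q)
    B.card h (card_le_card (subset_univ B))
  rw [hB.2 R hR hRc] at hQR
  exact hQR

theorem least_uniq (C : Finset V) (hC : Full G C) (hCl : ∀ Q, Full G Q → C ⊆ Q) : Uniq G C :=
  ⟨hC, fun Q hQ h => (eq_of_subset_of_card_le (hCl Q hQ) h.le).symm⟩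

/-- an outside neighbour of `B` is adjacent to the last vertex of `B` -/
theorem uniq_nb (B : Finset V) (hB : Uniq G B) (y : V) (hy : y ∈ B)
    (hyf : Full G (B.erase y)) (w : V) (hw : w ∉ B) (hd : 1 ≤ dS G B w) :
    G.Adj w y ∧ dS G (B.erase y) w = 0 := by
  obtain ⟨h1, h2⟩ := full_insert G hG B hB.1 w hw hd
  have h3 := dS_ins G (B.erase y) w y (by simp)
  rw [insert_erase hy, h2] at h3
  by_cases h : 1 ≤ dS G (B.erase y) w
  · exfalso
    obtain ⟨h4, _⟩ := full_insert G hG (B.erase y) hyf w (fun h => hw (mem_of_mem_erase h)) h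
    have h5 := hB.2 _ h4 (by
      rw [card_insert_of_notMem (fun h => hw (mem_of_mem_erase h)), card_erase_of_mem hy]
      have := card_pos.mpr ⟨y, hy⟩
      omega)
    apply hw
    rw [← h5]
    exact mem_insert_self _ _
  · have h6 : dS G (B.erase y) w = 0 := by omega
    refine ⟨?_, h6⟩
    by_contra hadj
    rw [if_neg hadj, h6] at h3
    omega

/-- the last vertex is unique -/
theorem uniq_last (B : Finset V) (hB : Uniq G B) (hne : B ≠ univ) (y z : V) (hy : y ∈ B)
    (hz : z ∈ B) (hyf : Full G (B.erase y)) (hzf : Full G (B.erase z)) : y = z := by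
  obtain ⟨w, hw, x, hx, hxw⟩ := exists_nb G hG B hB.1.1 hne
  have hd := dS_pos G B w x hx hxw.symm
  by_contra hyz
  obtain ⟨h1, _⟩ := uniq_nb G hG B hB y hy hyf w hw hd
  obtain ⟨_, h2⟩ := uniq_nb G hG B hB z hz hzf w hw hd
  have := dS_pos G (B.erase z) w y (mem_erase.mpr ⟨hyz, hy⟩) h1
  omega

/-- below a unique set there is a unique set -/
theorem uniq_down (C : Finset V) (hC : Full G C) (hCl : ∀ Q, Full G Q → C ⊆ Q)
    (B : Finset V) (hB : Uniq G B) (hne : B ≠ univ) (hBC : B ≠ C) :
    ∃ y ∈ B, y ∉ C ∧ Uniq G (B.erase y) := by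
  have hCB := hCl B hB.1
  have hlt : C.card < B.card := by
    by_contra h
    exact hBC (eq_of_subset_of_card_le hCB (by omega)).symm
  have key : ∀ Q, Full G Q → Q.card + 1 = B.card → ∃ y ∈ B, Q = B.erase y := by
    intro Q hQ hc
    have h1 := uniq_sup G hG B hB Q hQ (by omega)
    have h2 : (B \ Q).card = 1 := by
      rw [card_sdiff_of_subset h1]; omega
    obtain ⟨y, hy⟩ := card_eq_one.mp h2
    have hyB : y ∈ B \ Q := by rw [hy]; exact mem_singleton_self y
    rw [mem_sdiff] at hyB
    refine ⟨y, hyB.1, ?_⟩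
    apply eq_of_subset_of_card_le
    · intro x hx
      exact mem_erase.mpr ⟨fun h => hyB.2 (h ▸ hx), h1 hx⟩
    · rw [card_erase_of_mem hyB.1]; omega
  obtain ⟨R, hR, _, _, hRc⟩ := full_chain G hG C B hC hB.1 hCB (B.card - 1) (by omega) (by omega)
  obtain ⟨y, hy, rfl⟩ := key R hR (by omega)
  refine ⟨y, hy, fun h => ?_, hR, fun Q hQ hQc => ?_⟩
  · have := hCl _ hR h
    simp at this
  · obtain ⟨z, hz, rfl⟩ := key Q hQ (by
      rw [hQc, card_erase_of_mem hy]; omega)
    rw [uniq_last G hG B hB hne z y hz hy hQ hR]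

/-- there are no leaves in a unique set -/
theorem uniq_noleaf (C : Finset V) (hC : Full G C) (hCl : ∀ Q, Full G Q → C ⊆ Q)
    (hC2 : ∀ x ∈ C, 2 ≤ dS G C x) (B : Finset V) (hB : Uniq G B) (hne : B ≠ univ) (x : V)
    (hx : x ∈ B) : dS G univ x ≠ 1 := by
  intro h1
  have hxC : x ∉ C := by
    intro hxC
    have h2 := hC2 x hxC
    have h3 := dS_mono G (subset_univ C) x
    omega
  have hu := full_univ G hG B hB.1
  have h2 := kap_erase G univ x (mem_univ x)
  rw [h1] at h2
  have hf : Full G (univ.erase x) := by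
    refine ⟨?_, by rw [h2]; norm_num⟩
    obtain ⟨c, hc⟩ := hC.1
    exact ⟨c, mem_erase.mpr ⟨fun h => hxC (h ▸ hc), mem_univ c⟩⟩
  have h3 : B.card ≤ (univ.erase x).card := by
    rw [card_erase_of_mem (mem_univ x), card_univ]
    have h4 : B.card < (univ : Finset V).card := card_lt_card (ssubset_univ_iff.mpr hne)
    rw [card_univ] at h4
    omega
  have := uniq_sub G hG C hC hCl B hB _ hf h3 hx
  simp at this

/-- an attaching vertex of a unique set has degree at least three if there are at least two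
components outside -/
theorem uniq_attach (C : Finset V) (hC : Full G C) (hCl : ∀ Q, Full G Q → C ⊆ Q)
    (B : Finset V) (hB : Uniq G B) (h2 : 2 ≤ (comps G Bᶜ).card) (y : V) (hy : y ∈ B)
    (w : V) (hw : w ∉ B) (hadj : G.Adj y w) : 3 ≤ dS G univ y := by
  -- the component of `w`
  set D := comp G Bᶜ w with hD
  have hwB : w ∈ Bᶜ := mem_compl.mpr hw
  have hDc : D ∈ comps G Bᶜ := comp_mem_comps G _ w hwB
  have hwD : w ∈ D := comp_self G _ w hwB
  have hDs := comps_sub G _ D hDc
  have hDB : Disjoint B D := by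
    rw [Finset.disjoint_right]
    exact fun x hx => mem_compl.mp (hDs hx)
  -- the complement of `D` is full
  obtain ⟨E, hE, hED⟩ : ∃ E ∈ comps G Bᶜ, E ≠ D := exists_mem_ne (by omega) D
  obtain ⟨z, hz⟩ := comps_nonempty G _ E hE
  have hzB := comps_sub G _ E hE hz
  have hzD : z ∉ D := fun h => hED (by
    rw [← comp_of_mem G _ E hE z hz, ← comp_of_mem G _ D hDc z h])
  -- edges between `D` and the rest
  have hDout : ∀ x ∈ D, ∀ u, G.Adj x u → u ∉ D → u ∈ B := by
    intro x hx u hxu hu
    by_contra huB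
    exact hu (comp_closed G _ D hDc x u hx (mem_compl.mpr huB) hxu)
  have hDconn : (comps G D).card ≤ 1 := by rw [comps_comp G _ D hDc, card_singleton]
  have hatt := full_att G hG B hB.1 D hDconn hDB
  have hkD : kap G D = -2 := by
    have h1 := full_disj G hG B hB.1 D hDB
    have h3 := kap_conn G D hDconn ⟨w, hwD⟩
    have h4 : 1 ≤ ∑ x ∈ D, dS G B x := by
      have h5 := dS_pos G B w y hy hadj.symm
      exact h5.trans (single_le_sum (f := fun x => dS G B x) (fun _ _ => Nat.zero_le _) hwD)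
    have h5 : (1 : ℤ) ≤ ∑ x ∈ D, (dS G B x : ℤ) := by exact_mod_cast h4
    linarith
  have hsum : ∑ x ∈ D, dS G B x = 1 := by
    have h5 := dS_pos G B w y hy hadj.symm
    have h4 := h5.trans (single_le_sum (f := fun x => dS G B x) (fun _ _ => Nat.zero_le _) hwD)
    exact le_antisymm hatt h4
  have hDd : ∀ x ∈ D, dS G Dᶜ x = dS G B x := by
    intro x hx
    unfold dS
    congr 1
    ext u
    rw [mem_filter, mem_filter, mem_compl]
    constructor
    · rintro ⟨h1, h3⟩
      exact ⟨hDout x hx u h3 h1, h3⟩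
    · rintro ⟨h1, h3⟩
      exact ⟨Finset.disjoint_left.mp hDB h1, h3⟩
  have hcu : Dᶜ ∪ D = univ := by rw [union_comm, union_compl]
  have hDf : Full G Dᶜ := by
    have h1 := kap_union G Dᶜ D disjoint_compl_left
    rw [hcu] at h1
    have h3 : ∑ x ∈ D, (dS G Dᶜ x : ℤ) = 1 := by
      rw [sum_congr rfl (fun x hx => by rw [hDd x hx])]
      exact_mod_cast hsum
    rw [h3, hkD] at h1
    obtain ⟨b, hb⟩ := hB.1.1
    refine ⟨⟨b, mem_compl.mpr (Finset.disjoint_left.mp hDB hb)⟩, by linarith⟩
  -- the degree of `y` without `D`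
  have hyD : y ∈ Dᶜ := mem_compl.mpr (Finset.disjoint_left.mp hDB hy)
  have hy2 : 2 ≤ dS G Dᶜ y := by
    by_contra hlt
    push Not at hlt
    have h1 := kap_erase G Dᶜ y hyD
    have h3 : (dS G Dᶜ y : ℤ) ≤ 1 := by
      have : dS G Dᶜ y ≤ 1 := by omega
      exact_mod_cast this
    have h4 := hDf.2
    have h5 : kap G univ ≤ kap G (Dᶜ.erase y) := by linarith
    have hne : (Dᶜ.erase y).Nonempty := by
      refine ⟨z, mem_erase.mpr ⟨fun h => ?_, mem_compl.mpr hzD⟩⟩
      rw [h] at hzB
      exact (mem_compl.mp hzB) hy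
    have h6 := kap_le G univ hG (Dᶜ.erase y) hne (subset_univ _)
    have h7 : Full G (Dᶜ.erase y) := ⟨hne, le_antisymm h6 h5⟩
    have h8 : B.card ≤ (Dᶜ.erase y).card := by
      have : (insert z (B.erase y)) ⊆ Dᶜ.erase y := by
        intro x hx
        rcases mem_insert.mp hx with rfl | hx
        · refine mem_erase.mpr ⟨fun h => ?_, mem_compl.mpr hzD⟩
          rw [h] at hzB
          exact (mem_compl.mp hzB) hy
        · obtain ⟨h1, h2⟩ := mem_erase.mp hx
          exact mem_erase.mpr ⟨h1, mem_compl.mpr (Finset.disjoint_left.mp hDB h2)⟩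
      have h9 := card_le_card this
      rw [card_insert_of_notMem (fun h => (mem_compl.mp hzB) (mem_of_mem_erase h)),
        card_erase_of_mem hy] at h9
      have := card_pos.mpr ⟨y, hy⟩
      omega
    have := uniq_sub G hG C hC hCl B hB _ h7 h8 hy
    simp at this
  have h10 := dS_union G Dᶜ D disjoint_compl_left y
  rw [hcu] at h10
  have h11 := dS_pos G D y w hwD hadj
  omega

end conn

end Pool.Agent.U395.RC
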